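import Pool.Agent.H887.CI.Soft

/-!
# The charts at the vertices of a product of hyperplane arrangements
-/

set_option autoImplicit false

open Finset

namespace Pool.Agent.H887.CI

open Pool.Agent.Q267.AP Pool.Agent.Q267.ST

section defs

variable {s : ℕ}

/-- The variables of a product of projective spaces. -/
abbrev Var (n : Fin s → ℕ) := (b : Fin s) × Fin (n b + 1)

/-- The multi-degree as a weight. -/
def gr (n : Fin s → ℕ) : Var n → (Fin s → ℕ) := fun x => Pi.single x.1 1

/-- The exponents `w` with `w x ≥ 1` and sum `e b` in the block `b`. -/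
abbrev MExps (n e : Fin s → ℕ) :=
  {w : (x : Var n) → Fin (e x.1 + 1) // (∀ x, 0 < (w x : ℕ)) ∧ ∀ b, ∑ i, (w ⟨b, i⟩ : ℕ) = e b}

/-- The exponent as a finitely supported function. -/
noncomputable def mwexp (n e : Fin s → ℕ) (w : MExps n e) : Var n →₀ ℕ :=
  Finsupp.equivFunOnFinite.symm fun x => (w.1 x : ℕ)

/-- The exponents of one block. -/
def mres {n e : Fin s → ℕ} (b : Fin s) (w : MExps n e) : Exps (n b) (e b) :=
  ⟨fun i => w.1 ⟨b, i⟩, fun i => w.2.1 ⟨b, i⟩, w.2.2 b⟩

/-- The exponents are products. -/
def mequiv (n e : Fin s → ℕ) : MExps n e ≃ ((b : Fin s) → Exps (n b) (e b)) where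
  toFun w b := mres b w
  invFun k := ⟨fun x => (k x.1).1 x.2, fun x => (k x.1).2.1 x.2, fun b => (k b).2.2⟩
  left_inv _ := rfl
  right_inv _ := rfl

lemma weight_gr (n : Fin s → ℕ) (u : Var n →₀ ℕ) (b : Fin s) :
    Finsupp.weight (gr n) u b = ∑ i, u ⟨b, i⟩ := by
  rw [Finsupp.weight_apply, Finsupp.sum_fintype _ _ (by simp), Finset.sum_apply,
    Fintype.sum_sigma, Finset.sum_eq_single b]
  · refine sum_congr rfl fun i _ => ?_
    simp [gr]
  · intro b' _ hb
    refine sum_eq_zero fun i _ => ?_
    simp [gr, Ne.symm hb]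
  · intro h
    exact absurd (mem_univ _) h

/-- The scaling. -/
def omb (n : Fin s → ℕ) : Var n → ℕ := fun x => if x.2 = 0 then 0 else 1

/-- The exponent with `D b` at the variable `0` of the block `b`. -/
noncomputable def pt (n D : Fin s → ℕ) : Var n →₀ ℕ :=
  Finsupp.equivFunOnFinite.symm fun x => if x.2 = 0 then D x.1 else 0

/-- The exponent of the product of the other variables. -/
noncomputable def ombf (n : Fin s → ℕ) : Var n →₀ ℕ := Finsupp.equivFunOnFinite.symm (omb n)

/-- The leading exponent. -/
noncomputable def u0 (n e : Fin s → ℕ) : Var n →₀ ℕ := ombf n + pt n (fun b => e b - n b)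

lemma pt_apply (n D : Fin s → ℕ) (x : Var n) : pt n D x = if x.2 = 0 then D x.1 else 0 := rfl
lemma ombf_apply (n : Fin s → ℕ) (x : Var n) : ombf n x = if x.2 = 0 then 0 else 1 := rfl
lemma mwexp_apply (n e : Fin s → ℕ) (w : MExps n e) (x : Var n) :
    mwexp n e w x = (w.1 x : ℕ) := rfl

end defs

section hom

variable {s : ℕ} {n : Fin s → ℕ} {A : Type} [CommRing A]

/-- The point. -/
def dl (n : Fin s → ℕ) (A : Type) [CommRing A] : Var n → A := fun x => if x.2 = 0 then 1 else 0

lemma eval_dl (D : Fin s → ℕ) (Q : MvPolynomial (Var n) A)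
    (hQ : MvPolynomial.IsWeightedHomogeneous (gr n) Q D) :
    MvPolynomial.eval (dl n A) Q = MvPolynomial.coeff (pt n D) Q := by
  classical
  rw [MvPolynomial.eval_eq']
  have h1 : ∀ u ∈ Q.support, MvPolynomial.coeff u Q * ∏ x, dl n A x ^ u x =
      if u = pt n D then MvPolynomial.coeff u Q else 0 := by
    intro u hu
    have hd : ∀ b, ∑ i, u ⟨b, i⟩ = D b := fun b => by
      rw [← weight_gr, hQ (MvPolynomial.mem_support_iff.mp hu)]
    by_cases h : ∀ x : Var n, x.2 ≠ 0 → u x = 0
    · have h2 : u = pt n D := by
        ext x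
        obtain ⟨b, i⟩ := x
        rw [pt_apply]
        by_cases hi : i = 0
        · subst hi
          rw [if_pos rfl, ← hd b, Finset.sum_eq_single (0 : Fin (n b + 1))]
          · intro i _ hi
            exact h ⟨b, i⟩ hi
          · intro h3
            exact absurd (mem_univ _) h3
        · rw [if_neg hi]
          exact h ⟨b, i⟩ hi
      rw [if_pos h2]
      have h3 : ∏ x, dl n A x ^ u x = 1 := by
        refine prod_eq_one fun x _ => ?_
        unfold dl
        split_ifs with hx
        · exact one_pow _
        · rw [h x hx, pow_zero]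
      rw [h3, mul_one]
    · push Not at h
      obtain ⟨x, hx, hux⟩ := h
      have h2 : u ≠ pt n D := by
        intro h3
        apply hux
        rw [h3, pt_apply, if_neg hx]
      rw [if_neg h2]
      have h3 : ∏ x, dl n A x ^ u x = 0 := by
        refine prod_eq_zero (mem_univ x) ?_
        unfold dl
        rw [if_neg hx, zero_pow hux]
      rw [h3, mul_zero]
  rw [sum_congr rfl h1, Finset.sum_ite_eq']
  split_ifs with h
  · rfl
  · exact (MvPolynomial.notMem_support_iff.mp h).symm

lemma eval_lin {ι : Type} [Fintype ι] (M : Matrix ι ι A) (z : ι → A) (Q : MvPolynomial ι A) :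
    MvPolynomial.eval z (lin M Q) = MvPolynomial.eval (fun i => ∑ j, M i j * z j) Q := by
  have h : (MvPolynomial.eval z).comp (lin M) = MvPolynomial.eval (fun i => ∑ j, M i j * z j) := by
    apply MvPolynomial.ringHom_ext
    · intro a
      simp [lin]
    · intro i
      simp [lin]
  rw [← h, RingHom.comp_apply]

lemma hom_lin (Ms : ∀ b, Matrix (Fin (n b + 1)) (Fin (n b + 1)) A) (D : Fin s → ℕ)
    (Q : MvPolynomial (Var n) A) (hQ : MvPolynomial.IsWeightedHomogeneous (gr n) Q D) :
    MvPolynomial.IsWeightedHomogeneous (gr n) (lin (Matrix.blockDiagonal' Ms) Q) D := by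
  classical
  have hX : ∀ x : Var n, MvPolynomial.IsWeightedHomogeneous (gr n)
      (lin (Matrix.blockDiagonal' Ms) (MvPolynomial.X x)) (gr n x) := by
    intro x
    have h1 : lin (Matrix.blockDiagonal' Ms) (MvPolynomial.X x) =
        ∑ y, MvPolynomial.C (Matrix.blockDiagonal' Ms x y) * MvPolynomial.X y := by
      unfold lin
      rw [MvPolynomial.coe_eval₂Hom, MvPolynomial.eval₂_X]
    rw [h1]
    refine MvPolynomial.IsWeightedHomogeneous.sum _ _ _ fun y _ => ?_
    by_cases hxy : x.1 = y.1
    · have h2 : gr n x = gr n y := by unfold gr; rw [hxy]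
      rw [h2]
      exact (MvPolynomial.isWeightedHomogeneous_X A (gr n) y).C_mul _
    · obtain ⟨b, i⟩ := x
      obtain ⟨b', i'⟩ := y
      rw [Matrix.blockDiagonal'_apply_ne Ms i i' hxy, map_zero, zero_mul]
      exact MvPolynomial.isWeightedHomogeneous_zero A (gr n) _
  have hmon : ∀ u : Var n →₀ ℕ, MvPolynomial.IsWeightedHomogeneous (gr n)
      (lin (Matrix.blockDiagonal' Ms) (MvPolynomial.monomial u (1 : A)))
      (Finsupp.weight (gr n) u) := by
    intro u
    have h1 : lin (Matrix.blockDiagonal' Ms) (MvPolynomial.monomial u (1 : A)) =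
        ∏ x, lin (Matrix.blockDiagonal' Ms) (MvPolynomial.X x) ^ u x := by
      rw [MvPolynomial.monomial_eq, MvPolynomial.C_1, one_mul, Finsupp.prod_fintype _ _
        (fun i => by rw [pow_zero]), map_prod]
      simp only [map_pow]
    have h2 : Finsupp.weight (gr n) u = ∑ x, u x • gr n x := by
      rw [Finsupp.weight_apply, Finsupp.sum_fintype _ _ (by simp)]
    rw [h1, h2]
    exact MvPolynomial.IsWeightedHomogeneous.prod _ _ _ fun x _ => (hX x).pow (u x)
  have h1 : lin (Matrix.blockDiagonal' Ms) Q = ∑ u ∈ Q.support, MvPolynomial.C (Q.coeff u) *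
      lin (Matrix.blockDiagonal' Ms) (MvPolynomial.monomial u (1 : A)) := by
    conv_lhs => rw [Q.as_sum]
    rw [map_sum]
    refine sum_congr rfl fun u _ => ?_
    have h2 : (MvPolynomial.monomial u (Q.coeff u) : MvPolynomial (Var n) A) =
        MvPolynomial.C (Q.coeff u) * MvPolynomial.monomial u 1 := by
      rw [MvPolynomial.C_mul_monomial, mul_one]
    rw [h2, map_mul]
    congr 1
    unfold lin
    rw [MvPolynomial.coe_eval₂Hom, MvPolynomial.eval₂_C]
  rw [h1]
  refine MvPolynomial.IsWeightedHomogeneous.sum _ _ _ fun u hu => ?_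
  rw [← hQ (MvPolynomial.mem_support_iff.mp hu)]
  exact (hmon u).C_mul _

lemma hom_rename (b : Fin s) (d : ℕ) (Q : MvPolynomial (Fin (n b + 1)) A)
    (hQ : ∀ u ∈ Q.support, ∑ i, u i = d) :
    MvPolynomial.IsWeightedHomogeneous (gr n) (MvPolynomial.rename (Sigma.mk b) Q)
      (Pi.single b d) := by
  classical
  intro u hu
  obtain ⟨v, hv, hv0⟩ := MvPolynomial.coeff_rename_ne_zero _ _ _ hu
  funext b'
  rw [weight_gr]
  have h1 := hQ v (MvPolynomial.mem_support_iff.mpr hv0)
  have hinj : Function.Injective (@Sigma.mk (Fin s) (fun b => Fin (n b + 1)) b) :=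
    sigma_mk_injective
  by_cases hb : b' = b
  · subst hb
    rw [Pi.single_eq_same, ← h1]
    refine sum_congr rfl fun i _ => ?_
    rw [← hv, Finsupp.mapDomain_apply hinj]
  · rw [Pi.single_eq_of_ne hb]
    refine sum_eq_zero fun i _ => ?_
    rw [← hv, Finsupp.mapDomain_of_notMem_range]
    rintro ⟨j, hj⟩
    exact hb (congrArg Sigma.fst hj).symm

lemma lin_rename (Ms : ∀ b, Matrix (Fin (n b + 1)) (Fin (n b + 1)) A) (b : Fin s)
    (Q : MvPolynomial (Fin (n b + 1)) A) :
    lin (Matrix.blockDiagonal' Ms) (MvPolynomial.rename (Sigma.mk b) Q) =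
      MvPolynomial.rename (Sigma.mk b) (lin (Ms b) Q) := by
  classical
  have h : (lin (Matrix.blockDiagonal' Ms)).comp
      (MvPolynomial.rename (@Sigma.mk (Fin s) (fun b => Fin (n b + 1)) b) :
        MvPolynomial (Fin (n b + 1)) A →ₐ[A] MvPolynomial (Var n) A).toRingHom =
      ((MvPolynomial.rename (@Sigma.mk (Fin s) (fun b => Fin (n b + 1)) b) :
        MvPolynomial (Fin (n b + 1)) A →ₐ[A] MvPolynomial (Var n) A).toRingHom).comp
        (lin (Ms b)) := by
    apply MvPolynomial.ringHom_ext
    · intro a
      simp [lin]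
    · intro i
      simp only [AlgHom.toRingHom_eq_coe, RingHom.coe_comp, RingHom.coe_coe,
        Function.comp_apply, MvPolynomial.rename_X, lin, MvPolynomial.coe_eval₂Hom,
        MvPolynomial.eval₂_X, map_sum, map_mul, MvPolynomial.rename_C]
      rw [Fintype.sum_sigma, Finset.sum_eq_single b]
      · refine sum_congr rfl fun j _ => ?_
        rw [Matrix.blockDiagonal'_apply_eq]
      · intro b' _ hb
        refine sum_eq_zero fun j _ => ?_
        rw [Matrix.blockDiagonal'_apply_ne Ms i j (Ne.symm hb), map_zero, zero_mul]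
      · intro h
        exact absurd (mem_univ _) h
  exact RingHom.congr_fun h Q

end hom

section charts

variable {s : ℕ} {n e : Fin s → ℕ} {A : Type} [CommRing A]

/-- The arrangement. -/
noncomputable def arr (l : (b : Fin s) → Fin (e b) → Fin (n b + 1) → A) :
    MvPolynomial (Var n) A :=
  ∏ b, ∏ c, MvPolynomial.rename (Sigma.mk b) (lf (l b c))

lemma wt_u0 (n e : Fin s → ℕ) (he : ∀ b, n b + 1 ≤ e b) :
    one (Var n) ≤ u0 n e ∧ wt (omb n) (u0 n e - one (Var n)) = 0 ∧
      u0 n e - one (Var n) = pt n (fun b => e b - n b - 1) := by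
  have h1 : u0 n e - one (Var n) = pt n (fun b => e b - n b - 1) := by
    ext x
    rw [Finsupp.tsub_apply, pt_apply]
    change (if x.2 = 0 then 0 else 1) + (if x.2 = 0 then (e x.1 - n x.1) else 0) - 1 = _
    split_ifs <;> omega
  refine ⟨fun x => ?_, ?_, h1⟩
  · change 1 ≤ (if x.2 = 0 then 0 else 1) + (if x.2 = 0 then (e x.1 - n x.1) else 0)
    have := he x.1
    split_ifs <;> omega
  · rw [h1]
    unfold wt
    refine sum_eq_zero fun x _ => ?_
    rw [pt_apply]
    unfold omb
    split_ifs <;> simp

/-- **The charts.** -/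
theorem charts' [IsDomain A] (l : (b : Fin s) → Fin (e b) → Fin (n b + 1) → A)
    (hl : ∀ b, ∀ σ : Fin (n b + 1) → Fin (e b), Function.Injective σ →
      IsUnit (Matrix.of fun i j => l b (σ i) j).det) (he : ∀ b, n b + 1 ≤ e b) :
    ∃ (M : MExps n e → Matrix (Var n) (Var n) A) (c c' : MExps n e → A),
      (∀ j, IsUnit (M j).det ∧ c j * c' j = 1 ∧
        MvPolynomial.coeff (u0 n e) (lin (M j) (arr l)) = c j ∧
        ∀ u ∈ (lin (M j) (arr l)).support, u ≠ u0 n e →
          wt (omb n) (u0 n e) + 1 ≤ wt (omb n) u) ∧
      (vt (u0 n e) (mwexp n e) M).det ≠ 0 := by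
  classical
  have h1 := fun b => Pool.Agent.Q102.AP.charts (n b) (e b) A (l b) (hl b)
  choose Mb rb hMr hV using h1
  set M : MExps n e → Matrix (Var n) (Var n) A :=
    fun j => Matrix.blockDiagonal' fun b => Mb b (mres b j) with hM
  set R : MExps n e → MvPolynomial (Var n) A :=
    fun j => ∏ b, MvPolynomial.rename (Sigma.mk b) (rb b (mres b j)) with hR
  have hprod : ∀ b : Fin s, MvPolynomial.rename (Sigma.mk b) (∏ i ∈ univ.erase
      (0 : Fin (n b + 1)), (MvPolynomial.X i : MvPolynomial _ A)) =
      ∏ i, (MvPolynomial.X (⟨b, i⟩ : Var n) : MvPolynomial (Var n) A) ^ (omb n ⟨b, i⟩) := by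
    intro b
    rw [map_prod, ← Finset.mul_prod_erase univ _ (mem_univ (0 : Fin (n b + 1)))]
    have h2 : omb n ⟨b, 0⟩ = 0 := rfl
    rw [h2, pow_zero, one_mul]
    refine prod_congr rfl fun i hi => ?_
    have h3 : omb n ⟨b, i⟩ = 1 := if_neg (mem_erase.1 hi).1
    rw [h3, pow_one, MvPolynomial.rename_X]
  have hlinarr : ∀ j, lin (M j) (arr l) =
      MvPolynomial.monomial (ombf n) (1 : A) * R j := by
    intro j
    have h2 : (MvPolynomial.monomial (ombf n) (1 : A) : MvPolynomial (Var n) A) =
        ∏ b, ∏ i, (MvPolynomial.X (⟨b, i⟩ : Var n) : MvPolynomial (Var n) A) ^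
          (omb n ⟨b, i⟩) := by
      rw [MvPolynomial.monomial_eq, MvPolynomial.C_1, one_mul,
        Finsupp.prod_fintype _ _ (fun i => by rw [pow_zero]), Fintype.prod_sigma]
      rfl
    rw [h2, hR, ← prod_mul_distrib]
    unfold arr
    rw [map_prod]
    refine prod_congr rfl fun b _ => ?_
    rw [← map_prod, hM]
    simp only
    rw [lin_rename, (hMr b (mres b j)).2.1, map_mul, hprod b]
  have hRhom : ∀ j, MvPolynomial.IsWeightedHomogeneous (gr n) (R j) (fun b => e b - n b) := by
    intro j
    have h2 := MvPolynomial.IsWeightedHomogeneous.prod (w := gr n) univ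
      (fun b => MvPolynomial.rename (Sigma.mk b) (rb b (mres b j)))
      (fun b => Pi.single b (e b - n b))
      (fun b _ => hom_rename b (e b - n b) _ (hMr b (mres b j)).2.2.1)
    have h3 : ∑ b, (Pi.single b (e b - n b) : Fin s → ℕ) = fun b => e b - n b :=
      Finset.univ_sum_single _
    rw [h3] at h2
    exact h2
  have hdlren : ∀ b (Q : MvPolynomial (Fin (n b + 1)) A),
      MvPolynomial.eval (dl n A) (MvPolynomial.rename (Sigma.mk b) Q) =
        MvPolynomial.eval (fun i => if i = 0 then 1 else 0) Q := by
    intro b Q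
    rw [MvPolynomial.eval_rename]
    rfl
  -- the coefficient
  have hcoef : ∀ j, MvPolynomial.coeff (u0 n e) (lin (M j) (arr l)) =
      ∏ b, MvPolynomial.coeff (Finsupp.single 0 (e b - n b)) (rb b (mres b j)) := by
    intro j
    rw [hlinarr, u0, MvPolynomial.coeff_monomial_mul, one_mul, ← eval_dl _ _ (hRhom j), hR,
      map_prod]
    refine prod_congr rfl fun b _ => ?_
    rw [hdlren]
    -- evaluation in one block
    have h2 : ∀ u ∈ (rb b (mres b j)).support, MvPolynomial.coeff u (rb b (mres b j)) *
        ∏ i, (if i = (0 : Fin (n b + 1)) then (1 : A) else 0) ^ u i =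
        if u = Finsupp.single 0 (e b - n b) then MvPolynomial.coeff u (rb b (mres b j))
          else 0 := by
      intro u hu
      have hd := (hMr b (mres b j)).2.2.1 u hu
      by_cases h : ∀ i, i ≠ 0 → u i = 0
      · have h3 : u = Finsupp.single 0 (e b - n b) := by
          ext i
          by_cases hi : i = 0
          · subst hi
            rw [Finsupp.single_eq_same, ← hd, Finset.sum_eq_single (0 : Fin (n b + 1))]
            · intro i _ hi
              exact h i hi
            · intro h3
              exact absurd (mem_univ _) h3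
          · rw [Finsupp.single_eq_of_ne hi, h i hi]
        rw [if_pos h3]
        have h4 : ∏ i, (if i = (0 : Fin (n b + 1)) then (1 : A) else 0) ^ u i = 1 := by
          refine prod_eq_one fun i _ => ?_
          split_ifs with hx
          · exact one_pow _
          · rw [h i hx, pow_zero]
        rw [h4, mul_one]
      · push Not at h
        obtain ⟨i, hi, hui⟩ := h
        have h3 : u ≠ Finsupp.single 0 (e b - n b) := by
          intro h4
          apply hui
          rw [h4, Finsupp.single_eq_of_ne hi]
        rw [if_neg h3]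
        have h4 : ∏ i, (if i = (0 : Fin (n b + 1)) then (1 : A) else 0) ^ u i = 0 := by
          refine prod_eq_zero (mem_univ i) ?_
          rw [if_neg hi, zero_pow hui]
        rw [h4, mul_zero]
    rw [MvPolynomial.eval_eq', sum_congr rfl h2, Finset.sum_ite_eq']
    split_ifs with h
    · rfl
    · exact (MvPolynomial.notMem_support_iff.mp h).symm
  have hunit : ∀ j, IsUnit (∏ b, MvPolynomial.coeff (Finsupp.single 0 (e b - n b))
      (rb b (mres b j))) := fun j => by
    rw [IsUnit.prod_univ_iff]
    exact fun b => (hMr b (mres b j)).2.2.2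
  choose c' hc' using fun j => (hunit j).exists_right_inv
  refine ⟨M, fun j => ∏ b, MvPolynomial.coeff (Finsupp.single 0 (e b - n b))
      (rb b (mres b j)), c', fun j => ⟨?_, hc' j, hcoef j, ?_⟩, ?_⟩
  · have h2 : M j * (Matrix.blockDiagonal' fun b => (Mb b (mres b j))⁻¹) = 1 := by
      rw [hM]
      simp only
      rw [← Matrix.blockDiagonal'_mul, ← Matrix.blockDiagonal'_one]
      congr 1
      funext b
      exact Matrix.mul_nonsing_inv _ (hMr b (mres b j)).1
    exact Matrix.isUnit_det_of_right_inverse h2
  · intro u hu hne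
    rw [hlinarr, MvPolynomial.mem_support_iff, MvPolynomial.coeff_monomial_mul'] at hu
    split_ifs at hu with hle
    · rw [one_mul] at hu
      have hd := hRhom j hu
      set v := u - ombf n with hv
      have huv : u = ombf n + v := (add_tsub_cancel_of_le hle).symm
      have h2 : ∀ v' : Var n →₀ ℕ, wt (omb n) (ombf n + v') =
          wt (omb n) (ombf n) + wt (omb n) v' := by
        intro v'
        unfold wt
        rw [← sum_add_distrib]
        exact sum_congr rfl fun x _ => by rw [Finsupp.add_apply, mul_add]
      have h3 : wt (omb n) (pt n (fun b => e b - n b)) = 0 := by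
        unfold wt
        refine sum_eq_zero fun x _ => ?_
        rw [pt_apply]
        unfold omb
        split_ifs <;> simp
      rw [huv, h2, u0, h2, h3, add_zero]
      by_contra hcon
      have h4 : wt (omb n) v = 0 := by omega
      unfold wt at h4
      rw [sum_eq_zero_iff] at h4
      apply hne
      rw [huv, u0]
      congr 1
      ext x
      obtain ⟨b, i⟩ := x
      rw [pt_apply]
      have h5 : ∀ i, i ≠ 0 → v ⟨b, i⟩ = 0 := by
        intro i hi
        have := h4 ⟨b, i⟩ (mem_univ _)
        simpa [omb, hi] using this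
      by_cases hi : i = 0
      · subst hi
        rw [if_pos rfl]
        have h6 := congrFun hd b
        rw [weight_gr, Finset.sum_eq_single (0 : Fin (n b + 1))] at h6
        · exact h6
        · intro i _ hi
          exact h5 i hi
        · intro h3
          exact absurd (mem_univ _) h3
      · rw [if_neg hi]
        exact h5 i hi
    · exact absurd rfl hu
  · -- the matrix
    set V : ∀ b, Matrix (Exps (n b) (e b)) (Exps (n b) (e b)) A := fun b =>
      Matrix.of fun j w => MvPolynomial.eval (fun i => Mb b j i 0)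
        (MvPolynomial.monomial (wexp (n b) (e b) w - one (Fin (n b + 1))) (1 : A)) with hVd
    have hvt : ∀ j w, vt (u0 n e) (mwexp n e) M j w = ∏ b, V b (mres b j) (mres b w) := by
      intro j w
      change MvPolynomial.coeff (u0 n e - one (Var n))
        (lin (M j) (MvPolynomial.monomial (mwexp n e w - one (Var n)) (1 : A))) = _
      rw [(wt_u0 n e he).2.2]
      have h2 : MvPolynomial.IsWeightedHomogeneous (gr n)
          (MvPolynomial.monomial (mwexp n e w - one (Var n)) (1 : A))
          (fun b => e b - n b - 1) := by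
        apply MvPolynomial.isWeightedHomogeneous_monomial
        funext b
        rw [weight_gr]
        have h3 : ∑ i, ((mwexp n e w - one (Var n)) ⟨b, i⟩ + 1) = e b := by
          rw [← w.2.2 b]
          refine sum_congr rfl fun i _ => ?_
          rw [Finsupp.tsub_apply, mwexp_apply]
          change ((w.1 ⟨b, i⟩ : ℕ) - 1) + 1 = _
          have := w.2.1 ⟨b, i⟩
          omega
        rw [sum_add_distrib, sum_const, card_univ, Fintype.card_fin, smul_eq_mul, mul_one] at h3
        omega
      rw [← eval_dl _ _ (hom_lin _ _ _ h2), eval_lin, MvPolynomial.eval_monomial, one_mul,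
        Finsupp.prod_fintype _ _ (fun i => by rw [pow_zero]), Fintype.prod_sigma]
      refine prod_congr rfl fun b _ => ?_
      rw [hVd]
      simp only [Matrix.of_apply]
      rw [MvPolynomial.eval_monomial, one_mul,
        Finsupp.prod_fintype _ _ (fun i => by rw [pow_zero])]
      refine prod_congr rfl fun i _ => ?_
      have h3 : ∑ y : Var n, Matrix.blockDiagonal' (fun b => Mb b (mres b j)) ⟨b, i⟩ y *
          dl n A y = Mb b (mres b j) i 0 := by
        rw [Fintype.sum_sigma, Finset.sum_eq_single b, Finset.sum_eq_single (0 : Fin (n b + 1))]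
        · rw [Matrix.blockDiagonal'_apply_eq]
          change _ * (if (0 : Fin (n b + 1)) = 0 then (1 : A) else 0) = _
          rw [if_pos rfl, mul_one]
        · intro k _ hk
          change _ * (if k = 0 then (1 : A) else 0) = _
          rw [if_neg hk, mul_zero]
        · intro h
          exact absurd (mem_univ _) h
        · intro b' _ hb
          refine sum_eq_zero fun k _ => ?_
          rw [Matrix.blockDiagonal'_apply_ne (fun b => Mb b (mres b j)) i k (Ne.symm hb),
            zero_mul]
        · intro h
          exact absurd (mem_univ _) h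
      rw [h3]
      rfl
    -- a right inverse over the field of fractions
    set F := FractionRing A with hF
    have hinjF : Function.Injective (algebraMap A F) := IsFractionRing.injective A F
    have hVF : ∀ b, IsUnit ((V b).map (algebraMap A F)).det := by
      intro b
      have h3 : ((V b).map (algebraMap A F)).det = algebraMap A F (V b).det := by
        rw [RingHom.map_det]
        rfl
      rw [h3]
      refine IsUnit.mk0 _ fun h4 => hV b ?_
      rw [← map_zero (algebraMap A F)] at h4
      exact hinjF h4
    set W : Matrix (MExps n e) (MExps n e) F := Matrix.of fun j w =>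
      ∏ b, ((V b).map (algebraMap A F))⁻¹ (mres b j) (mres b w) with hW
    have hmul : (vt (u0 n e) (mwexp n e) M).map (algebraMap A F) * W = 1 := by
      ext j w
      rw [Matrix.mul_apply]
      have h3 : ∀ k : MExps n e, (vt (u0 n e) (mwexp n e) M).map (algebraMap A F) j k * W k w =
          ∏ b, (((V b).map (algebraMap A F)) (mres b j) (mequiv n e k b) *
            ((V b).map (algebraMap A F))⁻¹ (mequiv n e k b) (mres b w)) := by
        intro k
        rw [Matrix.map_apply, hvt, hW, Matrix.of_apply, map_prod, ← prod_mul_distrib]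
        rfl
      obtain ⟨f, hf⟩ : ∃ f : (b : Fin s) → Exps (n b) (e b) → F, f = fun b k =>
          ((V b).map (algebraMap A F)) (mres b j) k *
            ((V b).map (algebraMap A F))⁻¹ k (mres b w) := ⟨_, rfl⟩
      have h3' : ∀ k : MExps n e, (vt (u0 n e) (mwexp n e) M).map (algebraMap A F) j k * W k w =
          ∏ b, f b (mequiv n e k b) := by
        intro k
        rw [h3 k, hf]
      rw [sum_congr rfl fun k _ => h3' k, (mequiv n e).sum_comp (fun k => ∏ b, f b (k b))]
      have h3'' := Finset.prod_univ_sum (fun b => (univ : Finset (Exps (n b) (e b)))) f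
      rw [Fintype.piFinset_univ] at h3''
      rw [← h3'']
      have h4 : ∀ b, ∑ k, f b k =
            (1 : Matrix (Exps (n b) (e b)) (Exps (n b) (e b)) F) (mres b j) (mres b w) := by
        intro b
        rw [← Matrix.mul_nonsing_inv _ (hVF b), Matrix.mul_apply, hf]
      rw [prod_congr rfl fun b _ => h4 b]
      by_cases hjw : j = w
      · subst hjw
        rw [Matrix.one_apply_eq]
        exact prod_eq_one fun b _ => Matrix.one_apply_eq _
      · rw [Matrix.one_apply_ne hjw]
        have h5 : ∃ b, mres b j ≠ mres b w := by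
          by_contra hcon
          push Not at hcon
          exact hjw ((mequiv n e).injective (funext hcon))
        obtain ⟨b, hb⟩ := h5
        exact prod_eq_zero (mem_univ b) (Matrix.one_apply_ne hb)
    have h5 := Matrix.isUnit_det_of_right_inverse hmul
    intro h6
    have h7 : ((vt (u0 n e) (mwexp n e) M).map (algebraMap A F)).det = 0 := by
      have h8 := RingHom.map_det (algebraMap A F) (vt (u0 n e) (mwexp n e) M)
      rw [h6, map_zero] at h8
      exact h8.symm
    rw [h7] at h5
    exact not_isUnit_zero h5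

end charts

end Pool.Agent.H887.CI
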