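import Pool.Agent.H887.CI.Charts

/-!
# Families of multi-homogeneous forms through a product of hyperplane arrangements
-/

set_option autoImplicit false

open Finset

namespace Pool.Agent.H887.CI

open Pool.Agent.Q267.AP Pool.Agent.Q267.ST
open Pool.Agent.Q267.DC (hm hm_map det_hm_map)

section supp

variable {s : ℕ} {n e : Fin s → ℕ}

/-- Multi-homogeneous forms. -/
def MH {R : Type} [CommRing R] (n D : Fin s → ℕ) (F : MvPolynomial (Var n) R) : Prop :=
  ∀ u ∈ F.support, ∀ b, ∑ i, u ⟨b, i⟩ = D b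

lemma MH.wh {R : Type} [CommRing R] {D : Fin s → ℕ} {F : MvPolynomial (Var n) R}
    (h : MH n D F) : MvPolynomial.IsWeightedHomogeneous (gr n) F D := by
  intro u hu
  funext b
  rw [weight_gr]
  exact h u (MvPolynomial.mem_support_iff.mpr hu) b

lemma MH.of_wh {R : Type} [CommRing R] {D : Fin s → ℕ} {F : MvPolynomial (Var n) R}
    (h : MvPolynomial.IsWeightedHomogeneous (gr n) F D) : MH n D F := by
  intro u hu b
  rw [← weight_gr, h (MvPolynomial.mem_support_iff.mp hu)]

lemma mwexp_inj (n e : Fin s → ℕ) : Function.Injective (mwexp n e) := by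
  intro w w' h
  refine Subtype.ext (funext fun x => Fin.ext ?_)
  have := DFunLike.congr_fun h x
  exact this

lemma supp_cond' {R : Type} [CommRing R] {m p e' : ℕ} (hp : p ≠ 0)
    (he : e' * m + 1 = p) (F : MvPolynomial (Var n) R)
    (hF : MH n (fun b => m * e b) F) (l : MExps n e) (v : Var n →₀ ℕ)
    (hv : v ∈ (MvPolynomial.monomial (mwexp n e l) 1 * F ^ e').support)
    (hv' : ∃ v' : Var n →₀ ℕ, v = p • v') :
    ∃ i : MExps n e, v = p • mwexp n e i := by
  classical
  obtain ⟨v', rfl⟩ := hv'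
  obtain ⟨b, hb, u, hu, hbu⟩ := mem_add.mp (MvPolynomial.support_mul _ _ hv)
  have hb' := mem_singleton.mp (MvPolynomial.support_monomial_subset hb)
  rw [hb'] at hbu
  have h1 : ∀ b, ∑ i, u ⟨b, i⟩ = e' * (m * e b) := by
    intro b
    have h2 := MH.of_wh (hF.wh.pow e') u hu b
    rw [h2]
    rfl
  have h4 : ∀ b, ∑ i, v' ⟨b, i⟩ = e b := by
    intro b
    have h2 : ∑ i, mwexp n e l ⟨b, i⟩ = e b := l.2.2 b
    have h3 : p * ∑ i, v' ⟨b, i⟩ = p * e b := by
      have h4 : ∑ i, (mwexp n e l + u) ⟨b, i⟩ = ∑ i, (p • v') ⟨b, i⟩ := by rw [hbu]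
      simp only [Finsupp.add_apply, sum_add_distrib, Finsupp.smul_apply, smul_eq_mul] at h4
      rw [← mul_sum, h1, h2] at h4
      rw [← h4, ← he]
      ring
    exact Nat.eq_of_mul_eq_mul_left (Nat.pos_of_ne_zero hp) h3
  have h5 : ∀ x, 0 < v' x := by
    intro x
    have h6 := DFunLike.congr_fun hbu x
    rw [Finsupp.add_apply, Finsupp.smul_apply, smul_eq_mul] at h6
    have h7 := l.2.1 x
    rw [mwexp_apply] at h6
    by_contra h8
    have h9 : v' x = 0 := by omega
    rw [h9, mul_zero] at h6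
    omega
  have h6 : ∀ x : Var n, v' x < e x.1 + 1 := by
    rintro ⟨b, i⟩
    have h7 : v' ⟨b, i⟩ ≤ ∑ i, v' ⟨b, i⟩ :=
      single_le_sum (f := fun i => v' ⟨b, i⟩) (fun _ _ => Nat.zero_le _) (mem_univ i)
    have := h4 b
    change v' ⟨b, i⟩ < e b + 1
    omega
  refine ⟨⟨fun x => ⟨v' x, h6 x⟩, h5, h4⟩, ?_⟩
  congr 1
  ext x
  rfl

end supp

/-- The families with an arrangement at `0`, over a ring. -/
theorem conc' {s : ℕ} {n e : Fin s → ℕ} (m : ℕ) (hm12 : m = 1 ∨ m = 2) {A : Type} [CommRing A]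
    [IsDomain A] [CharZero A] (l : (b : Fin s) → Fin (e b) → Fin (n b + 1) → A)
    (hl : ∀ b, ∀ σ : Fin (n b + 1) → Fin (e b), Function.Injective σ →
      IsUnit (Matrix.of fun i j => l b (σ i) j).det) (μ : A) (hμ : (m : A) ^ 2 * μ = 1)
    (f : MvPolynomial (Var n) (Polynomial A)) (hf : MH n (fun b => m * e b) f)
    (hf0 : MvPolynomial.map (Polynomial.evalRingHom 0) f = arr l ^ m)
    (ε : ℝ) (hε : 0 < ε) :
    ∃ (p₀ : ℕ) (a : A), a ≠ 0 ∧ ∀ (p : ℕ) (k : Type) [Field k] [CharP k p] (φ : A →+* k),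
      p.Prime → p₀ ≤ p → φ a ≠ 0 → ∀ e' : ℕ, e' * m + 1 = p →
      ∀ Z : Finset k, (∀ t ∈ Z, t ^ p = t ∧ (hm e' p (mwexp n e) (MvPolynomial.map
        (Polynomial.mapRingHom φ) f)).det.eval t = 0) → (Z.card : ℝ) ≤ ε * p := by
  classical
  by_cases he : ∀ b, n b + 1 ≤ e b
  · obtain ⟨M, c, c', hMr, hV⟩ := charts' l hl he
    obtain ⟨g, hg⟩ : ∃ g : MvPolynomial (Var n) (Polynomial A),
        f = MvPolynomial.map Polynomial.C (arr l) ^ m + MvPolynomial.C Polynomial.X * g := by
      refine ⟨∑ v ∈ f.support, MvPolynomial.monomial v (MvPolynomial.coeff v f).divX, ?_⟩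
      rw [← map_pow, ← hf0]
      ext1 v
      rw [MvPolynomial.coeff_add, MvPolynomial.coeff_map, MvPolynomial.coeff_map,
        MvPolynomial.coeff_C_mul, MvPolynomial.coeff_sum]
      have h1 : ∑ u ∈ f.support, MvPolynomial.coeff v
          (MvPolynomial.monomial u (MvPolynomial.coeff u f).divX) =
            (MvPolynomial.coeff v f).divX := by
        rw [Finset.sum_eq_single v]
        · rw [MvPolynomial.coeff_monomial, if_pos rfl]
        · intro u _ hu
          rw [MvPolynomial.coeff_monomial, if_neg hu]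
        · intro hv
          rw [MvPolynomial.notMem_support_iff.mp hv]
          simp
      rw [h1, Polynomial.coe_evalRingHom, ← Polynomial.coeff_zero_eq_eval_zero]
      refine (Polynomial.X_mul_divX_add (MvPolynomial.coeff v f)).symm.trans ?_
      rw [_root_.add_comm]
    obtain ⟨hu1, hu2, -⟩ := wt_u0 n e he
    obtain ⟨p₀, a, ha, h⟩ := soft2' (omb n) m (u0 n e) hm12 hu1 hu2
      (mwexp n e) (mwexp_inj n e) (fun j x => (j.2.1 x : 1 ≤ (j.1 x : ℕ))) μ hμ
      c c' (fun j => (hMr j).2.1) M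
      (fun j => (hMr j).1) (arr l) g (fun j => (hMr j).2.2.1) (fun j => (hMr j).2.2.2)
      hV ε hε (f.support.sup fun v => (MvPolynomial.coeff v f).natDegree)
      (fun v => by
        rw [← hg]
        by_cases hv : v ∈ f.support
        · exact le_sup (f := fun v => (MvPolynomial.coeff v f).natDegree) hv
        · rw [MvPolynomial.notMem_support_iff.mp hv, Polynomial.natDegree_zero]
          exact Nat.zero_le _)
    rw [← hg] at h
    refine ⟨p₀, a, ha, ?_⟩
    intro p k _ _ φ hpp hp0 hφ e' he Z hZ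
    exact h p k φ hpp hp0 hφ e' he (fun l v hv hv' => supp_cond' hpp.ne_zero he _
      (fun u hu => hf u (MvPolynomial.support_map_subset _ _ hu)) l v hv hv') Z hZ
  · push Not at he
    obtain ⟨b, hb⟩ := he
    have hempty : IsEmpty (MExps n e) := by
      refine ⟨fun w => ?_⟩
      have h1 : ∑ i : Fin (n b + 1), 1 ≤ ∑ i, (w.1 ⟨b, i⟩ : ℕ) :=
        sum_le_sum fun i _ => w.2.1 ⟨b, i⟩
      rw [w.2.2 b, sum_const, card_univ, Fintype.card_fin, smul_eq_mul, mul_one] at h1
      omega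
    refine ⟨0, 1, one_ne_zero, ?_⟩
    intro p k _ _ φ hpp hp0 hφ e' he Z hZ
    have h1 : Z = ∅ := by
      rw [Finset.eq_empty_iff_forall_notMem]
      intro t ht
      have h2 := (hZ t ht).2
      rw [Matrix.det_isEmpty, Polynomial.eval_one] at h2
      exact one_ne_zero h2
    rw [h1, Finset.card_empty, Nat.cast_zero]
    positivity

end Pool.Agent.H887.CI
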