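import Pool.Agent.H887.CI.Norm

/-!
# The constant term of a period, for a general scaling
-/

set_option autoImplicit false

open Finset

namespace Pool.Agent.H887.CI

open Pool.Agent.Q267.AP Pool.Agent.Q267.ST Pool.Agent.Q102.AP

section

variable {ι A : Type} [Fintype ι] [DecidableEq ι] [CommRing A]

lemma toP_scal (ω : ι → ℕ) (N : ℕ) (γ : A) (r : MvPolynomial ι A) :
    toP (scal ω γ N (MvPolynomial.map Polynomial.C r)) =
      ∑ u ∈ r.support, Polynomial.X ^ wt ω u * (al ι (r.coeff u) * xP (zexp u)) := by
  have h1 : MvPolynomial.map Polynomial.C r =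
      ∑ u ∈ r.support, MvPolynomial.monomial u (Polynomial.C (r.coeff u)) := by
    conv_lhs => rw [r.as_sum]
    rw [map_sum]
    exact sum_congr rfl fun u _ => by rw [MvPolynomial.map_monomial]
  rw [h1, map_sum, map_sum]
  exact sum_congr rfl fun u _ => sc_monomial ω γ N u _

lemma zexp_inj {u v : ι →₀ ℕ} (h : zexp u = zexp v) : u = v := by
  ext i
  have h1 : ((u i : ℕ) : ℤ) = ((v i : ℕ) : ℤ) := congrFun h i
  exact_mod_cast h1

/-- **The constant term of a period.** -/
theorem const' (ω : ι → ℕ) (c' : A) (M : Matrix ι ι A) (u₀ : ι →₀ ℕ) (h0 : one ι ≤ u₀)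
    (h1 : wt ω (u₀ - one ι) = 0) (ψ : PowerSeries (LP ι A)) (w : ι →₀ ℕ)
    (hψ : PowerSeries.constantCoeff ψ = 1) :
    PowerSeries.constantCoeff (per ω M
      (cst (PowerSeries.C c') * xm (-(zexp u₀)) * ψ) w) =
      c' * MvPolynomial.coeff (u₀ - one ι) (lin M (MvPolynomial.monomial (w - one ι) 1)) := by
  classical
  have e1 : ∀ (u : ι → ℤ) (F : PowerSeries (LP ι A)), PowerSeries.constantCoeff (cx u F) =
      (PowerSeries.constantCoeff F).coeff u := by
    intro u F
    unfold cx
    rw [← PowerSeries.coeff_zero_eq_constantCoeff_apply, PowerSeries.coeff_mk,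
      ← PowerSeries.coeff_zero_eq_constantCoeff_apply]
  unfold per
  rw [e1, map_mul, map_mul, map_mul, hψ, mul_one]
  have e2 : PowerSeries.constantCoeff (cst (PowerSeries.C c') : PowerSeries (LP ι A)) =
      AddMonoidAlgebra.single 0 c' := by
    unfold cst
    simp
  have e3 : ∀ ν : ι → ℤ, PowerSeries.constantCoeff (xm ν : PowerSeries (LP ι A)) =
      AddMonoidAlgebra.single ν 1 := by
    intro ν
    unfold xm
    simp
  rw [e2, e3, AddMonoidAlgebra.single_mul_single, zero_add, mul_one]
  set r := lin M (MvPolynomial.monomial (w - one ι) (1 : A)) with hr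
  have e4 : PowerSeries.constantCoeff (chart ω (0 : A) 0 M
      (MvPolynomial.monomial (w - one ι) 1)) =
      ∑ u ∈ r.support, if wt ω u = 0 then AddMonoidAlgebra.single (zexp u) (r.coeff u) else 0 := by
    have e5 : (MvPolynomial.monomial (w - one ι) (1 : Polynomial A)) =
        MvPolynomial.map Polynomial.C (MvPolynomial.monomial (w - one ι) (1 : A)) := by
      rw [MvPolynomial.map_monomial, Polynomial.C_1]
    rw [e5, ← coe_chP, ← PowerSeries.coeff_zero_eq_constantCoeff_apply, Polynomial.coeff_coe]
    unfold chP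
    rw [RingHom.comp_apply, RingHom.comp_apply, lin_map, ← hr, toP_scal,
      Polynomial.finsetSum_coeff]
    refine sum_congr rfl fun u _ => ?_
    split_ifs with h
    · rw [h, pow_zero, one_mul]
      unfold al xP
      rw [← Polynomial.C_mul, Polynomial.coeff_C_zero]
      change AddMonoidAlgebra.single 0 (r.coeff u) * _ = _
      rw [AddMonoidAlgebra.single_mul_single, zero_add, mul_one]
    · obtain ⟨t, ht⟩ := Nat.exists_eq_succ_of_ne_zero h
      rw [ht, pow_succ', mul_assoc, Polynomial.coeff_X_mul_zero]
  rw [e4, Finset.sum_mul]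
  have e6 : ∀ u ∈ r.support, ((if wt ω u = 0 then
      (AddMonoidAlgebra.single (zexp u) (r.coeff u) : LP ι A) else 0) *
      AddMonoidAlgebra.single (-(zexp u₀)) c').coeff (fun _ => -1) =
      if u = u₀ - one ι then c' * r.coeff u else 0 := by
    intro u _
    by_cases hu : u = u₀ - one ι
    · rw [if_pos hu, hu, if_pos h1, AddMonoidAlgebra.single_mul_single,
        AddMonoidAlgebra.coeff_single]
      have e7 : zexp (u₀ - one ι) + -(zexp u₀) = fun _ => (-1 : ℤ) := by
        funext i
        have := h0 i
        change ((u₀ - one ι) i : ℤ) + -((u₀ i : ℕ) : ℤ) = -1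
        have e8 : (one ι) i = 1 := rfl
        rw [Finsupp.tsub_apply, e8]
        rw [e8] at this
        omega
      rw [e7, Finsupp.single_eq_same, mul_comm]
    · rw [if_neg hu]
      split_ifs with h
      · rw [AddMonoidAlgebra.single_mul_single, AddMonoidAlgebra.coeff_single,
          Finsupp.single_apply, if_neg]
        intro h2
        apply hu
        ext i
        have h3 := congrFun h2 i
        have := h0 i
        change ((u i : ℕ) : ℤ) + -((u₀ i : ℕ) : ℤ) = -1 at h3
        have e8 : (one ι) i = 1 := rfl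
        rw [Finsupp.tsub_apply, e8]
        rw [e8] at this
        omega
      · rw [zero_mul]
        rfl
  have e9 : ∀ (s : Finset (ι →₀ ℕ)) (F : (ι →₀ ℕ) → LP ι A) (v : ι → ℤ),
      (∑ u ∈ s, F u).coeff v = ∑ u ∈ s, (F u).coeff v := by
    intro s F v
    induction s using Finset.induction_on with
    | empty => rfl
    | insert a s ha ih => rw [sum_insert ha, sum_insert ha, ← ih]; rfl
  rw [e9, sum_congr rfl e6, Finset.sum_ite_eq']
  split_ifs with h
  · rfl
  · rw [MvPolynomial.notMem_support_iff.1 h, mul_zero]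

end

end Pool.Agent.H887.CI
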