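import Pool.Agent.H887.CI.Conc

/-!
# Counting
-/

set_option autoImplicit false

open Finset

namespace Pool.Agent.H887.CI

/-- Schwartz-Zippel. -/
lemma sz {σ : Type} [Fintype σ] {k : Type} [Field k] [DecidableEq k] (P : MvPolynomial σ k)
    (hP : P ≠ 0) (S : Finset k) (hS : S.Nonempty) (Z : Finset (σ → k))
    (hZ : ∀ t ∈ Z, (∀ i, t i ∈ S) ∧ MvPolynomial.eval t P = 0) :
    Z.card * S.card ≤ P.totalDegree * S.card ^ Fintype.card σ := by
  classical
  set N := Fintype.card σ with hN
  set E : σ ≃ Fin N := Fintype.equivFin σ with hE
  set Q := MvPolynomial.rename E P with hQ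
  have hQ0 : Q ≠ 0 := by
    intro h
    apply hP
    exact MvPolynomial.rename_injective E E.injective (by rw [← hQ, h, map_zero])
  have hdeg : Q.totalDegree ≤ P.totalDegree := MvPolynomial.totalDegree_rename_le _ _
  have h1 := MvPolynomial.schwartz_zippel_totalDegree hQ0 S
  set W := (Fintype.piFinset fun _ : Fin N => S).filter fun f => MvPolynomial.eval f Q = 0 with hW
  have h2 : Z.card ≤ W.card := by
    rw [← card_image_of_injective (s := Z) (f := fun (t : σ → k) (i : Fin N) => t (E.symm i))
      (fun a b h => by
        funext i
        have := congrFun h (E i)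
        simpa using this)]
    refine card_le_card fun f hf => ?_
    obtain ⟨t, ht, rfl⟩ := mem_image.mp hf
    rw [hW, mem_filter, Fintype.mem_piFinset]
    refine ⟨fun i => (hZ t ht).1 _, ?_⟩
    rw [hQ, MvPolynomial.eval_rename]
    have h3 : (fun i : Fin N => t (E.symm i)) ∘ E = t := by
      funext i
      simp
    rw [h3]
    exact (hZ t ht).2
  have hS0 : (0 : ℚ≥0) < S.card := by exact_mod_cast hS.card_pos
  rw [div_le_div_iff₀ (by positivity) hS0] at h1
  have h3 : W.card * S.card ≤ Q.totalDegree * S.card ^ N := by
    exact_mod_cast h1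
  exact ((Nat.mul_le_mul_right _ h2).trans h3).trans (Nat.mul_le_mul_right _ hdeg)

/-- Counting along the lines through a point. -/
lemma count_lines {κ : Type} [Field κ] [Fintype κ] [DecidableEq κ] {σ : Type} [Fintype σ]
    [DecidableEq σ] (c : σ → κ) (B E : Finset (σ → κ)) (x : ℝ) (hx : 0 ≤ x)
    (H : ∀ T : σ → κ, T ∉ E →
      (((univ : Finset κ).filter fun s => (fun i => c i + s * T i) ∈ B).card : ℝ) ≤ x) :
    ((Fintype.card κ : ℝ) - 1) * B.card ≤
      x * (Fintype.card κ : ℝ) ^ Fintype.card σ + Fintype.card κ * E.card := by
  classical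
  have h1 : ∀ s ∈ (univ : Finset κ).erase 0,
      ((univ : Finset (σ → κ)).filter fun T => (fun i => c i + s * T i) ∈ B).card = B.card := by
    intro s hs
    have hs0 : s ≠ 0 := (mem_erase.mp hs).1
    refine card_bij (fun T _ => fun i => c i + s * T i) (fun T hT => (mem_filter.mp hT).2) ?_ ?_
    · intro T _ T' _ h
      funext i
      have := congrFun h i
      exact mul_left_cancel₀ hs0 (add_left_cancel this)
    · intro t ht
      refine ⟨fun i => (t i - c i) / s, ?_, ?_⟩
      · rw [mem_filter]
        refine ⟨mem_univ _, ?_⟩
        have : (fun i => c i + s * ((t i - c i) / s)) = t := by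
          funext i
          field_simp
          ring
        rw [this]
        exact ht
      · funext i
        field_simp
        ring
  have h2 : (((univ : Finset κ).erase 0).card : ℝ) = (Fintype.card κ : ℝ) - 1 := by
    rw [card_erase_of_mem (mem_univ _), card_univ, Nat.cast_sub (Fintype.card_pos), Nat.cast_one]
  calc ((Fintype.card κ : ℝ) - 1) * B.card
      = ∑ s ∈ (univ : Finset κ).erase 0,
        (((univ : Finset (σ → κ)).filter fun T => (fun i => c i + s * T i) ∈ B).card : ℝ) := by
        rw [sum_congr rfl fun s hs => by rw [h1 s hs], sum_const, nsmul_eq_mul, h2]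
    _ = ∑ T : σ → κ,
        ((((univ : Finset κ).erase 0).filter fun s => (fun i => c i + s * T i) ∈ B).card : ℝ) := by
        have := Finset.sum_card_bipartiteAbove_eq_sum_card_bipartiteBelow
          (s := (univ : Finset κ).erase 0) (t := (univ : Finset (σ → κ)))
          (fun s T => (fun i => c i + s * T i) ∈ B)
        unfold bipartiteAbove bipartiteBelow at this
        exact_mod_cast this
    _ ≤ ∑ T : σ → κ, (x + if T ∈ E then (Fintype.card κ : ℝ) else 0) := by
        refine sum_le_sum fun T _ => ?_
        by_cases hT : T ∈ E
        · rw [if_pos hT]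
          have h3 : (((univ : Finset κ).erase 0).filter
              fun s => (fun i => c i + s * T i) ∈ B).card ≤ Fintype.card κ := card_le_univ _
          have h4 : ((((univ : Finset κ).erase 0).filter
              fun s => (fun i => c i + s * T i) ∈ B).card : ℝ) ≤ Fintype.card κ := by
            exact_mod_cast h3
          linarith
        · rw [if_neg hT, add_zero]
          refine le_trans ?_ (H T hT)
          exact_mod_cast card_le_card (filter_subset_filter _ (erase_subset _ _))
    _ = _ := by
        rw [sum_add_distrib, sum_const, nsmul_eq_mul, ← sum_filter, sum_const, nsmul_eq_mul,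
          card_univ, Fintype.card_fun]
        have h3 : ((univ : Finset (σ → κ)).filter fun T => T ∈ E) = E := by
          ext T
          simp
        rw [h3]
        push_cast
        ring

end Pool.Agent.H887.CI
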