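import Pool.Agent.H887.CI.Elim

/-!
# The discriminant of a family of complete intersections and their double covers
-/

set_option autoImplicit false

open Finset MvPolynomial

namespace Pool.Agent.H887.CI

lemma exists_minor {Ω : Type} [Field Ω] {P κ : Type} [Fintype P] [DecidableEq P] [Fintype κ]
    (B : Matrix P κ Ω) (h : LinearIndependent Ω fun i => B i) :
    ∃ c : P → κ, (B.submatrix id c).det ≠ 0 := by
  classical
  refine Pool.Agent.Q177.ST.minor B fun v => ?_
  have h1 : B.rank = Fintype.card P := LinearIndependent.rank_matrix h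
  have h2 : LinearMap.range B.mulVecLin = ⊤ := by
    apply Submodule.eq_top_of_finrank_eq
    rw [Module.finrank_fintype_fun_eq_card]
    exact h1
  have h3 : (Pi.single v 1 : P → Ω) ∈ LinearMap.range B.mulVecLin := by
    rw [h2]
    exact Submodule.mem_top
  exact h3

lemma li_of_minor {Ω : Type} [Field Ω] {P κ : Type} [Fintype P] [DecidableEq P]
    (B : Matrix P κ Ω) (c : P → κ) (h : (B.submatrix id c).det ≠ 0) :
    LinearIndependent Ω fun i => B i := by
  have h1 : LinearIndependent Ω (fun i => (B.submatrix id c) i) :=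
    Matrix.linearIndependent_rows_iff_isUnit.mpr ((Matrix.isUnit_iff_isUnit_det _).mpr
      (Ne.isUnit h))
  exact LinearIndependent.of_comp (LinearMap.funLeft Ω Ω c) h1

variable {s : ℕ} {n : Fin s → ℕ}

section hom

variable {A : Type} [CommRing A]

/-- Homogeneous of multi-degree `D - G`. -/
def WD (G D : Fin s → ℕ) (q : MvPolynomial (Var n) A) : Prop :=
  ∀ u, coeff u q ≠ 0 → md n u + G = D

lemma WD.mul {G D G' D' : Fin s → ℕ} {q q' : MvPolynomial (Var n) A} (h : WD G D q)
    (h' : WD G' D' q') : WD (G + G') (D + D') (q * q') := by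
  classical
  intro u hu
  rw [coeff_mul] at hu
  obtain ⟨⟨a, b⟩, hab, hne⟩ := Finset.exists_ne_zero_of_sum_ne_zero hu
  rw [HasAntidiagonal.mem_antidiagonal] at hab
  have h1 := h a (left_ne_zero_of_mul hne)
  have h2 := h' b (right_ne_zero_of_mul hne)
  rw [← hab, md_add, ← h1, ← h2]
  abel

lemma WD.sum {G D : Fin s → ℕ} {κ : Type} (S : Finset κ) (q : κ → MvPolynomial (Var n) A)
    (h : ∀ i ∈ S, WD G D (q i)) : WD G D (∑ i ∈ S, q i) := by
  intro u hu
  rw [coeff_sum] at hu
  obtain ⟨i, hi, hne⟩ := Finset.exists_ne_zero_of_sum_ne_zero hu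
  exact h i hi u hne

lemma WD.one : WD (0 : Fin s → ℕ) 0 (1 : MvPolynomial (Var n) A) := by
  classical
  intro u hu
  rw [coeff_one] at hu
  split_ifs at hu with h
  · rw [← h]
    unfold md
    rw [map_zero, add_zero]
  · exact absurd rfl hu

lemma WD.prod {κ : Type} (S : Finset κ) (G D : κ → Fin s → ℕ)
    (q : κ → MvPolynomial (Var n) A) (h : ∀ i ∈ S, WD (G i) (D i) (q i)) :
    WD (∑ i ∈ S, G i) (∑ i ∈ S, D i) (∏ i ∈ S, q i) := by
  classical
  induction S using Finset.induction_on with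
  | empty =>
    rw [sum_empty, sum_empty, prod_empty]
    exact WD.one
  | insert a S ha ih =>
    rw [sum_insert ha, sum_insert ha, prod_insert ha]
    exact (h a (mem_insert_self _ _)).mul (ih fun i hi => h i (mem_insert_of_mem hi))

lemma WD.smul {G D : Fin s → ℕ} {q : MvPolynomial (Var n) A} (h : WD G D q) (z : ℤˣ) :
    WD G D (z • q) := by
  intro u hu
  apply h u
  intro h0
  apply hu
  rcases Int.units_eq_one_or z with h1 | h1
  · rw [h1, one_smul, h0]
  · rw [h1, Units.neg_smul, one_smul, coeff_neg, h0, neg_zero]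

lemma WD.pderiv {D : Fin s → ℕ} {f : MvPolynomial (Var n) A} (h : MH n D f) (x : Var n) :
    WD (gr n x) D (MvPolynomial.pderiv x f) := by
  classical
  intro w hw
  have h1 : MvPolynomial.pderiv x f = ∑ u ∈ f.support,
      monomial (u - Finsupp.single x 1) (coeff u f * (u x : A)) := by
    conv_lhs => rw [f.as_sum]
    rw [map_sum]
    exact sum_congr rfl fun u _ => pderiv_monomial
  rw [h1, coeff_sum] at hw
  obtain ⟨u, hu, hne⟩ := Finset.exists_ne_zero_of_sum_ne_zero hw
  rw [coeff_monomial] at hne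
  split_ifs at hne with h2
  · have h3 : u x ≠ 0 := by
      intro h0
      apply hne
      rw [h0, Nat.cast_zero, mul_zero]
    have h4 : u = w + Finsupp.single x 1 := by
      rw [← h2, tsub_add_cancel_of_le]
      rw [Finsupp.single_le_iff]
      omega
    have h5 : md n u = D := h.wh (mem_support_iff.1 hu)
    rw [← h5, h4, md_add]
    congr 1
    unfold md
    rw [Finsupp.weight_apply, Finsupp.sum_single_index (by rw [zero_smul]), one_smul]
  · exact absurd rfl hne

lemma WD.det {P : Type} [Fintype P] [DecidableEq P] (G D : P → Fin s → ℕ)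
    (B : Matrix P P (MvPolynomial (Var n) A)) (h : ∀ i j, WD (G j) (D i) (B i j)) :
    WD (∑ j, G j) (∑ i, D i) B.det := by
  rw [Matrix.det_apply]
  refine WD.sum _ _ fun π _ => WD.smul ?_ _
  have h1 := WD.prod (univ : Finset P) G (fun i => D (π i)) (fun i => B (π i) i)
    fun i _ => h (π i) i
  have h2 : ∑ i, D (π i) = ∑ i, D i := Equiv.sum_comp π D
  rw [h2] at h1
  exact h1

lemma WD.mh {G D : Fin s → ℕ} {q : MvPolynomial (Var n) A} (h : WD G D q) :
    MH n (D - G) q := by
  intro u hu b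
  have h1 := congrFun (h u (mem_support_iff.mp hu)) b
  rw [Pi.add_apply, md_apply] at h1
  rw [Pi.sub_apply]
  omega

end hom

/-- Smoothness of `y_j ^ (m_j) = f_j` over the field itself. -/
def SmoothIn {k : Type} [Field k] {r : ℕ} (m : Fin r → ℕ) (f : Fin r → MvPolynomial (Var n) k) :
    Prop :=
  ∀ ξ : Var n → k, (∀ b, ∃ i, ξ ⟨b, i⟩ ≠ 0) →
    (∀ j, m j = 1 → eval ξ (f j) = 0) →
    LinearIndependent k fun (j : {j // eval ξ (f j) = 0}) (x : Var n) =>
      eval ξ (pderiv x (f j))

/-- Smoothness of `y_j ^ (m_j) = f_j`. -/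
def Smooth {k : Type} [Field k] {r : ℕ} (m : Fin r → ℕ) (f : Fin r → MvPolynomial (Var n) k) :
    Prop :=
  ∀ ξ : Var n → AlgebraicClosure k, (∀ b, ∃ i, ξ ⟨b, i⟩ ≠ 0) →
    (∀ j, m j = 1 → aeval ξ (f j) = 0) →
    LinearIndependent (AlgebraicClosure k) fun (j : {j // aeval ξ (f j) = 0}) (x : Var n) =>
      aeval ξ (pderiv x (f j))

section disc

variable {A : Type} [CommRing A] {r : ℕ}

/-- The equations of the locus where the `f_j`, `j ∈ P`, vanish and have linearly dependent
derivatives. -/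
noncomputable def sys (f : Fin r → MvPolynomial (Var n) A) (P : Finset (Fin r)) :
    P ⊕ (P → Var n) → MvPolynomial (Var n) A
  | Sum.inl j => f j
  | Sum.inr c => (Matrix.of fun (j : P) (i : P) => pderiv (c i) (f j)).det

/-- The degrees. -/
noncomputable def sdeg (n : Fin s → ℕ) (D : Fin r → Fin s → ℕ) (P : Finset (Fin r)) :
    P ⊕ (P → Var n) → Fin s → ℕ
  | Sum.inl j => D j
  | Sum.inr c => (∑ j : P, D j) - ∑ i : P, gr n (c i)

lemma sys_mh (D : Fin r → Fin s → ℕ) (f : Fin r → MvPolynomial (Var n) A)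
    (hf : ∀ j, MH n (D j) (f j)) (P : Finset (Fin r)) (x : P ⊕ (P → Var n)) :
    MH n (sdeg n D P x) (sys f P x) := by
  cases x with
  | inl j => exact hf j
  | inr c =>
    exact (WD.det (fun i => gr n (c i)) (fun j : P => D j) _
      fun j i => WD.pderiv (hf j) (c i)).mh

lemma sys_map {B : Type} [CommRing B] (φ : A →+* B) (f : Fin r → MvPolynomial (Var n) A)
    (P : Finset (Fin r)) (x : P ⊕ (P → Var n)) :
    map φ (sys f P x) = sys (fun j => map φ (f j)) P x := by
  cases x with
  | inl j => rfl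
  | inr c =>
    change map φ (Matrix.of fun (j : P) (i : P) => pderiv (c i) (f j)).det =
      (Matrix.of fun (j : P) (i : P) => pderiv (c i) (map φ (f j))).det
    rw [RingHom.map_det]
    congr 1
    ext1 j i
    simp only [RingHom.mapMatrix_apply, Matrix.map_apply, Matrix.of_apply]
    rw [pderiv_map]

/-- **The discriminant.** -/
theorem discr' {Ω : Type} [Field Ω] [IsAlgClosed Ω] (j : A →+* Ω) (m : Fin r → ℕ)
    (D : Fin r → Fin s → ℕ) (f : Fin r → MvPolynomial (Var n) A) (hf : ∀ j, MH n (D j) (f j))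
    (hsm : SmoothIn m fun i => map j (f i)) :
    ∃ Δ : A, j Δ ≠ 0 ∧ ∀ (k : Type) [Field k] (ρ : A →+* k), ρ Δ ≠ 0 →
      Smooth m fun i => map ρ (f i) := by
  classical
  have h1 : ∀ P : Finset (Fin r), (∀ i, m i = 1 → i ∈ P) → ∃ Δ : A, j Δ ≠ 0 ∧
      ∀ (k : Type) [Field k] (ρ : A →+* k), ρ Δ ≠ 0 →
      ∀ ξ : Var n → AlgebraicClosure k, (∀ x, aeval ξ (map ρ (sys f P x)) = 0) →
        ∃ b, ∀ i, ξ ⟨b, i⟩ = 0 := by
    intro P hP
    refine elim j (sys f P) (sdeg n D P) (sys_mh D f hf P) ?_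
    intro ξ hξ
    by_contra hcon
    push Not at hcon
    have h2 : ∀ i ∈ P, eval ξ (map j (f i)) = 0 := fun i hi => hξ (Sum.inl ⟨i, hi⟩)
    have h3 := hsm ξ hcon fun i hi => h2 i (hP i hi)
    have h4 : LinearIndependent Ω fun i : P => (fun x : Var n =>
        eval ξ (pderiv x (map j (f i)))) :=
      h3.comp (fun i : P => (⟨i.1, h2 i.1 i.2⟩ : {i // eval ξ (map j (f i)) = 0}))
        fun a b hab => Subtype.ext (congrArg (fun z => (z.1 : Fin r)) hab)
    obtain ⟨c, hc⟩ := exists_minor (Matrix.of fun (i : P) (x : Var n) =>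
      eval ξ (pderiv x (map j (f i)))) h4
    apply hc
    have h5 := hξ (Sum.inr c)
    rw [sys_map] at h5
    change eval ξ (Matrix.of fun (i : P) (i' : P) => pderiv (c i') (map j (f i))).det = 0 at h5
    rw [RingHom.map_det] at h5
    exact h5
  choose Δ hΔ1 hΔ2 using h1
  refine ⟨∏ P : Finset (Fin r), if h : ∀ i, m i = 1 → i ∈ P then Δ P h else 1, ?_, ?_⟩
  · rw [map_prod]
    refine prod_ne_zero_iff.mpr fun P _ => ?_
    split_ifs with h
    · exact hΔ1 P h
    · rw [map_one]
      exact one_ne_zero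
  · intro k _ ρ hρ ξ hξ hξ1
    set P : Finset (Fin r) := univ.filter fun i => aeval ξ (map ρ (f i)) = 0 with hP
    have hP1 : ∀ i, m i = 1 → i ∈ P := fun i hi => by
      rw [hP, mem_filter]
      exact ⟨mem_univ _, hξ1 i hi⟩
    rw [map_prod] at hρ
    have hρP := prod_ne_zero_iff.mp hρ P (mem_univ _)
    rw [dif_pos hP1] at hρP
    have h2 : ∃ x, aeval ξ (map ρ (sys f P x)) ≠ 0 := by
      by_contra hcon
      push Not at hcon
      obtain ⟨b, hb⟩ := hΔ2 P hP1 k ρ hρP ξ hcon
      obtain ⟨i, hi⟩ := hξ b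
      exact hi (hb i)
    obtain ⟨x, hx⟩ := h2
    cases x with
    | inl i => exact absurd (mem_filter.mp i.2).2 hx
    | inr c =>
      rw [sys_map] at hx
      change aeval ξ (Matrix.of fun (i : P) (i' : P) => pderiv (c i') (map ρ (f i))).det ≠ 0 at hx
      have h3 : ((Matrix.of fun (i : P) (x : Var n) =>
          aeval ξ (pderiv x (map ρ (f i)))).submatrix id c).det ≠ 0 := by
        intro h4
        apply hx
        rw [AlgHom.map_det]
        exact h4
      have h4 := li_of_minor _ c h3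
      refine h4.comp (fun i : {i // aeval ξ (map ρ (f i)) = 0} => (⟨i.1, by
        rw [hP, mem_filter]
        exact ⟨mem_univ _, i.2⟩⟩ : P)) ?_
      intro a b hab
      exact Subtype.ext (congrArg (fun z : P => (z.1 : Fin r)) hab)

end disc

end Pool.Agent.H887.CI
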