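import Pool.Agent.H887.CI.Conc
import Pool.Graph.R_pool_sql_team_seeded_3997aac3.Q177.ST.Disc

/-!
# Elimination in products of projective spaces
-/

set_option autoImplicit false

open Finset MvPolynomial

namespace Pool.Agent.H887.CI

variable {s : ℕ} {n : Fin s → ℕ}

/-- The multi-degree. -/
noncomputable def md (n : Fin s → ℕ) (u : Var n →₀ ℕ) : Fin s → ℕ := Finsupp.weight (gr n) u

lemma md_apply (u : Var n →₀ ℕ) (b : Fin s) : md n u b = ∑ i, u ⟨b, i⟩ := weight_gr n u b

lemma md_add (u v : Var n →₀ ℕ) : md n (u + v) = md n u + md n v := map_add _ _ _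

section ring

variable {A : Type} [CommRing A] {κ : Type}

lemma coeff_hom' (δ : Fin s → ℕ) (g : MvPolynomial (Var n) A)
    (hg : MH n δ g) (u v : Var n →₀ ℕ)
    (h : coeff v (monomial u 1 * g) ≠ 0) : u ≤ v ∧ md n u + δ = md n v := by
  rw [coeff_monomial_mul'] at h
  split_ifs at h with h1
  · refine ⟨h1, ?_⟩
    rw [one_mul] at h
    have h2 : md n (v - u) = δ := hg.wh h
    have h3 : v = u + (v - u) := (add_tsub_cancel_of_le h1).symm
    conv_rhs => rw [h3]
    rw [md_add, h2]
  · exact absurd rfl h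

/-- a box of exponents -/
noncomputable def bx (n : Fin s → ℕ) (B : ℕ) : Finset (Var n →₀ ℕ) :=
  Finset.Iic (Finsupp.equivFunOnFinite.symm fun _ => B)

lemma mem_bx {B : ℕ} {u : Var n →₀ ℕ} : u ∈ bx n B ↔ ∀ x, u x ≤ B := by
  unfold bx
  rw [Finset.mem_Iic, Finsupp.le_def]
  rfl

open Classical in
/-- the exponents of multi-degree `N` -/
noncomputable def rws (n N : Fin s → ℕ) : Finset (Var n →₀ ℕ) :=
  (bx n (∑ b, N b)).filter fun v => md n v = N

lemma mem_rws {N : Fin s → ℕ} {v : Var n →₀ ℕ} : v ∈ rws n N ↔ md n v = N := by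
  unfold rws
  rw [mem_filter, mem_bx]
  refine ⟨fun h => h.2, fun h => ⟨fun x => ?_, h⟩⟩
  obtain ⟨b, i⟩ := x
  have h1 : v ⟨b, i⟩ ≤ ∑ i, v ⟨b, i⟩ :=
    Finset.single_le_sum (f := fun i => v ⟨b, i⟩) (fun _ _ => Nat.zero_le _) (mem_univ i)
  rw [← md_apply, h] at h1
  exact h1.trans (Finset.single_le_sum (f := N) (fun _ _ => Nat.zero_le _) (mem_univ b))

open Classical in
/-- the matrix -/
noncomputable def BM (N : Fin s → ℕ) (δ : κ → Fin s → ℕ) (g : κ → MvPolynomial (Var n) A) :
    Matrix (rws n N) (κ × bx n (∑ b, N b)) A :=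
  Matrix.of fun v p => if md n p.2.1 + δ p.1 = N then
    coeff v.1 (monomial p.2.1 1 * g p.1) else 0

lemma BM_map {A' : Type} [CommRing A'] (ψ : A →+* A') (N : Fin s → ℕ) (δ : κ → Fin s → ℕ)
    (g : κ → MvPolynomial (Var n) A) :
    (BM N δ g).map ψ = BM N δ fun k => map ψ (g k) := by
  ext v p
  rw [Matrix.map_apply]
  unfold BM
  rw [Matrix.of_apply, Matrix.of_apply]
  split_ifs with h
  · rw [← coeff_map, map_mul, map_monomial, map_one]
  · exact map_zero _

end ring

section field

variable {K : Type} [Field K] {κ : Type} [Fintype κ]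

/-- the forward direction -/
theorem forward' (N : Fin s → ℕ) (δ : κ → Fin s → ℕ) (F : κ → MvPolynomial (Var n) K)
    (hF : ∀ k, MH n (δ k) (F k))
    (hI : ∀ v, md n v = N → monomial v 1 ∈ Ideal.span (Set.range F))
    (v : rws n N) : ∃ c : κ × bx n (∑ b, N b) → K,
      (BM N δ F).mulVec c = Pi.single v 1 := by
  classical
  obtain ⟨g, hg⟩ := (Ideal.mem_span_range_iff_exists_fun).1 (hI v.1 (mem_rws.1 v.2))
  refine ⟨fun p => coeff p.2.1 (g p.1), ?_⟩
  funext v'
  have hv' : md n v'.1 = N := mem_rws.1 v'.2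
  have hB : ∀ (j : κ) (u : bx n (∑ b, N b)), BM N δ F v' (j, u) =
      coeff v'.1 (monomial u.1 1 * F j) := by
    intro j u
    unfold BM
    rw [Matrix.of_apply]
    split_ifs with h
    · rfl
    · by_contra hne
      have h1 := coeff_hom' (δ j) (F j) (hF j) u.1 v'.1 (fun h0 => hne h0.symm)
      rw [hv'] at h1
      exact h h1.2
  have h1 : ∀ j, coeff v'.1 (g j * F j) =
      ∑ u : bx n (∑ b, N b), coeff v'.1 (monomial u.1 1 * F j) * coeff u.1 (g j) := by
    intro j
    have h2 : g j * F j = ∑ u ∈ (g j).support, C (coeff u (g j)) * (monomial u 1 * F j) := by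
      conv_lhs => rw [(g j).as_sum]
      rw [Finset.sum_mul]
      refine sum_congr rfl fun u _ => ?_
      rw [← mul_assoc, C_mul_monomial, mul_one]
    rw [h2, coeff_sum]
    simp only [coeff_C_mul]
    have h3 : ∑ u : bx n (∑ b, N b), coeff v'.1 (monomial u.1 1 * F j) * coeff u.1 (g j) =
        ∑ u ∈ bx n (∑ b, N b), coeff v'.1 (monomial u 1 * F j) * coeff u (g j) :=
      Finset.sum_coe_sort (bx n (∑ b, N b)) fun u =>
        coeff v'.1 (monomial u 1 * F j) * coeff u (g j)
    rw [h3]
    have h4 : ∑ u ∈ (g j).support, coeff u (g j) * coeff v'.1 (monomial u 1 * F j) =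
        ∑ u ∈ (g j).support ∪ bx n (∑ b, N b),
          coeff v'.1 (monomial u 1 * F j) * coeff u (g j) := by
      rw [← Finset.sum_subset (Finset.subset_union_left)]
      · exact sum_congr rfl fun u _ => mul_comm _ _
      · intro u _ hu
        rw [notMem_support_iff.1 hu, mul_zero]
    rw [h4]
    symm
    apply Finset.sum_subset Finset.subset_union_right
    intro u _ hu
    by_contra hne
    apply hu
    have h5 := (coeff_hom' (δ j) (F j) (hF j) u v'.1 (left_ne_zero_of_mul hne)).1
    have h6 : v'.1 ∈ bx n (∑ b, N b) := (mem_filter.1 v'.2).1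
    rw [mem_bx] at h6 ⊢
    exact fun i => (h5 i).trans (h6 i)
  change ∑ p, BM N δ F v' p * coeff p.2.1 (g p.1) = _
  rw [Fintype.sum_prod_type]
  simp only [hB]
  rw [← Finset.sum_congr rfl fun j _ => h1 j, ← coeff_sum, hg, coeff_monomial, Pi.single_apply]
  by_cases h : v' = v
  · rw [if_pos h, if_pos (congrArg Subtype.val h).symm]
  · rw [if_neg h, if_neg (fun h' => h (Subtype.ext h'.symm))]

/-- the converse -/
theorem converse' (N : Fin s → ℕ) (δ : κ → Fin s → ℕ) (F : κ → MvPolynomial (Var n) K)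
    (hF : ∀ k, MH n (δ k) (F k)) (σ : rws n N → κ × bx n (∑ b, N b))
    (hdet : ((BM N δ F).submatrix id σ).det ≠ 0) (v : rws n N) :
    monomial v.1 1 ∈ Ideal.span (Set.range F) := by
  classical
  set M := (BM N δ F).submatrix id σ with hM
  have hu : IsUnit M.det := Ne.isUnit hdet
  set c : rws n N → K := M⁻¹.mulVec (Pi.single v 1) with hc
  have hMc : M.mulVec c = Pi.single v 1 := by
    rw [hc, Matrix.mulVec_mulVec, Matrix.mul_nonsing_inv _ hu, Matrix.one_mulVec]
  have key : monomial v.1 1 = ∑ i, C (c i) * (if md n (σ i).2.1 + δ (σ i).1 = N then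
      monomial (σ i).2.1 1 * F (σ i).1 else 0) := by
    ext w
    rw [coeff_sum, coeff_monomial]
    simp only [coeff_C_mul]
    by_cases hw : md n w = N
    · have hw' : w ∈ rws n N := mem_rws.2 hw
      have h1 := congrFun hMc ⟨w, hw'⟩
      rw [Pi.single_apply] at h1
      have h2 : (if v.1 = w then (1 : K) else 0) =
          if (⟨w, hw'⟩ : rws n N) = v then 1 else 0 := by
        by_cases h : v.1 = w
        · rw [if_pos h, if_pos (Subtype.ext h.symm)]
        · rw [if_neg h, if_neg (fun h' => h (congrArg Subtype.val h').symm)]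
      rw [h2, ← h1]
      change ∑ i, M ⟨w, hw'⟩ i * c i = _
      refine sum_congr rfl fun i _ => ?_
      rw [mul_comm]
      congr 1
      rw [hM, Matrix.submatrix_apply]
      unfold BM
      rw [Matrix.of_apply]
      split_ifs with h
      · rfl
      · rw [coeff_zero]
    · have h1 : v.1 ≠ w := by
        rintro rfl
        exact hw (mem_rws.1 v.2)
      rw [if_neg h1]
      symm
      apply Finset.sum_eq_zero
      intro i _
      split_ifs with h
      · by_contra hne
        have h2 := coeff_hom' _ _ (hF _) _ _ (right_ne_zero_of_mul hne)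
        exact hw (h2.2.symm.trans h)
      · rw [coeff_zero, mul_zero]
  rw [key]
  apply Ideal.sum_mem
  intro i _
  apply Ideal.mul_mem_left
  split_ifs with h
  · exact Ideal.mul_mem_left _ _ (Ideal.subset_span ⟨_, rfl⟩)
  · exact Ideal.zero_mem _

end field

/-- **Elimination.** -/
theorem elim {A : Type} [CommRing A] {Ω : Type} [Field Ω] [IsAlgClosed Ω] (j : A →+* Ω)
    {κ : Type} [Fintype κ] (g : κ → MvPolynomial (Var n) A) (δ : κ → Fin s → ℕ)
    (hg : ∀ k, MH n (δ k) (g k))
    (h0 : ∀ ξ : Var n → Ω, (∀ k, eval ξ (map j (g k)) = 0) → ∃ b, ∀ i, ξ ⟨b, i⟩ = 0) :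
    ∃ Δ : A, j Δ ≠ 0 ∧ ∀ (k : Type) [Field k] (ρ : A →+* k), ρ Δ ≠ 0 →
      ∀ ξ : Var n → AlgebraicClosure k, (∀ i, aeval ξ (map ρ (g i)) = 0) →
        ∃ b, ∀ i, ξ ⟨b, i⟩ = 0 := by
  classical
  set F : κ → MvPolynomial (Var n) Ω := fun k => map j (g k) with hF
  have hFh : ∀ k, MH n (δ k) (F k) := fun k u hu => hg k u (support_map_subset _ _ hu)
  set I := Ideal.span (Set.range F) with hI
  -- powers of products of variables
  have hrad : ∀ c : (b : Fin s) → Fin (n b + 1),
      (∏ b, X ⟨b, c b⟩ : MvPolynomial (Var n) Ω) ∈ I.radical := by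
    intro c
    rw [← vanishingIdeal_zeroLocus_eq_radical (K := Ω)]
    intro ξ hξ
    rw [mem_zeroLocus_iff] at hξ
    obtain ⟨b, hb⟩ := h0 ξ fun k => by
      have := hξ _ (Ideal.subset_span ⟨k, rfl⟩)
      rw [aeval_eq_eval] at this
      exact this
    rw [map_prod]
    refine prod_eq_zero (mem_univ b) ?_
    rw [aeval_X]
    exact hb _
  choose r hr using hrad
  set R := ∑ c, r c + 1 with hR
  have hRI : ∀ c : (b : Fin s) → Fin (n b + 1),
      (∏ b, X ⟨b, c b⟩ : MvPolynomial (Var n) Ω) ^ R ∈ I := by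
    intro c
    have h1 : r c ≤ R := (Finset.single_le_sum (f := r) (fun _ _ => Nat.zero_le _)
      (mem_univ c)).trans (Nat.le_succ _)
    rw [← Nat.add_sub_cancel' h1, pow_add]
    exact Ideal.mul_mem_right _ _ (hr c)
  set N : Fin s → ℕ := fun b => (n b + 1) * R with hN
  have hmon : ∀ v, md n v = N → monomial v 1 ∈ I := by
    intro v hv
    have h1 : ∀ b, ∃ i, R ≤ v ⟨b, i⟩ := by
      intro b
      by_contra hcon
      push Not at hcon
      have h1 : ∑ i, v ⟨b, i⟩ < ∑ _i : Fin (n b + 1), R :=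
        Finset.sum_lt_sum_of_nonempty ⟨0, mem_univ _⟩ fun i _ => hcon i
      rw [← md_apply, hv, sum_const, card_univ, Fintype.card_fin, smul_eq_mul] at h1
      exact absurd h1 (lt_irrefl _)
    choose c hc using h1
    have h2 : (∏ b, X ⟨b, c b⟩ : MvPolynomial (Var n) Ω) ^ R ∣ monomial v 1 := by
      have h3 : (∏ b, X ⟨b, c b⟩ : MvPolynomial (Var n) Ω) ^ R =
          monomial (∑ b, Finsupp.single ⟨b, c b⟩ R) 1 := by
        rw [← prod_pow]
        simp only [X_pow_eq_monomial]
        rw [← monomial_sum_one]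
      rw [h3]
      refine ⟨monomial (v - ∑ b, Finsupp.single ⟨b, c b⟩ R) 1, ?_⟩
      rw [monomial_mul, mul_one, add_tsub_cancel_of_le]
      intro x
      rw [Finsupp.finsetSum_apply]
      obtain ⟨b, i⟩ := x
      rw [Finset.sum_eq_single b]
      · by_cases hi : c b = i
        · subst hi
          rw [Finsupp.single_eq_same]
          exact hc b
        · rw [Finsupp.single_eq_of_ne]
          · exact Nat.zero_le _
          · intro h
            apply hi
            simpa using h.symm
      · intro b' _ hb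
        rw [Finsupp.single_eq_of_ne]
        intro h
        exact hb (congrArg Sigma.fst h).symm
      · intro h
        exact absurd (mem_univ _) h
    exact Ideal.mem_of_dvd _ h2 (hRI c)
  obtain ⟨σ, hσ⟩ := Pool.Agent.Q177.ST.minor (BM N δ F) (forward' N δ F hFh hmon)
  have hdet : ∀ {K : Type} [Field K] (ρ : A →+* K),
      ρ ((BM N δ g).submatrix id σ).det =
        ((BM N δ fun k => map ρ (g k)).submatrix id σ).det := by
    intro K _ ρ
    rw [RingHom.map_det, RingHom.mapMatrix_apply, ← BM_map]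
    rfl
  refine ⟨((BM N δ g).submatrix id σ).det, ?_, ?_⟩
  · rw [hdet j]
    exact hσ
  · intro k _ ρ hne ξ hξ
    rw [hdet ρ] at hne
    have hFh' : ∀ i, MH n (δ i) (map ρ (g i)) := fun i u hu =>
      hg i u (support_map_subset _ _ hu)
    by_contra hcon
    push Not at hcon
    choose c hc using hcon
    have hv : md n (∑ b, Finsupp.single ⟨b, c b⟩ (N b)) = N := by
      funext b
      rw [md_apply]
      simp only [Finsupp.finsetSum_apply]
      rw [Finset.sum_eq_single (c b)]
      · rw [Finset.sum_eq_single b]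
        · rw [Finsupp.single_eq_same]
        · intro b' _ hb
          rw [Finsupp.single_eq_of_ne]
          intro h
          exact hb (congrArg Sigma.fst h).symm
        · intro h
          exact absurd (mem_univ _) h
      · intro i _ hi
        rw [Finset.sum_eq_zero]
        intro b' _
        rw [Finsupp.single_eq_of_ne]
        intro h
        by_cases hb : b' = b
        · subst hb
          apply hi
          simpa using h
        · exact hb (congrArg Sigma.fst h).symm
      · intro h
        exact absurd (mem_univ _) h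
    have h1 := converse' N δ _ hFh' σ hne ⟨_, mem_rws.2 hv⟩
    have h2 : ∀ p ∈ Ideal.span (Set.range fun i => map ρ (g i)), aeval ξ p = 0 := by
      intro p hp
      have h3 : Ideal.span (Set.range fun i => map ρ (g i)) ≤
          RingHom.ker (aeval ξ : MvPolynomial (Var n) k →ₐ[k] AlgebraicClosure k) := by
        rw [Ideal.span_le]
        rintro _ ⟨jj, rfl⟩
        exact hξ jj
      exact h3 hp
    have h3 := h2 _ h1
    simp only at h3
    have h4 : (monomial (∑ b, Finsupp.single ⟨b, c b⟩ (N b)) 1 : MvPolynomial (Var n) k) =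
        ∏ b, X ⟨b, c b⟩ ^ N b := by
      simp only [X_pow_eq_monomial]
      rw [← monomial_sum_one]
    rw [h4, map_prod] at h3
    obtain ⟨b, _, hb⟩ := Finset.prod_eq_zero_iff.mp h3
    rw [map_pow, aeval_X] at hb
    exact hc b (eq_zero_of_pow_eq_zero hb)

end Pool.Agent.H887.CI
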