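import Pool.Agent.H887.CI.Disc

/-!
# The generic complete intersection is smooth
-/

set_option autoImplicit false

open Finset TensorProduct

namespace Pool.Agent.H887.CI

section der

variable {B S T : Type} [CommRing B] [CommRing S] [CommRing T] [Algebra B S] [Algebra B T]
  [Algebra S T] [IsScalarTower B S T]

/-- Extension of derivations. -/
lemma exists_der [Algebra.FormallyEtale S T] (D₀ : Derivation B S T) :
    ∃ D : Derivation B T T, ∀ x : S, D (algebraMap S T x) = D₀ x := by
  refine ⟨((D₀.liftKaehlerDifferential.liftBaseChange T).comp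
    (KaehlerDifferential.tensorKaehlerEquivOfFormallyEtale B S T).symm.toLinearMap).compDer
      (KaehlerDifferential.D B T), fun x => ?_⟩
  change (D₀.liftKaehlerDifferential.liftBaseChange T)
    ((KaehlerDifferential.tensorKaehlerEquivOfFormallyEtale B S T).symm
      (KaehlerDifferential.D B T (algebraMap S T x))) = D₀ x
  rw [KaehlerDifferential.tensorKaehlerEquivOfFormallyEtale_symm_D_algebraMap,
    LinearMap.liftBaseChange_one_tmul, Derivation.liftKaehlerDifferential_comp_D]

variable {ι : Type} [Fintype ι] [DecidableEq ι]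

omit [Fintype ι] in
lemma der_prod (D : Derivation B T T) (ξ : ι → T) (u : ι →₀ ℕ) (s : Finset ι) :
    D (∏ x ∈ s, ξ x ^ u x) =
      ∑ x ∈ s, (∏ y ∈ s.erase x, ξ y ^ u y) * ((u x : T) * ξ x ^ (u x - 1)) * D (ξ x) := by
  induction s using Finset.induction_on with
  | empty =>
    rw [prod_empty, sum_empty]
    exact D.map_one_eq_zero
  | insert a s ha ih =>
    rw [prod_insert ha, D.leibniz, ih, sum_insert ha, erase_insert ha, D.leibniz_pow]
    simp only [smul_eq_mul, nsmul_eq_mul]
    rw [add_comm, mul_sum]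
    congr 1
    · ring
    · refine sum_congr rfl fun x hx => ?_
      have hxa : a ≠ x := fun h => ha (h ▸ hx)
      have h1 : (insert a s).erase x = insert a (s.erase x) := by
        rw [erase_insert_of_ne hxa]
      have h2 : a ∉ s.erase x := fun h => ha (mem_of_mem_erase h)
      rw [h1, prod_insert h2]
      ring

/-- The chain rule. -/
lemma chain (D : Derivation B T T) (ξ : ι → T) (f : MvPolynomial ι S) :
    D (MvPolynomial.eval₂ (algebraMap S T) ξ f) =
      ∑ u ∈ f.support, D (algebraMap S T (MvPolynomial.coeff u f)) * ∏ x, ξ x ^ u x +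
      ∑ x, MvPolynomial.eval₂ (algebraMap S T) ξ (MvPolynomial.pderiv x f) * D (ξ x) := by
  have h1 : ∀ x, MvPolynomial.eval₂ (algebraMap S T) ξ (MvPolynomial.pderiv x f) =
      ∑ u ∈ f.support, algebraMap S T (MvPolynomial.coeff u f) *
        ((∏ y ∈ univ.erase x, ξ y ^ u y) * ((u x : T) * ξ x ^ (u x - 1))) := by
    intro x
    have h2 : MvPolynomial.pderiv x f = ∑ u ∈ f.support,
        MvPolynomial.monomial (u - Finsupp.single x 1) (MvPolynomial.coeff u f * (u x : S)) := by
      conv_lhs => rw [f.as_sum]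
      rw [map_sum]
      exact sum_congr rfl fun u _ => MvPolynomial.pderiv_monomial
    rw [h2, ← MvPolynomial.coe_eval₂Hom, map_sum]
    refine sum_congr rfl fun u _ => ?_
    rw [MvPolynomial.coe_eval₂Hom, MvPolynomial.eval₂_monomial, map_mul, map_natCast,
      Finsupp.prod_fintype _ _ (fun i => by rw [pow_zero]),
      ← mul_prod_erase univ _ (mem_univ x)]
    have h3 : ∏ y ∈ univ.erase x, ξ y ^ (u - Finsupp.single x 1 : ι →₀ ℕ) y =
        ∏ y ∈ univ.erase x, ξ y ^ u y := by
      refine prod_congr rfl fun y hy => ?_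
      rw [Finsupp.tsub_apply, Finsupp.single_eq_of_ne (ne_of_mem_erase hy), Nat.sub_zero]
    rw [h3, Finsupp.tsub_apply, Finsupp.single_eq_same]
    ring
  rw [MvPolynomial.eval₂_eq', map_sum]
  simp only [h1]
  have h4 : ∑ x, (∑ u ∈ f.support, algebraMap S T (MvPolynomial.coeff u f) *
        ((∏ y ∈ univ.erase x, ξ y ^ u y) * ((u x : T) * ξ x ^ (u x - 1)))) * D (ξ x) =
      ∑ u ∈ f.support, algebraMap S T (MvPolynomial.coeff u f) * D (∏ x, ξ x ^ u x) := by
    simp only [sum_mul]
    rw [sum_comm]
    refine sum_congr rfl fun u _ => ?_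
    rw [der_prod, mul_sum]
    refine sum_congr rfl fun x _ => ?_
    ring
  rw [h4, ← sum_add_distrib]
  refine sum_congr rfl fun u _ => ?_
  rw [D.leibniz, smul_eq_mul, smul_eq_mul]
  ring

end der

end Pool.Agent.H887.CI
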