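import Pool.Agent.H887.CI.Place
import Pool.Agent.H887.CI.Disc

/-!
# Good ordinary reduction of the members of a family at a place
-/

set_option autoImplicit false

open Finset

namespace Pool.Agent.H887.CI

open Pool.Agent.Q267.AP Pool.Agent.Q267.ST
open NumberField IsDedekindDomain
open Pool.Agent.Q267.OD (charP_res finite_mem)
open Pool.Agent.Q267.DC (hm hm_map det_hm_map card_res)

section defs

variable {s r : ℕ} {n : Fin s → ℕ}

/-- The Hasse-Witt matrix of `y_j ^ (m_j) = f_j`, `j ∈ P`. -/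
noncomputable def hw {R : Type} [CommRing R] (m : Fin r → ℕ) (d : Fin r → Fin s → ℕ) (q : ℕ)
    (P : Finset (Fin r)) (g : Fin r → MvPolynomial (Var n) R) :
    Matrix (MExps n fun b => ∑ j ∈ P, d j b) (MExps n fun b => ∑ j ∈ P, d j b) R :=
  Matrix.of fun w w' => MvPolynomial.coeff
    (Finsupp.equivFunOnFinite.symm fun x => q * (w.1 x : ℕ))
    (MvPolynomial.monomial (Finsupp.equivFunOnFinite.symm fun x => (w'.1 x : ℕ)) 1 *
      ∏ j ∈ P, g j ^ ((q - 1) / m j))

/-- Smooth with invertible Hasse-Witt matrices. -/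
def OrdIn {k : Type} [Field k] (m : Fin r → ℕ) (d : Fin r → Fin s → ℕ) (q : ℕ)
    (g : Fin r → MvPolynomial (Var n) k) : Prop :=
  Smooth m g ∧ ∀ P : Finset (Fin r), (hw m d q P g).det ≠ 0

/-- One polynomial for all equations. -/
noncomputable def prodP {R : Type} [CommRing R] (m : Fin r → ℕ) (P : Finset (Fin r))
    (g : Fin r → MvPolynomial (Var n) R) : MvPolynomial (Var n) R := ∏ j ∈ P, g j ^ (2 / m j)

lemma hw_eq {R : Type} [CommRing R] (m : Fin r → ℕ) (hm : ∀ j, m j = 1 ∨ m j = 2)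
    (d : Fin r → Fin s → ℕ) (q e' : ℕ) (he : e' * 2 + 1 = q)
    (P : Finset (Fin r)) (g : Fin r → MvPolynomial (Var n) R) :
    hw m d q P g = Pool.Agent.Q267.DC.hm e' q (mwexp n fun b => ∑ j ∈ P, d j b)
      (prodP m P g) := by
  have h1 : (∏ j ∈ P, g j ^ ((q - 1) / m j)) = prodP m P g ^ e' := by
    unfold prodP
    rw [← prod_pow]
    refine prod_congr rfl fun j _ => ?_
    rw [← pow_mul]
    congr 1
    rw [← he]
    rcases hm j with h | h
    · rw [h]; omega
    · rw [h]; omega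
  ext w w'
  unfold hw Pool.Agent.Q267.DC.hm
  rw [Matrix.of_apply, Matrix.of_apply, h1]
  congr 1
  ext x
  rw [Finsupp.smul_apply, smul_eq_mul]
  rfl

lemma prodP_map {R S : Type} [CommRing R] [CommRing S] (φ : R →+* S) (m : Fin r → ℕ)
    (P : Finset (Fin r)) (g : Fin r → MvPolynomial (Var n) R) :
    MvPolynomial.map φ (prodP m P g) = prodP m P fun j => MvPolynomial.map φ (g j) := by
  unfold prodP
  rw [map_prod]
  exact prod_congr rfl fun j _ => map_pow _ _ _

lemma prodP_mh {R : Type} [CommRing R] (m : Fin r → ℕ) (hm : ∀ j, m j = 1 ∨ m j = 2)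
    (d : Fin r → Fin s → ℕ) (P : Finset (Fin r)) (g : Fin r → MvPolynomial (Var n) R)
    (hg : ∀ j, MH n (fun b => m j * d j b) (g j)) :
    MH n (fun b => 2 * ∑ j ∈ P, d j b) (prodP m P g) := by
  apply MH.of_wh
  have h1 := MvPolynomial.IsWeightedHomogeneous.prod (w := gr n) P
    (fun j => g j ^ (2 / m j)) (fun j => (2 / m j) • (fun b => m j * d j b))
    (fun j _ => (hg j).wh.pow _)
  have h2 : ∑ j ∈ P, (2 / m j) • (fun b => m j * d j b) = fun b => 2 * ∑ j ∈ P, d j b := by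
    funext b
    rw [Finset.sum_apply, mul_sum]
    refine sum_congr rfl fun j _ => ?_
    rw [Pi.smul_apply, smul_eq_mul, ← mul_assoc]
    rcases hm j with h | h
    · rw [h, Nat.div_one, mul_one]
    · rw [h, Nat.div_self (by norm_num), one_mul]
  rw [h2] at h1
  exact h1

/-- An enumeration. -/
noncomputable def eP (d : Fin r → Fin s → ℕ) (P : Finset (Fin r)) (b : Fin s) :
    ((j : P) × Fin (d j b)) ≃ Fin (∑ j ∈ P, d j b) :=
  Fintype.equivFinOfCardEq (by
    rw [Fintype.card_sigma, ← Finset.sum_coe_sort P fun j => d j b]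
    simp)

/-- The linear forms of the product. -/
noncomputable def lP {A : Type} (d : Fin r → Fin s → ℕ) (P : Finset (Fin r))
    (l : (j : Fin r) → (b : Fin s) → Fin (d j b) → Fin (n b + 1) → A) (b : Fin s)
    (c : Fin (∑ j ∈ P, d j b)) : Fin (n b + 1) → A :=
  l ((eP d P b).symm c).1.1 b ((eP d P b).symm c).2

lemma arr_lP {A : Type} [CommRing A] (d : Fin r → Fin s → ℕ) (P : Finset (Fin r))
    (l : (j : Fin r) → (b : Fin s) → Fin (d j b) → Fin (n b + 1) → A) :
    arr (lP d P l) = ∏ j ∈ P, arr (l j) := by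
  have h1 : ∀ b : Fin s, ∏ c, MvPolynomial.rename (@Sigma.mk (Fin s) (fun b => Fin (n b + 1)) b)
      (lf (lP d P l b c)) = ∏ j : P, ∏ c, MvPolynomial.rename
        (@Sigma.mk (Fin s) (fun b => Fin (n b + 1)) b) (lf (l j b c)) := by
    intro b
    rw [← Fintype.prod_sigma']
    exact (eP d P b).symm.prod_comp (fun x : (j : P) × Fin (d j b) => MvPolynomial.rename
        (@Sigma.mk (Fin s) (fun b => Fin (n b + 1)) b) (lf (l x.1 b x.2)))
  unfold arr
  rw [prod_congr rfl fun b _ => h1 b, prod_comm,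
    ← Finset.prod_coe_sort P fun j => ∏ b, ∏ c, MvPolynomial.rename
      (@Sigma.mk (Fin s) (fun b => Fin (n b + 1)) b) (lf (l j b c))]

lemma sub_inj {d : Fin r → Fin s → ℕ} {P : Finset (Fin r)} {b : Fin s}
    {x y : (j : P) × Fin (d j b)}
    (h : (⟨x.1.1, x.2⟩ : (j : Fin r) × Fin (d j b)) = ⟨y.1.1, y.2⟩) : x = y := by
  obtain ⟨⟨x1, hx⟩, x2⟩ := x
  obtain ⟨⟨y1, hy⟩, y2⟩ := y
  simp only [Sigma.mk.injEq] at h
  obtain ⟨h1, h2⟩ := h
  subst h1
  simp only [heq_eq_eq] at h2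
  subst h2
  rfl

lemma lP_pos {A : Type} [CommRing A] (d : Fin r → Fin s → ℕ) (P : Finset (Fin r))
    (l : (j : Fin r) → (b : Fin s) → Fin (d j b) → Fin (n b + 1) → A)
    (hl : ∀ b, ∀ ρ : Fin (n b + 1) → (j : Fin r) × Fin (d j b), Function.Injective ρ →
      (Matrix.of fun i i' => l (ρ i).1 b (ρ i).2 i').det ≠ 0) (b : Fin s)
    (ρ : Fin (n b + 1) → Fin (∑ j ∈ P, d j b)) (hρ : Function.Injective ρ) :
    (Matrix.of fun i j => lP d P l b (ρ i) j).det ≠ 0 := by
  refine hl b (fun i => ⟨((eP d P b).symm (ρ i)).1.1, ((eP d P b).symm (ρ i)).2⟩) ?_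
  intro i i' h
  exact hρ ((eP d P b).symm.injective (sub_inj h))

end defs

section few

variable {K : Type} [Field K] [NumberField K] {s r : ℕ} {n : Fin s → ℕ}
variable {σ : Type} [Fintype σ]

open Classical in
/-- **Few members are not ordinary modulo a place, arrangement at a finite point.** -/
theorem fewZ (m : Fin r → ℕ) (hm : ∀ j, m j = 1 ∨ m j = 2) (d : Fin r → Fin s → ℕ)
    (f : Fin r → MvPolynomial (Var n) (MvPolynomial σ (𝓞 K)))
    (hf : ∀ j, MH n (fun b => m j * d j b) (f j))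
    (l : (j : Fin r) → (b : Fin s) → Fin (d j b) → Fin (n b + 1) → AlgebraicClosure K)
    (hl : ∀ b, ∀ ρ : Fin (n b + 1) → (j : Fin r) × Fin (d j b), Function.Injective ρ →
      (Matrix.of fun i i' => l (ρ i).1 b (ρ i).2 i').det ≠ 0) (τ : σ → K)
    (harr : ∀ j, MvPolynomial.map ((algebraMap K (AlgebraicClosure K)).comp
      (MvPolynomial.eval₂Hom (algebraMap (𝓞 K) K) τ)) (f j) = arr (l j) ^ m j)
    (Δ : MvPolynomial σ (𝓞 K)) (hΔ : Δ ≠ 0)
    (hΔs : ∀ (k : Type) [Field k] (ρ : MvPolynomial σ (𝓞 K) →+* k), ρ Δ ≠ 0 →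
      Smooth m fun j => MvPolynomial.map ρ (f j)) (ε : ℝ) (hε : 0 < ε) :
    {v : HeightOneSpectrum (𝓞 K) | (Ideal.absNorm v.asIdeal).Prime ∧
      ¬ ∀ Z : Finset (σ → v.asIdeal.ResidueField), (∀ t ∈ Z,
        ¬ OrdIn m d (Ideal.absNorm v.asIdeal) fun j =>
        (MvPolynomial.map (MvPolynomial.eval₂Hom (algebraMap (𝓞 K) v.asIdeal.ResidueField) t)
          (f j))) →
        (Z.card : ℝ) ≤ ε * (Ideal.absNorm v.asIdeal : ℝ) ^ Fintype.card σ}.Finite := by
  set NP : ℕ := Fintype.card (Finset (Fin r)) with hNP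
  have hNP0 : (0 : ℝ) < NP := by exact_mod_cast Fintype.card_pos
  have hpl := fun P : Finset (Fin r) => place' 2 (Or.inr rfl) (prodP m P f)
    (prodP_mh m hm d P f hf) (lP d P l) (fun b ρ hρ => lP_pos d P l hl b ρ hρ) τ
    (by
      rw [prodP_map]
      unfold prodP
      rw [arr_lP, ← prod_pow]
      refine prod_congr rfl fun j _ => ?_
      simp only
      rw [harr j, ← pow_mul]
      congr 1
      rcases hm j with h | h
      · rw [h, Nat.div_one]
      · rw [h, Nat.div_self (by norm_num)]) (ε / (2 * NP)) (by positivity)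
  obtain ⟨α, hα⟩ : ∃ α, MvPolynomial.coeff α Δ ≠ 0 := MvPolynomial.ne_zero_iff.mp hΔ
  refine (((Set.finite_iUnion hpl).union (finite_mem (K := K) _ hα)).union
    (Pool.Agent.W352.ChAbs.finite_le (K := K) (max 2 ⌈2 * (Δ.totalDegree : ℝ) / ε⌉₊))).subset ?_
  rintro v ⟨hv, hv'⟩
  by_contra hno
  simp only [Set.mem_union, Set.mem_iUnion, Set.mem_ofPred_eq, not_or, not_exists, not_and,
    not_not, not_le] at hno
  obtain ⟨⟨hplace, hvα⟩, hp0⟩ := hno
  apply hv'
  set p := Ideal.absNorm v.asIdeal with hp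
  set κ := v.asIdeal.ResidueField with hκ
  intro Z hZ
  have hp0' : max 2 ⌈2 * (Δ.totalDegree : ℝ) / ε⌉₊ < p := by simpa using hp0
  have hp2 : 2 < p := (le_max_left _ _).trans_lt hp0'
  have hp3 : 2 * (Δ.totalDegree : ℝ) / ε ≤ p := by
    refine (Nat.le_ceil _).trans ?_
    have : ⌈2 * (Δ.totalDegree : ℝ) / ε⌉₊ < p := (le_max_right _ _).trans_lt hp0'
    exact_mod_cast this.le
  obtain ⟨e', he⟩ : ∃ e', e' * 2 + 1 = p := by
    have h3 := hv.eq_two_or_odd
    exact ⟨(p - 1) / 2, by omega⟩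
  have hcn := card_res v
  have hfinite : Finite κ :=
    Nat.finite_of_card_ne_zero (by rw [hcn]; exact hv.ne_zero)
  have : Fintype κ := Fintype.ofFinite _
  rw [Nat.card_eq_fintype_card] at hcn
  set ΔV := Z.filter fun t => MvPolynomial.eval t (MvPolynomial.map (algebraMap (𝓞 K) κ) Δ) = 0
    with hΔV
  set N := Fintype.card σ with hN
  have hΔ0 : MvPolynomial.map (algebraMap (𝓞 K) κ) Δ ≠ 0 := by
    intro h0
    have h1 : algebraMap (𝓞 K) κ (MvPolynomial.coeff α Δ) = 0 := by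
      rw [← MvPolynomial.coeff_map, h0, MvPolynomial.coeff_zero]
    rw [Ideal.algebraMap_residueField_eq_zero] at h1
    exact hvα h1
  have hc1 : (ΔV.card : ℝ) ≤ ε / 2 * (p : ℝ) ^ N := by
    have h1 := sz _ hΔ0 (univ : Finset κ) ⟨0, mem_univ _⟩ ΔV fun t ht =>
      ⟨fun _ => mem_univ _, (mem_filter.mp ht).2⟩
    rw [card_univ, hcn] at h1
    have h2 : (MvPolynomial.map (algebraMap (𝓞 K) κ) Δ).totalDegree ≤ Δ.totalDegree :=
      Finset.sup_mono (MvPolynomial.support_map_subset _ _)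
    have h3 : (ΔV.card : ℝ) * p ≤ Δ.totalDegree * (p : ℝ) ^ N := by
      exact_mod_cast h1.trans (Nat.mul_le_mul_right _ h2)
    rw [div_le_iff₀ hε] at hp3
    have hpos : (0 : ℝ) < p := by exact_mod_cast hv.pos
    have h4 : (Δ.totalDegree : ℝ) * (p : ℝ) ^ N ≤ (ε / 2 * (p : ℝ) ^ N) * p := by
      have h5 : (0 : ℝ) ≤ (p : ℝ) ^ N := by positivity
      nlinarith [mul_le_mul_of_nonneg_right hp3 h5]
    exact le_of_mul_le_mul_right (h3.trans h4) hpos
  have hsub : Z ⊆ ΔV ∪ (univ : Finset (Finset (Fin r))).biUnion fun P => Z.filter fun t =>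
      (hw m d p P fun j => (MvPolynomial.map (MvPolynomial.eval₂Hom
        (algebraMap (𝓞 K) κ) t) (f j))).det = 0 := by
    intro t ht
    rw [mem_union]
    by_contra hno
    rw [not_or, mem_biUnion] at hno
    obtain ⟨h1, h2⟩ := hno
    refine hZ t ht ⟨?_, fun P h3 => h2 ⟨P, mem_univ _, mem_filter.mpr ⟨ht, h3⟩⟩⟩
    refine hΔs κ _ fun h3 => h1 (mem_filter.mpr ⟨ht, ?_⟩)
    rw [MvPolynomial.eval_map]
    exact h3
  have hc2 : ∀ P : Finset (Fin r), ((Z.filter fun t =>
      (hw m d p P fun j => (MvPolynomial.map (MvPolynomial.eval₂Hom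
        (algebraMap (𝓞 K) κ) t) (f j))).det = 0).card : ℝ) ≤ ε / (2 * NP) * (p : ℝ) ^ N := by
    intro P
    refine hplace P hv e' he _ fun t ht => ?_
    have h1 := (mem_filter.mp ht).2
    rw [hw_eq m hm d p e' he, ← prodP_map] at h1
    exact h1
  have hcard : (Z.card : ℝ) ≤ ΔV.card + ∑ P : Finset (Fin r), ((Z.filter fun t =>
      (hw m d p P fun j => (MvPolynomial.map (MvPolynomial.eval₂Hom
        (algebraMap (𝓞 K) κ) t) (f j))).det = 0).card : ℝ) := by
    have h1 := (card_le_card hsub).trans (card_union_le _ _)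
    have h2 := h1.trans (Nat.add_le_add_left card_biUnion_le _)
    exact_mod_cast h2
  have h3 : ∑ P : Finset (Fin r), ((Z.filter fun t =>
      (hw m d p P fun j => (MvPolynomial.map (MvPolynomial.eval₂Hom
        (algebraMap (𝓞 K) κ) t) (f j))).det = 0).card : ℝ) ≤ ε / 2 * (p : ℝ) ^ N := by
    refine (sum_le_sum fun P _ => hc2 P).trans ?_
    rw [sum_const, card_univ, nsmul_eq_mul, ← hNP]
    refine le_of_eq ?_
    field_simp
  linarith

end few

end Pool.Agent.H887.CI
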