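import Pool.Agent.H887.CI.Good

/-!
# Families with an arrangement at infinity
-/

set_option autoImplicit false

open Finset

namespace Pool.Agent.H887.CI

open Pool.Agent.Q267.AP Pool.Agent.Q267.ST
open NumberField IsDedekindDomain
open Pool.Agent.Q267.OD (charP_res finite_mem)
open Pool.Agent.Q267.DC (hm hm_map det_hm_map card_res)

section hz

variable {σ : Type} [Fintype σ] {R : Type} [CommRing R]

/-- Homogenization. -/
noncomputable def hz (D : ℕ) (c : MvPolynomial σ R) : MvPolynomial (Option σ) R :=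
  ∑ α ∈ c.support, MvPolynomial.C (MvPolynomial.coeff α c) *
    (MvPolynomial.X none ^ (D - α.degree) * ∏ i, MvPolynomial.X (some i) ^ α i)

lemma hz_zero (D : ℕ) : hz D (0 : MvPolynomial σ R) = 0 := by
  unfold hz
  rw [MvPolynomial.support_zero, sum_empty]

/-- The point. -/
def opt {k : Type} (t₀ : k) (t : σ → k) : Option σ → k := fun o => o.elim t₀ t

lemma hz_eval {k : Type} [CommRing k] (ψ : R →+* k) (D : ℕ) (c : MvPolynomial σ R) (t₀ : k)
    (t : σ → k) : MvPolynomial.eval₂ ψ (opt t₀ t) (hz D c) =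
      ∑ α ∈ c.support, ψ (MvPolynomial.coeff α c) * (t₀ ^ (D - α.degree) * ∏ i, t i ^ α i) := by
  unfold hz
  rw [← MvPolynomial.coe_eval₂Hom, map_sum]
  refine sum_congr rfl fun α _ => ?_
  rw [map_mul, map_mul, map_pow, map_prod, MvPolynomial.eval₂Hom_C, MvPolynomial.eval₂Hom_X']
  simp only [map_pow, MvPolynomial.eval₂Hom_X']
  rfl

lemma hz_ne {k : Type} [Field k] (ψ : R →+* k) (D : ℕ) (c : MvPolynomial σ R)
    (hc : c.totalDegree ≤ D) (t₀ : k) (h0 : t₀ ≠ 0) (t : σ → k) :
    MvPolynomial.eval₂ ψ (opt t₀ fun i => t₀ * t i) (hz D c) =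
      t₀ ^ D * MvPolynomial.eval₂ ψ t c := by
  rw [hz_eval, MvPolynomial.eval₂_eq', mul_sum]
  refine sum_congr rfl fun α hα => ?_
  have h1 : α.degree ≤ D := (MvPolynomial.le_totalDegree hα).trans hc
  have h2 : α.degree = ∑ i, α i := by
    rw [Finsupp.degree_eq_sum]
  have h3 : ∏ i, (t₀ * t i) ^ α i = t₀ ^ α.degree * ∏ i, t i ^ α i := by
    rw [h2, ← prod_pow_eq_pow_sum, ← prod_mul_distrib]
    exact prod_congr rfl fun i _ => mul_pow _ _ _
  rw [h3]
  have h4 : t₀ ^ D = t₀ ^ (D - α.degree) * t₀ ^ α.degree := by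
    rw [← pow_add, Nat.sub_add_cancel h1]
  rw [h4]
  ring

lemma hz_inf {k : Type} [CommRing k] (ψ : R →+* k) (D : ℕ) (c : MvPolynomial σ R)
    (hc : c.totalDegree ≤ D) (t : σ → k) :
    MvPolynomial.eval₂ ψ (opt 0 t) (hz D c) =
      MvPolynomial.eval₂ ψ t (MvPolynomial.homogeneousComponent D c) := by
  rw [hz_eval, MvPolynomial.homogeneousComponent_apply, ← MvPolynomial.coe_eval₂Hom, map_sum,
    sum_filter]
  refine sum_congr rfl fun α hα => ?_
  have h1 : α.degree ≤ D := (MvPolynomial.le_totalDegree hα).trans hc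
  split_ifs with h
  · rw [h, Nat.sub_self, pow_zero, one_mul, MvPolynomial.coe_eval₂Hom,
      MvPolynomial.eval₂_monomial, Finsupp.prod_fintype _ _ (fun i => by rw [pow_zero])]
  · have h2 : D - α.degree ≠ 0 := by omega
    rw [zero_pow h2, zero_mul, mul_zero]

variable {ι : Type}

/-- Homogenization of the coefficients. -/
noncomputable def hzf (D : ℕ) (f : MvPolynomial ι (MvPolynomial σ R)) :
    MvPolynomial ι (MvPolynomial (Option σ) R) :=
  ∑ u ∈ f.support, MvPolynomial.monomial u (hz D (MvPolynomial.coeff u f))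

lemma coeff_hzf (D : ℕ) (f : MvPolynomial ι (MvPolynomial σ R)) (u : ι →₀ ℕ) :
    MvPolynomial.coeff u (hzf D f) = hz D (MvPolynomial.coeff u f) := by
  classical
  unfold hzf
  rw [MvPolynomial.coeff_sum]
  simp only [MvPolynomial.coeff_monomial]
  rw [Finset.sum_ite_eq']
  split_ifs with h
  · rfl
  · rw [MvPolynomial.notMem_support_iff.mp h, hz_zero]

end hz

section scale

variable {s r : ℕ} {n : Fin s → ℕ} {k : Type} [Field k]

lemma smooth_of_scale (m : Fin r → ℕ) (c : Fin r → k) (hc : ∀ j, c j ≠ 0)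
    (g : Fin r → MvPolynomial (Var n) k) (h : Smooth m fun j => MvPolynomial.C (c j) * g j) :
    Smooth m g := by
  intro ξ hξ h1
  have hz : ∀ j, MvPolynomial.aeval ξ (MvPolynomial.C (c j) * g j) =
      algebraMap k (AlgebraicClosure k) (c j) * MvPolynomial.aeval ξ (g j) := by
    intro j
    rw [map_mul, MvPolynomial.aeval_C]
  have hc' : ∀ j, algebraMap k (AlgebraicClosure k) (c j) ≠ 0 := fun j => by
    rw [Ne, map_eq_zero]
    exact hc j
  have h2 := h ξ hξ fun j hj => by rw [hz, h1 j hj, mul_zero]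
  have h3 : LinearIndependent (AlgebraicClosure k) fun (j : {j // MvPolynomial.aeval ξ (g j) = 0})
      (x : Var n) => MvPolynomial.aeval ξ (MvPolynomial.pderiv x
        (MvPolynomial.C (c j) * g j)) :=
    h2.comp (fun j : {j // MvPolynomial.aeval ξ (g j) = 0} =>
      (⟨j.1, by rw [hz, j.2, mul_zero]⟩ :
        {j // MvPolynomial.aeval ξ (MvPolynomial.C (c j) * g j) = 0}))
      fun a b hab => Subtype.ext (congrArg (fun z => (z.1 : Fin r)) hab)
  have h4 := h3.units_smul fun j => (Units.mk0 _ (hc' j.1))⁻¹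
  convert h4 using 1
  funext j x
  rw [Pi.smul_apply', Units.smul_def, Pi.smul_apply, smul_eq_mul, MvPolynomial.pderiv_C_mul,
    map_mul, MvPolynomial.aeval_C, Units.val_inv_eq_inv_val, Units.val_mk0,
    inv_mul_cancel_left₀ (hc' j.1)]

lemma hw_scale (m : Fin r → ℕ) (d : Fin r → Fin s → ℕ) (q : ℕ) (P : Finset (Fin r))
    (c : Fin r → k) (g : Fin r → MvPolynomial (Var n) k)
    (h : (hw m d q P g).det = 0) :
    (hw m d q P fun j => MvPolynomial.C (c j) * g j).det = 0 := by
  have h1 : (hw m d q P fun j => MvPolynomial.C (c j) * g j) =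
      (∏ j ∈ P, c j ^ ((q - 1) / m j)) • hw m d q P g := by
    ext w w'
    unfold hw
    rw [Matrix.smul_apply, Matrix.of_apply, Matrix.of_apply, smul_eq_mul]
    have h2 : ∏ j ∈ P, (MvPolynomial.C (c j) * g j) ^ ((q - 1) / m j) =
        MvPolynomial.C (∏ j ∈ P, c j ^ ((q - 1) / m j)) * ∏ j ∈ P, g j ^ ((q - 1) / m j) := by
      rw [map_prod, ← prod_mul_distrib]
      refine prod_congr rfl fun j _ => ?_
      rw [mul_pow, map_pow]
    rw [h2, mul_left_comm, MvPolynomial.coeff_C_mul]
  rw [h1, Matrix.det_smul, h, mul_zero]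

lemma ord_of_scale (m : Fin r → ℕ) (d : Fin r → Fin s → ℕ) (q : ℕ) (c : Fin r → k)
    (hc : ∀ j, c j ≠ 0) (g : Fin r → MvPolynomial (Var n) k)
    (h : OrdIn m d q fun j => MvPolynomial.C (c j) * g j) : OrdIn m d q g :=
  ⟨smooth_of_scale m c hc g h.1, fun P h0 => h.2 P (hw_scale m d q P c g h0)⟩

end scale

section few

variable {K : Type} [Field K] [NumberField K] {s r : ℕ} {n : Fin s → ℕ}
variable {σ : Type} [Fintype σ]

/-- Some member of the family over the projective space of the parameters is a product of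
arrangements. -/
def HasArr (m : Fin r → ℕ) {d : Fin r → Fin s → ℕ}
    (f : Fin r → MvPolynomial (Var n) (MvPolynomial σ (𝓞 K)))
    (l : (j : Fin r) → (b : Fin s) → Fin (d j b) → Fin (n b + 1) → AlgebraicClosure K) : Prop :=
  (∃ τ : σ → K, ∀ j, MvPolynomial.map ((algebraMap K (AlgebraicClosure K)).comp
      (MvPolynomial.eval₂Hom (algebraMap (𝓞 K) K) τ)) (f j) = arr (l j) ^ m j) ∨
  ∃ (D : Fin r → ℕ) (τ : σ → K), (∀ j u, (MvPolynomial.coeff u (f j)).totalDegree ≤ D j) ∧
    ∀ j u, algebraMap K (AlgebraicClosure K) (MvPolynomial.eval₂ (algebraMap (𝓞 K) K) τ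
      (MvPolynomial.homogeneousComponent (D j) (MvPolynomial.coeff u (f j)))) =
        MvPolynomial.coeff u (arr (l j) ^ m j)

open Classical in
/-- **Few members are not ordinary modulo a place.** -/
theorem fewZ' (m : Fin r → ℕ) (hm : ∀ j, m j = 1 ∨ m j = 2) (d : Fin r → Fin s → ℕ)
    (f : Fin r → MvPolynomial (Var n) (MvPolynomial σ (𝓞 K)))
    (hf : ∀ j, MH n (fun b => m j * d j b) (f j))
    (l : (j : Fin r) → (b : Fin s) → Fin (d j b) → Fin (n b + 1) → AlgebraicClosure K)
    (hl : ∀ b, ∀ ρ : Fin (n b + 1) → (j : Fin r) × Fin (d j b), Function.Injective ρ →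
      (Matrix.of fun i i' => l (ρ i).1 b (ρ i).2 i').det ≠ 0)
    (harr : HasArr m f l)
    (hsm : ∃ τ : σ → K, Smooth m fun j => MvPolynomial.map
      (MvPolynomial.eval₂Hom (algebraMap (𝓞 K) K) τ) (f j)) (ε : ℝ) (hε : 0 < ε) :
    {v : HeightOneSpectrum (𝓞 K) | (Ideal.absNorm v.asIdeal).Prime ∧
      ¬ ∀ Z : Finset (σ → v.asIdeal.ResidueField), (∀ t ∈ Z,
        ¬ OrdIn m d (Ideal.absNorm v.asIdeal) fun j =>
        (MvPolynomial.map (MvPolynomial.eval₂Hom (algebraMap (𝓞 K) v.asIdeal.ResidueField) t)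
          (f j))) →
        (Z.card : ℝ) ≤ ε * (Ideal.absNorm v.asIdeal : ℝ) ^ Fintype.card σ}.Finite := by
  obtain ⟨τ', hτ'⟩ := hsm
  have hconv : ∀ {B : Type} [CommRing B] (j : B →+* K) (g : Fin r → MvPolynomial (Var n) B),
      Smooth m (fun i => MvPolynomial.map j (g i)) →
      SmoothIn m fun i => MvPolynomial.map ((algebraMap K (AlgebraicClosure K)).comp j) (g i) := by
    intro B _ j g h ξ hξ h1
    have hev : ∀ Q : MvPolynomial (Var n) B, MvPolynomial.eval ξ (MvPolynomial.map
        ((algebraMap K (AlgebraicClosure K)).comp j) Q) =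
        MvPolynomial.aeval ξ (MvPolynomial.map j Q) := by
      intro Q
      rw [← MvPolynomial.map_map, MvPolynomial.eval_map, MvPolynomial.aeval_def]
    have h2 := h ξ hξ fun i hi => by rw [← hev]; exact h1 i hi
    have h3 : LinearIndependent (AlgebraicClosure K) fun (i : {i // MvPolynomial.eval ξ
        (MvPolynomial.map ((algebraMap K (AlgebraicClosure K)).comp j) (g i)) = 0})
      (x : Var n) => MvPolynomial.aeval ξ (MvPolynomial.pderiv x (MvPolynomial.map j (g i))) :=
      h2.comp (fun i : {i // MvPolynomial.eval ξ (MvPolynomial.map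
        ((algebraMap K (AlgebraicClosure K)).comp j) (g i)) = 0} =>
        (⟨i.1, by rw [← hev]; exact i.2⟩ :
          {i // MvPolynomial.aeval ξ (MvPolynomial.map j (g i)) = 0}))
        fun a b hab => Subtype.ext (congrArg (fun z => (z.1 : Fin r)) hab)
    convert h3 using 1
    funext i x
    rw [MvPolynomial.pderiv_map, MvPolynomial.pderiv_map, hev]
  rcases harr with ⟨τ, hτ⟩ | ⟨D, τ, hD, hτ⟩
  · obtain ⟨Δ, hΔ, hΔs⟩ := discr' ((algebraMap K (AlgebraicClosure K)).comp
      (MvPolynomial.eval₂Hom (algebraMap (𝓞 K) K) τ')) m _ f hf (hconv _ f hτ')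
    refine fewZ m hm d f hf l hl τ hτ Δ ?_ hΔs ε hε
    rintro rfl
    exact hΔ (map_zero _)
  · set fh : Fin r → MvPolynomial (Var n) (MvPolynomial (Option σ) (𝓞 K)) :=
      fun j => hzf (D j) (f j) with hfh
    have hfhm : ∀ j, MH n (fun b => m j * d j b) (fh j) := by
      intro j u hu
      apply hf j u
      rw [MvPolynomial.mem_support_iff] at hu ⊢
      intro h0
      apply hu
      rw [hfh]
      simp only
      rw [coeff_hzf, h0, hz_zero]
    have hspec : ∀ {k : Type} [Field k] (ψ : 𝓞 K →+* k) (t₀ : k) (_ : t₀ ≠ 0) (t : σ → k)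
        (j : Fin r), MvPolynomial.map (MvPolynomial.eval₂Hom ψ (opt t₀ fun i => t₀ * t i))
          (fh j) = MvPolynomial.C (t₀ ^ D j) * MvPolynomial.map (MvPolynomial.eval₂Hom ψ t)
            (f j) := by
      intro k _ ψ t₀ h0 t j
      ext1 u
      rw [MvPolynomial.coeff_C_mul, MvPolynomial.coeff_map, MvPolynomial.coeff_map, hfh]
      simp only
      rw [coeff_hzf]
      exact hz_ne ψ (D j) _ (hD j u) t₀ h0 t
    obtain ⟨Δ, hΔ, hΔs⟩ := discr' ((algebraMap K (AlgebraicClosure K)).comp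
      (MvPolynomial.eval₂Hom (algebraMap (𝓞 K) K) (opt 1 τ'))) m _ fh hfhm (hconv _ fh (by
        have h1 : (opt 1 τ' : Option σ → K) = opt 1 fun i => 1 * τ' i := by
          congr 1
          funext i
          rw [one_mul]
        have h2 : (fun j => MvPolynomial.map (MvPolynomial.eval₂Hom (algebraMap (𝓞 K) K)
            (opt 1 τ')) (fh j)) = fun j => MvPolynomial.map
              (MvPolynomial.eval₂Hom (algebraMap (𝓞 K) K) τ') (f j) := by
          funext j
          rw [h1, hspec _ 1 one_ne_zero, one_pow, MvPolynomial.C_1, one_mul]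
        rw [h2]
        exact hτ'))
    have hfin := fewZ m hm d fh hfhm l hl (opt 0 τ) (by
      intro j
      ext1 u
      rw [← hτ j u, MvPolynomial.coeff_map, RingHom.comp_apply, hfh]
      simp only
      rw [coeff_hzf, MvPolynomial.coe_eval₂Hom, hz_inf _ _ _ (hD j u)]) Δ (by
        rintro rfl
        exact hΔ (map_zero _)) hΔs (ε / 2) (by positivity)
    refine hfin.subset ?_
    rintro v ⟨hv, hv'⟩
    refine ⟨hv, fun hno => hv' ?_⟩
    set p := Ideal.absNorm v.asIdeal with hp
    set κ := v.asIdeal.ResidueField with hκ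
    intro Z hZ
    have hcn := card_res v
    have hfinite : Finite κ :=
      Nat.finite_of_card_ne_zero (by rw [hcn]; exact hv.ne_zero)
    have : Fintype κ := Fintype.ofFinite _
    rw [Nat.card_eq_fintype_card] at hcn
    set Zh : Finset (Option σ → κ) := (((univ : Finset κ).erase 0) ×ˢ Z).image
      fun x => opt x.1 fun i => x.1 * x.2 i with hZh
    have hZhc : Zh.card = (p - 1) * Z.card := by
      rw [hZh, card_image_of_injOn, card_product, card_erase_of_mem (mem_univ _), card_univ, hcn]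
      rintro ⟨a, t⟩ ha ⟨a', t'⟩ _ h
      have ha0 : a ≠ 0 := (mem_erase.mp (mem_product.mp (mem_coe.mp ha)).1).1
      have h1 : a = a' := congrFun h none
      subst h1
      refine Prod.ext rfl ?_
      funext i
      have h2 := congrFun h (some i)
      exact mul_left_cancel₀ ha0 h2
    have h1 := hno Zh (by
      intro y hy
      obtain ⟨⟨a, t⟩, hat, rfl⟩ := mem_image.mp hy
      have ha0 : a ≠ 0 := (mem_erase.mp (mem_product.mp hat).1).1
      have ht := hZ t (mem_product.mp hat).2
      intro h2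
      apply ht
      simp only [hspec _ a ha0] at h2
      exact ord_of_scale m d p (fun j => a ^ D j) (fun j => pow_ne_zero _ ha0) _ h2)
    rw [hZhc, Fintype.card_option, Nat.cast_mul, Nat.cast_sub hv.one_le, Nat.cast_one] at h1
    have hp2 : (2 : ℝ) ≤ p := by exact_mod_cast hv.two_le
    have h2 : ((p : ℝ) - 1) * Z.card ≤ ((p : ℝ) - 1) * (ε * (p : ℝ) ^ Fintype.card σ) := by
      refine h1.trans ?_
      rw [pow_succ]
      have h3 : (0 : ℝ) ≤ (p : ℝ) ^ Fintype.card σ := by positivity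
      nlinarith [mul_nonneg hε.le (mul_nonneg h3 (by linarith : (0 : ℝ) ≤ (p : ℝ) - 2))]
    exact le_of_mul_le_mul_left h2 (by linarith)

end few

end Pool.Agent.H887.CI
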