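import Pool.Agent.H887.CI.Gen
import Pool.Agent.H887.CI.Good

/-!
# The family of all complete intersections
-/

set_option autoImplicit false

open Finset TensorProduct

namespace Pool.Agent.H887.CI

open Pool.Agent.Q267.AP Pool.Agent.Q267.ST
open NumberField

section defs

variable {s r : ℕ}

/-- The monomials of multi-degree `D`. -/
abbrev Mono (n D : Fin s → ℕ) :=
  {u : (x : Var n) → Fin (D x.1 + 1) // ∀ b, ∑ i, (u ⟨b, i⟩ : ℕ) = D b}

/-- The exponent. -/
noncomputable def uexp {n D : Fin s → ℕ} (u : Mono n D) : Var n →₀ ℕ :=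
  Finsupp.equivFunOnFinite.symm fun x => (u.1 x : ℕ)

lemma uexp_inj {n D : Fin s → ℕ} : Function.Injective (uexp : Mono n D → _) := by
  intro w w' h
  refine Subtype.ext (funext fun x => Fin.ext ?_)
  have := DFunLike.congr_fun h x
  exact this

lemma mem_uexp {n D : Fin s → ℕ} (v : Var n →₀ ℕ) (hv : ∀ b, ∑ i, v ⟨b, i⟩ = D b) :
    ∃ u : Mono n D, uexp u = v := by
  have h6 : ∀ x : Var n, v x < D x.1 + 1 := by
    rintro ⟨b, i⟩
    have h7 : v ⟨b, i⟩ ≤ ∑ i, v ⟨b, i⟩ :=
      single_le_sum (f := fun i => v ⟨b, i⟩) (fun _ _ => Nat.zero_le _) (mem_univ i)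
    have := hv b
    change v ⟨b, i⟩ < D b + 1
    omega
  refine ⟨⟨fun x => ⟨v x, h6 x⟩, hv⟩, ?_⟩
  ext x
  rfl

/-- The parameters of the family of all complete intersections. -/
abbrev Par (n : Fin s → ℕ) (m : Fin r → ℕ) (d : Fin r → Fin s → ℕ) (h : ℕ) :=
  (j : Fin r) × (Mono n (fun b => m j * d j b) × Fin h)

/-- The universal family. -/
noncomputable def ufam {B : Type} [CommRing B] (n : Fin s → ℕ) (m : Fin r → ℕ)
    (d : Fin r → Fin s → ℕ) {h : ℕ} (ω : Fin h → B) (j : Fin r) :
    MvPolynomial (Var n) (MvPolynomial (Par n m d h) B) :=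
  ∑ u : Mono n (fun b => m j * d j b),
    MvPolynomial.monomial (uexp u) (∑ a, MvPolynomial.C (ω a) * MvPolynomial.X ⟨j, u, a⟩)

variable {B : Type} [CommRing B] {n : Fin s → ℕ} {m : Fin r → ℕ}
    {d : Fin r → Fin s → ℕ} {h : ℕ} (ω : Fin h → B)

lemma coeff_ufam (j : Fin r) (u : Mono n (fun b => m j * d j b)) :
    MvPolynomial.coeff (uexp u) (ufam n m d ω j) =
      ∑ a, MvPolynomial.C (ω a) * MvPolynomial.X ⟨j, u, a⟩ := by
  classical
  unfold ufam
  rw [MvPolynomial.coeff_sum, Finset.sum_eq_single u]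
  · rw [MvPolynomial.coeff_monomial, if_pos rfl]
  · intro v _ hv
    rw [MvPolynomial.coeff_monomial, if_neg fun h => hv (uexp_inj h)]
  · intro h
    exact absurd (mem_univ _) h

lemma coeff_ufam' (j : Fin r) (v : Var n →₀ ℕ)
    (hv : ∀ u : Mono n (fun b => m j * d j b), uexp u ≠ v) :
    MvPolynomial.coeff v (ufam n m d ω j) = 0 := by
  classical
  unfold ufam
  rw [MvPolynomial.coeff_sum]
  refine sum_eq_zero fun u _ => ?_
  rw [MvPolynomial.coeff_monomial, if_neg (hv u)]

lemma ufam_mh (j : Fin r) : MH n (fun b => m j * d j b) (ufam n m d ω j) := by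
  intro v hv b
  by_contra hne
  rw [MvPolynomial.mem_support_iff] at hv
  apply hv
  apply coeff_ufam'
  intro u hu
  apply hne
  rw [← hu]
  exact u.2 b

end defs

section gen

variable {s r : ℕ} {B S T : Type} [CommRing B] {n : Fin s → ℕ} {m : Fin r → ℕ}
    {d : Fin r → Fin s → ℕ} {h : ℕ}

/-- **The generic complete intersection is smooth.** -/
theorem gen_smooth [Field T] [Algebra B T] [Algebra (MvPolynomial (Par n m d h) B) T]
    [IsScalarTower B (MvPolynomial (Par n m d h) B) T]
    [Algebra.FormallyEtale (MvPolynomial (Par n m d h) B) T] (ω : Fin h → B) (a₀ : Fin h)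
    (hω : algebraMap B T (ω a₀) ≠ 0) :
    SmoothIn m fun j => MvPolynomial.map (algebraMap (MvPolynomial (Par n m d h) B) T)
      (ufam n m d ω j) := by
  classical
  intro ξ hξ _
  set F : Fin r → MvPolynomial (Var n) T := fun j => MvPolynomial.map (algebraMap
    (MvPolynomial (Par n m d h) B) T) (ufam n m d ω j) with hF
  rw [Fintype.linearIndependent_iff]
  intro g hg j₀
  choose c hc using hξ
  -- the monomial
  obtain ⟨u₀, hu₀⟩ := mem_uexp (n := n) (D := fun b => m j₀.1 * d j₀.1 b)
    (Finsupp.equivFunOnFinite.symm fun x => if x.2 = c x.1 then m j₀.1 * d j₀.1 x.1 else 0)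
    (by
      intro b
      change ∑ i, (if i = c b then m j₀.1 * d j₀.1 b else 0) = _
      rw [Finset.sum_ite_eq' univ (c b), if_pos (mem_univ _)])
  have hmon : ∏ x, ξ x ^ uexp u₀ x ≠ 0 := by
    rw [hu₀]
    refine prod_ne_zero_iff.mpr fun x _ => ?_
    change ξ x ^ (if x.2 = c x.1 then m j₀.1 * d j₀.1 x.1 else 0) ≠ 0
    obtain ⟨b, i⟩ := x
    split_ifs with hx
    · have hx' : i = c b := hx
      rw [hx']
      exact pow_ne_zero _ (hc b)
    · rw [pow_zero]
      exact one_ne_zero
  -- the derivation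
  obtain ⟨D, hD⟩ := exists_der (T := T) (MvPolynomial.mkDerivation B
    (fun q : Par n m d h => if q = ⟨j₀.1, u₀, a₀⟩ then (1 : T) else 0))
  have hDc : ∀ (j : Fin r) (u : Mono n (fun b => m j * d j b)), D (algebraMap
      (MvPolynomial (Par n m d h) B) T (MvPolynomial.coeff (uexp u) (ufam n m d ω j))) =
      ∑ a, algebraMap B T (ω a) * if (⟨j, u, a⟩ : Par n m d h) = ⟨j₀.1, u₀, a₀⟩ then
        (1 : T) else 0 := by
    intro j u
    rw [hD, coeff_ufam, map_sum]
    refine sum_congr rfl fun a _ => ?_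
    rw [MvPolynomial.C_mul', Derivation.map_smul, MvPolynomial.mkDerivation_X, Algebra.smul_def]
  have hS : ∀ j : Fin r, ∑ v ∈ (ufam n m d ω j).support, D (algebraMap
      (MvPolynomial (Par n m d h) B) T (MvPolynomial.coeff v (ufam n m d ω j))) *
        ∏ x, ξ x ^ v x =
      if j = j₀.1 then algebraMap B T (ω a₀) * ∏ x, ξ x ^ uexp u₀ x else 0 := by
    intro j
    have h1 : ∑ v ∈ (ufam n m d ω j).support, D (algebraMap
        (MvPolynomial (Par n m d h) B) T (MvPolynomial.coeff v (ufam n m d ω j))) *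
          ∏ x, ξ x ^ v x =
        ∑ v ∈ (univ : Finset (Mono n (fun b => m j * d j b))).image uexp, D (algebraMap
        (MvPolynomial (Par n m d h) B) T (MvPolynomial.coeff v (ufam n m d ω j))) *
          ∏ x, ξ x ^ v x := by
      refine sum_subset ?_ ?_
      · intro v hv
        rw [mem_image]
        by_contra hcon
        push Not at hcon
        rw [MvPolynomial.mem_support_iff] at hv
        exact hv (coeff_ufam' ω j v fun u => hcon u (mem_univ _))
      · intro v _ hv
        rw [MvPolynomial.notMem_support_iff.mp hv, map_zero, map_zero, zero_mul]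
    rw [h1, sum_image fun _ _ _ _ h => uexp_inj h]
    simp only [hDc]
    by_cases hj : j = j₀.1
    · obtain ⟨j₁, hj₁⟩ := j₀
      simp only at hj
      subst hj
      rw [if_pos rfl, Finset.sum_eq_single u₀]
      · congr 1
        rw [Finset.sum_eq_single a₀]
        · rw [if_pos rfl, mul_one]
        · intro a _ ha
          rw [if_neg, mul_zero]
          intro h2
          apply ha
          simpa using h2
        · intro h2
          exact absurd (mem_univ _) h2
      · intro u _ hu
        rw [sum_eq_zero, zero_mul]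
        intro a _
        rw [if_neg, mul_zero]
        intro h2
        apply hu
        simp only [Sigma.mk.injEq, heq_eq_eq, Prod.mk.injEq, true_and] at h2
        exact h2.1
      · intro h2
        exact absurd (mem_univ _) h2
    · rw [if_neg hj]
      refine sum_eq_zero fun u _ => ?_
      rw [sum_eq_zero, zero_mul]
      intro a _
      rw [if_neg, mul_zero]
      intro h2
      exact hj (congrArg Sigma.fst h2)
  have hch : ∀ j : {j // MvPolynomial.eval ξ (F j) = 0},
      (if j.1 = j₀.1 then algebraMap B T (ω a₀) * ∏ x, ξ x ^ uexp u₀ x else 0) +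
      ∑ x, MvPolynomial.eval ξ (MvPolynomial.pderiv x (F j)) * D (ξ x) = 0 := by
    intro j
    have h1 := chain D ξ (ufam n m d ω j.1)
    rw [hS] at h1
    have h2 : ∀ Q : MvPolynomial (Var n) (MvPolynomial (Par n m d h) B),
        MvPolynomial.eval₂ (algebraMap (MvPolynomial (Par n m d h) B) T) ξ Q =
        MvPolynomial.eval ξ (MvPolynomial.map (algebraMap (MvPolynomial (Par n m d h) B) T) Q) :=
      fun Q => (MvPolynomial.eval_map _ _ _).symm
    rw [h2] at h1
    have h3 : MvPolynomial.eval ξ (MvPolynomial.map (algebraMap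
        (MvPolynomial (Par n m d h) B) T) (ufam n m d ω j.1)) = 0 := j.2
    rw [h3, map_zero] at h1
    have h4 : ∑ x, MvPolynomial.eval ξ (MvPolynomial.pderiv x (F j)) * D (ξ x) =
        ∑ x, MvPolynomial.eval₂ (algebraMap (MvPolynomial (Par n m d h) B) T) ξ
          (MvPolynomial.pderiv x (ufam n m d ω j.1)) * D (ξ x) := by
      refine sum_congr rfl fun x _ => ?_
      rw [h2, ← MvPolynomial.pderiv_map]
    rw [h4]
    exact h1.symm
  have h5 : ∑ j : {j // MvPolynomial.eval ξ (F j) = 0}, g j *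
      ((if j.1 = j₀.1 then algebraMap B T (ω a₀) * ∏ x, ξ x ^ uexp u₀ x else 0) +
      ∑ x, MvPolynomial.eval ξ (MvPolynomial.pderiv x (F j)) * D (ξ x)) = 0 :=
    sum_eq_zero fun j _ => by rw [hch j, mul_zero]
  simp only [mul_add, sum_add_distrib] at h5
  have h6 : ∑ j : {j // MvPolynomial.eval ξ (F j) = 0}, g j *
      ∑ x, MvPolynomial.eval ξ (MvPolynomial.pderiv x (F j)) * D (ξ x) = 0 := by
    simp only [mul_sum]
    rw [sum_comm]
    refine sum_eq_zero fun x _ => ?_
    have h7 := congrFun hg x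
    simp only [Finset.sum_apply, Pi.smul_apply, smul_eq_mul, Pi.zero_apply] at h7
    have h8 : ∑ j : {j // MvPolynomial.eval ξ (F j) = 0}, g j *
        (MvPolynomial.eval ξ (MvPolynomial.pderiv x (F j)) * D (ξ x)) =
        (∑ j : {j // MvPolynomial.eval ξ (F j) = 0}, g j *
        MvPolynomial.eval ξ (MvPolynomial.pderiv x (F j))) * D (ξ x) := by
      rw [sum_mul]
      exact sum_congr rfl fun j _ => by ring
    rw [h8, h7, zero_mul]
  rw [h6, add_zero, Finset.sum_eq_single j₀] at h5
  · rw [if_pos rfl] at h5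
    rcases mul_eq_zero.mp h5 with h7 | h7
    · exact h7
    · exact absurd h7 (mul_ne_zero hω hmon)
  · intro j _ hj
    rw [if_neg fun h7 => hj (Subtype.ext h7), mul_zero]
  · intro h7
    exact absurd (mem_univ _) h7

end gen

section nf

variable {K : Type} [Field K] [NumberField K] {s r : ℕ} {n : Fin s → ℕ} {m : Fin r → ℕ}
    {d : Fin r → Fin s → ℕ} {h : ℕ}

/-- There are smooth complete intersections. -/
theorem exists_smooth (ω : Fin h → 𝓞 K) (hω : ∃ a, ω a ≠ 0) :
    ∃ τ : Par n m d h → K, Smooth m fun j => MvPolynomial.map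
      (MvPolynomial.eval₂Hom (algebraMap (𝓞 K) K) τ) (ufam n m d ω j) := by
  obtain ⟨a₀, ha₀⟩ := hω
  set S := MvPolynomial (Par n m d h) (𝓞 K) with hS
  set T := AlgebraicClosure (FractionRing S) with hT
  have hinjS : Function.Injective (algebraMap S T) := by
    rw [IsScalarTower.algebraMap_eq S (FractionRing S) T]
    exact (algebraMap (FractionRing S) T).injective.comp (IsFractionRing.injective S _)
  have hinjB : Function.Injective (algebraMap (𝓞 K) T) := by
    rw [IsScalarTower.algebraMap_eq (𝓞 K) S T]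
    exact hinjS.comp (MvPolynomial.C_injective _ _)
  have hch : CharZero (FractionRing S) :=
    charZero_of_injective_algebraMap (IsFractionRing.injective S (FractionRing S))
  have het : Algebra.FormallyEtale S T := by
    have h1 : Algebra.FormallyEtale S (FractionRing S) :=
      Algebra.FormallyEtale.of_isLocalization (nonZeroDivisors S)
    have h2 : Algebra.FormallyEtale (FractionRing S) T :=
      Algebra.FormallyEtale.of_isSeparable (FractionRing S) T
    exact Algebra.FormallyEtale.comp S (FractionRing S) T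
  have hsm := gen_smooth (T := T) (n := n) (m := m) (d := d) ω a₀ (by
    intro h0
    rw [← map_zero (algebraMap (𝓞 K) T)] at h0
    exact ha₀ (hinjB h0))
  obtain ⟨Δ, hΔ, hΔs⟩ := discr' (algebraMap S T) m (fun j b => m j * d j b) (ufam n m d ω)
    (fun j => ufam_mh ω j) hsm
  have hΔ0 : Δ ≠ 0 := by
    rintro rfl
    exact hΔ (map_zero _)
  have hΔK : MvPolynomial.map (algebraMap (𝓞 K) K) Δ ≠ 0 := by
    intro h0
    rw [← map_zero (MvPolynomial.map (algebraMap (𝓞 K) K))] at h0
    exact hΔ0 (MvPolynomial.map_injective _ (IsFractionRing.injective (𝓞 K) K) h0)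
  obtain ⟨τ, hτ⟩ : ∃ τ : Par n m d h → K,
      MvPolynomial.eval τ (MvPolynomial.map (algebraMap (𝓞 K) K) Δ) ≠ 0 := by
    by_contra hcon
    push Not at hcon
    apply hΔK
    apply MvPolynomial.funext
    intro x
    rw [hcon x, map_zero]
  refine ⟨τ, hΔs K _ ?_⟩
  rw [MvPolynomial.eval_map] at hτ
  exact hτ

/-- The nodes. -/
noncomputable def node (d : Fin r → Fin s → ℕ) (j : Fin r) (b : Fin s) (c : Fin (d j b)) : ℕ :=
  (Fintype.equivFin ((j : Fin r) × Fin (d j b)) ⟨j, c⟩ : ℕ)

/-- The linear forms. -/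
noncomputable def vl (n : Fin s → ℕ) (d : Fin r → Fin s → ℕ) (k : Type) [Field k] (j : Fin r)
    (b : Fin s) (c : Fin (d j b)) (i : Fin (n b + 1)) : k := (node d j b c : k) ^ (i : ℕ)

lemma vl_pos (k : Type) [Field k] [CharZero k] (b : Fin s)
    (ρ : Fin (n b + 1) → (j : Fin r) × Fin (d j b)) (hρ : Function.Injective ρ) :
    (Matrix.of fun i i' => vl n d k (ρ i).1 b (ρ i).2 i').det ≠ 0 := by
  change (Matrix.vandermonde fun i => (node d (ρ i).1 b (ρ i).2 : k)).det ≠ 0
  rw [Matrix.det_vandermonde_ne_zero_iff]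
  intro i i' h
  apply hρ
  have h1 : node d (ρ i).1 b (ρ i).2 = node d (ρ i').1 b (ρ i').2 := Nat.cast_injective h
  unfold node at h1
  exact (Fintype.equivFin _).injective (Fin.ext h1)

lemma arr_mh {k : Type} [CommRing k] {e : Fin s → ℕ}
    (l : (b : Fin s) → Fin (e b) → Fin (n b + 1) → k) :
    MvPolynomial.IsWeightedHomogeneous (gr n) (arr l) e := by
  classical
  have h1 : ∀ b, MvPolynomial.IsWeightedHomogeneous (gr n)
      (∏ c, MvPolynomial.rename (Sigma.mk b) (lf (l b c))) (∑ _c : Fin (e b), Pi.single b 1) := by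
    intro b
    refine MvPolynomial.IsWeightedHomogeneous.prod _ _ _ fun c _ => ?_
    refine hom_rename b 1 _ ?_
    intro u hu
    unfold lf at hu
    have h2 := MvPolynomial.support_sum hu
    rw [mem_biUnion] at h2
    obtain ⟨i, _, hi⟩ := h2
    have h3 : (MvPolynomial.C (l b c i) * MvPolynomial.X i : MvPolynomial (Fin (n b + 1)) k) =
        MvPolynomial.monomial (Finsupp.single i 1) (l b c i) := by
      rw [MvPolynomial.C_mul_X_eq_monomial]
    rw [h3] at hi
    have h4 := mem_singleton.mp (MvPolynomial.support_monomial_subset hi)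
    rw [h4, Finset.sum_eq_single i]
    · rw [Finsupp.single_eq_same]
    · intro i' _ hi'
      rw [Finsupp.single_eq_of_ne hi']
    · intro h5
      exact absurd (mem_univ _) h5
  have h2 := MvPolynomial.IsWeightedHomogeneous.prod (w := gr n) univ
    (fun b => ∏ c, MvPolynomial.rename (Sigma.mk b) (lf (l b c)))
    (fun b => ∑ _c : Fin (e b), (Pi.single b 1 : Fin s → ℕ)) (fun b _ => h1 b)
  have h3 : ∑ b, ∑ _c : Fin (e b), (Pi.single b 1 : Fin s → ℕ) = e := by
    have h4 : ∀ b, ∑ _c : Fin (e b), (Pi.single b 1 : Fin s → ℕ) = Pi.single b (e b) := by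
      intro b
      rw [sum_const, card_univ, Fintype.card_fin]
      funext b'
      by_cases hb : b' = b
      · subst hb
        simp
      · simp [hb]
    rw [sum_congr rfl fun b _ => h4 b]
    exact Finset.univ_sum_single e
  rw [h3] at h2
  exact h2

/-- There are members which are arrangements. -/
theorem exists_arr (n : Fin s → ℕ) (m : Fin r → ℕ) (d : Fin r → Fin s → ℕ) (ω : Fin h → 𝓞 K)
    (hω : ∃ a, ω a ≠ 0) :
    ∃ τ : Par n m d h → K, ∀ j, MvPolynomial.map ((algebraMap K (AlgebraicClosure K)).comp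
      (MvPolynomial.eval₂Hom (algebraMap (𝓞 K) K) τ)) (ufam n m d ω j) =
        arr (vl n d (AlgebraicClosure K) j) ^ m j := by
  classical
  obtain ⟨a₀, ha₀⟩ := hω
  have hω0 : algebraMap (𝓞 K) K (ω a₀) ≠ 0 := by
    rw [Ne, FaithfulSMul.algebraMap_eq_zero_iff]
    exact ha₀
  set G : Fin r → MvPolynomial (Var n) K := fun j => arr (vl n d K j) ^ m j with hG
  refine ⟨fun q => if q.2.2 = a₀ then MvPolynomial.coeff (uexp q.2.1) (G q.1) /
    algebraMap (𝓞 K) K (ω a₀) else 0, fun j => ?_⟩
  have h1 : MvPolynomial.map (MvPolynomial.eval₂Hom (algebraMap (𝓞 K) K)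
      (fun q : Par n m d h => if q.2.2 = a₀ then MvPolynomial.coeff (uexp q.2.1) (G q.1) /
    algebraMap (𝓞 K) K (ω a₀) else 0)) (ufam n m d ω j) = G j := by
    have hGh : MH n (fun b => m j * d j b) (G j) := MH.of_wh (by
      have h2 := (arr_mh (vl n d K j)).pow (m j)
      exact h2)
    ext1 v
    rw [MvPolynomial.coeff_map]
    by_cases hv : ∀ b, ∑ i, v ⟨b, i⟩ = m j * d j b
    · obtain ⟨u, rfl⟩ := mem_uexp (D := fun b => m j * d j b) v hv
      rw [coeff_ufam, map_sum, Finset.sum_eq_single a₀]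
      · rw [map_mul, MvPolynomial.eval₂Hom_C, MvPolynomial.eval₂Hom_X', if_pos rfl]
        field_simp
      · intro a _ ha
        rw [map_mul, MvPolynomial.eval₂Hom_X', if_neg ha, mul_zero]
      · intro h2
        exact absurd (mem_univ _) h2
    · rw [coeff_ufam', map_zero]
      · symm
        rw [← MvPolynomial.notMem_support_iff]
        intro h2
        exact hv (hGh v h2)
      · rintro u rfl
        exact hv u.2
  rw [← MvPolynomial.map_map, h1, hG]
  simp only
  rw [map_pow, map_arr]
  congr 2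
  funext b c i
  unfold vl
  rw [map_pow, map_natCast]

end nf

end Pool.Agent.H887.CI
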