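import Pool.Agent.H887.CI.Sieve
import Pool.Agent.H887.CI.Univ

/-!
# Good ordinary reduction of the members of a family
-/

set_option autoImplicit false

open Finset

namespace Pool.Agent.H887.CI

open Pool.Agent.Q267.AP Pool.Agent.Q267.ST
open NumberField IsDedekindDomain
open Pool.Agent.Q267.OD (charP_res finite_mem allP)
open Pool.Agent.Q267.DC (hm hm_map det_hm_map card_res)

section

variable {K : Type} [Field K] [NumberField K] {s r : ℕ} {n : Fin s → ℕ}
variable {σ : Type}

/-- The member of the family at the integers `t`. -/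
noncomputable def memb (f : Fin r → MvPolynomial (Var n) (MvPolynomial σ (𝓞 K))) (t : σ → ℕ)
    (j : Fin r) : MvPolynomial (Var n) (𝓞 K) :=
  MvPolynomial.map (MvPolynomial.eval fun i => (t i : 𝓞 K)) (f j)

/-- Good ordinary reduction at `v`. -/
def GoodO (m : Fin r → ℕ) (d : Fin r → Fin s → ℕ)
    (F : Fin r → MvPolynomial (Var n) (𝓞 K)) (v : HeightOneSpectrum (𝓞 K)) : Prop :=
  (∀ j, (m j : 𝓞 K) ∉ v.asIdeal) ∧
    OrdIn m d (Ideal.absNorm v.asIdeal)
      fun j => MvPolynomial.map (algebraMap (𝓞 K) v.asIdeal.ResidueField) (F j)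

omit [NumberField K] in
lemma map_memb (f : Fin r → MvPolynomial (Var n) (MvPolynomial σ (𝓞 K))) (t : σ → ℕ)
    (v : HeightOneSpectrum (𝓞 K)) (j : Fin r) :
    MvPolynomial.map (algebraMap (𝓞 K) v.asIdeal.ResidueField) (memb f t j) =
      MvPolynomial.map (MvPolynomial.eval₂Hom (algebraMap (𝓞 K) v.asIdeal.ResidueField)
        fun i => (t i : v.asIdeal.ResidueField)) (f j) := by
  unfold memb
  rw [MvPolynomial.map_map]
  congr 2
  apply MvPolynomial.ringHom_ext
  · intro a
    rw [RingHom.comp_apply, MvPolynomial.eval_C, MvPolynomial.eval₂Hom_C]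
  · intro i
    rw [RingHom.comp_apply, MvPolynomial.eval_X, MvPolynomial.eval₂Hom_X', map_natCast]

lemma goodO_mod (m : Fin r → ℕ) (d : Fin r → Fin s → ℕ)
    (f : Fin r → MvPolynomial (Var n) (MvPolynomial σ (𝓞 K)))
    (v : HeightOneSpectrum (𝓞 K)) (hv : (Ideal.absNorm v.asIdeal).Prime) (t : σ → ℕ) :
    GoodO m d (memb f t) v ↔ GoodO m d (memb f fun j => t j % Ideal.absNorm v.asIdeal) v := by
  have := charP_res v hv
  have h1 : (fun i => (t i : v.asIdeal.ResidueField)) =
      fun i => ((t i % Ideal.absNorm v.asIdeal : ℕ) : v.asIdeal.ResidueField) := by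
    funext i
    exact (CharP.natCast_eq_natCast' _ (Ideal.absNorm v.asIdeal) (Nat.mod_modEq _ _)).symm
  unfold GoodO
  simp only [map_memb]
  rw [h1]

variable [Fintype σ]

open Classical in
/-- **Few members are not ordinary modulo a place.** -/
theorem fewN (m : Fin r → ℕ) (hm : ∀ j, m j = 1 ∨ m j = 2) (d : Fin r → Fin s → ℕ)
    (f : Fin r → MvPolynomial (Var n) (MvPolynomial σ (𝓞 K)))
    (hf : ∀ j, MH n (fun b => m j * d j b) (f j))
    (l : (j : Fin r) → (b : Fin s) → Fin (d j b) → Fin (n b + 1) → AlgebraicClosure K)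
    (hl : ∀ b, ∀ ρ : Fin (n b + 1) → (j : Fin r) × Fin (d j b), Function.Injective ρ →
      (Matrix.of fun i i' => l (ρ i).1 b (ρ i).2 i').det ≠ 0)
    (harr : HasArr m f l)
    (hsm : ∃ τ : σ → K, Smooth m fun j => MvPolynomial.map
      (MvPolynomial.eval₂Hom (algebraMap (𝓞 K) K) τ) (f j)) (ε : ℝ) (hε : 0 < ε) :
    {v : HeightOneSpectrum (𝓞 K) | (Ideal.absNorm v.asIdeal).Prime ∧
      ¬ (((Fintype.piFinset fun _ : σ => range (Ideal.absNorm v.asIdeal)).filter
        fun t => ¬ GoodO m d (memb f t) v).card : ℝ) ≤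
          ε * (Ideal.absNorm v.asIdeal : ℝ) ^ Fintype.card σ}.Finite := by
  have h2 : ((2 : ℕ) : 𝓞 K) ≠ 0 := by
    rw [Nat.cast_ne_zero]
    norm_num
  refine ((fewZ' m hm d f hf l hl harr hsm ε hε).union
    (finite_mem (K := K) _ h2)).subset ?_
  rintro v ⟨hv, hv'⟩
  by_contra hno
  simp only [Set.mem_union, Set.mem_ofPred_eq, not_or, not_and, not_not] at hno
  obtain ⟨hno1, hno2⟩ := hno
  apply hv'
  have hno3 := hno1 hv
  have hchar := charP_res v hv
  set Bad := (Fintype.piFinset fun _ : σ => range (Ideal.absNorm v.asIdeal)).filter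
        fun t => ¬ GoodO m d (memb f t) v with hBad
  have hinj : Set.InjOn (fun (t : σ → ℕ) (i : σ) => (t i : v.asIdeal.ResidueField)) Bad := by
    intro a ha b hb hab
    have ha' := (mem_filter.mp (mem_coe.mp ha)).1
    have hb' := (mem_filter.mp (mem_coe.mp hb)).1
    rw [Fintype.mem_piFinset] at ha' hb'
    funext i
    exact CharP.natCast_injOn_Iio v.asIdeal.ResidueField (Ideal.absNorm v.asIdeal)
      (Set.mem_Iio.mpr (mem_range.mp (ha' i))) (Set.mem_Iio.mpr (mem_range.mp (hb' i)))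
      (congrFun hab i)
  rw [← card_image_of_injOn hinj]
  refine hno3 _ ?_
  intro z hz h3
  obtain ⟨t, ht, rfl⟩ := mem_image.mp hz
  refine (mem_filter.mp ht).2 ⟨fun j => ?_, ?_⟩
  · rcases hm j with h | h
    · rw [h, Nat.cast_one]
      exact fun h4 => v.isPrime.ne_top ((Ideal.eq_top_iff_one _).mpr h4)
    · rw [h]
      exact hno2
  · simp only [map_memb]
    exact h3

end

end Pool.Agent.H887.CI
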