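import Pool.Graph.R_pool_sql_team_seeded_3997aac3.Q102.AP.Norm

/-!
# The normal form in a chart, for a general scaling
-/

set_option autoImplicit false

open Finset

namespace Pool.Agent.H887.CI

open Pool.Agent.Q267.AP Pool.Agent.Q267.ST Pool.Agent.Q102.AP

section

variable {ι A : Type} [Fintype ι] [CommRing A]

/-- The weight of an exponent. -/
def wt (ω : ι → ℕ) (u : ι →₀ ℕ) : ℕ := ∑ i, ω i * u i

variable [DecidableEq ι]

/-- the image of a polynomial with one term of smallest weight -/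
lemma im_h (ω : ι → ℕ) (N : ℕ) (c γ : A) (u₀ : ι →₀ ℕ) (r : MvPolynomial ι A)
    (hr : ∀ u ∈ r.support, u ≠ u₀ → wt ω u₀ + 1 ≤ wt ω u) (hrc : MvPolynomial.coeff u₀ r = c) :
    ∃ y1 : Polynomial (LP ι A), toP (scal ω γ N (MvPolynomial.map Polynomial.C r)) =
      Polynomial.X ^ wt ω u₀ * (al ι c * xP (zexp u₀) + Polynomial.X * y1) := by
  classical
  obtain ⟨f, hf⟩ : ∃ f : (ι →₀ ℕ) → Polynomial (LP ι A), f = fun u => Polynomial.X ^ wt ω u *
    (al ι (r.coeff u) * xP (zexp u)) := ⟨_, rfl⟩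
  have h1 : MvPolynomial.map Polynomial.C r =
      ∑ u ∈ r.support, MvPolynomial.monomial u (Polynomial.C (r.coeff u)) := by
    conv_lhs => rw [r.as_sum]
    rw [map_sum]
    exact sum_congr rfl fun u _ => by rw [MvPolynomial.map_monomial]
  have h2 : toP (scal ω γ N (MvPolynomial.map Polynomial.C r)) = ∑ u ∈ r.support, f u := by
    rw [h1, map_sum, map_sum, hf]
    exact sum_congr rfl fun u _ => sc_monomial ω γ N u _
  have h3 : ∑ u ∈ r.support, f u = f u₀ + ∑ u ∈ r.support.erase u₀, f u := by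
    by_cases hs : u₀ ∈ r.support
    · exact (add_sum_erase _ f hs).symm
    · rw [erase_eq_of_notMem hs]
      have : f u₀ = 0 := by
        rw [hf]
        change _ * (al ι (r.coeff u₀) * _) = 0
        rw [MvPolynomial.notMem_support_iff.1 hs, al_zero, zero_mul, mul_zero]
      rw [this, zero_add]
  refine ⟨∑ u ∈ r.support.erase u₀, Polynomial.X ^ (wt ω u - wt ω u₀ - 1) *
        (al ι (r.coeff u) * xP (zexp u)), ?_⟩
  have h5 : ∑ u ∈ r.support.erase u₀, f u = Polynomial.X ^ wt ω u₀ * (Polynomial.X *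
      ∑ u ∈ r.support.erase u₀, Polynomial.X ^ (wt ω u - wt ω u₀ - 1) *
        (al ι (r.coeff u) * xP (zexp u))) := by
    rw [mul_sum, mul_sum]
    refine sum_congr rfl fun u hu => ?_
    rw [mem_erase] at hu
    obtain ⟨t, ht⟩ := Nat.exists_eq_add_of_le (hr u hu.2 hu.1)
    rw [hf]
    change Polynomial.X ^ wt ω u * (al ι (r.coeff u) * xP (zexp u)) = _
    have h6 : wt ω u - wt ω u₀ - 1 = t := by omega
    rw [h6, ht, pow_add, pow_add, pow_one]
    ring
  rw [h2, h3, h5, hf]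
  change Polynomial.X ^ wt ω u₀ * (al ι (r.coeff u₀) * xP (zexp u₀)) + _ = _
  rw [hrc]
  ring

lemma ch_g' (ω : ι → ℕ) (N : ℕ) (γ : A) (M : Matrix ι ι A) (g : MvPolynomial ι (Polynomial A)) :
    chP ω γ N M (MvPolynomial.C Polynomial.X * g) =
      al ι γ * Polynomial.X ^ N * chP ω γ N M g := by
  have h1 : chP ω γ N M (MvPolynomial.C Polynomial.X) = al ι γ * Polynomial.X ^ N := by
    unfold chP
    rw [RingHom.comp_apply, RingHom.comp_apply, lin_C, scal_C, toP_C, Polynomial.X_comp,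
      Polynomial.map_mul, Polynomial.map_pow, Polynomial.map_X, Polynomial.map_C]
    rfl
  rw [map_mul, h1]

/-- **The normal form in a chart.** -/
theorem norm' (ω : ι → ℕ) (m N : ℕ) (c c' μ γ : A) (M : Matrix ι ι A) (h : MvPolynomial ι A)
    (u₀ : ι →₀ ℕ) (g : MvPolynomial ι (Polynomial A)) (hcc : c * c' = 1)
    (hμ : (m : A) ^ 2 * μ = 1) (hc : MvPolynomial.coeff u₀ (lin M h) = c)
    (hmin : ∀ u ∈ (lin M h).support, u ≠ u₀ → wt ω u₀ + 1 ≤ wt ω u)
    (hN : m * wt ω u₀ + 1 ≤ N) :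
    ∃ y : Polynomial (LP ι A), y.coeff 0 = 0 ∧
      chart ω γ N M (MvPolynomial.map Polynomial.C h ^ m + MvPolynomial.C Polynomial.X * g) =
        PowerSeries.X ^ (m * wt ω u₀) *
          (cst (PowerSeries.C (c ^ m)) * xm (m • zexp u₀) *
            (1 + (m : PowerSeries (LP ι A)) ^ 2 * (y : PowerSeries (LP ι A)))) := by
  have hal1 : al ι c * al ι c' = 1 := by rw [← al_mul, hcc, al_one]
  obtain ⟨y1, hy1⟩ := im_h ω N c γ u₀ (lin M h) hmin hc
  have hh : chP ω γ N M (MvPolynomial.map Polynomial.C h) = Polynomial.X ^ wt ω u₀ *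
      1 * (al ι c * xP (zexp u₀) + Polynomial.X * y1) := by
    unfold chP
    rw [RingHom.comp_apply, RingHom.comp_apply, lin_map, hy1, mul_one]
  have hg := ch_g' ω N γ M g
  obtain ⟨z, hz⟩ : ∃ z : Polynomial (LP ι A), z = al ι c' * xP (-(zexp u₀)) * y1 := ⟨_, rfl⟩
  have hh2 : chP ω γ N M (MvPolynomial.map Polynomial.C h) = Polynomial.X ^ wt ω u₀ *
      (al ι c * xP (zexp u₀)) * (1 + Polynomial.X * z) := by
    rw [hh, hz]
    have := alg (al ι c) (Polynomial.X : Polynomial (LP ι A)) (al ι c') (xP (zexp u₀))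
      (xP (-(zexp u₀))) 1 y1 (Polynomial.X ^ wt ω u₀) hal1 (xinv _)
    rw [one_mul] at this
    exact this
  obtain ⟨N', hN'⟩ := Nat.exists_eq_add_of_le hN
  obtain ⟨q, hq⟩ : ∃ q : Polynomial (LP ι A), (1 + Polynomial.X * z) ^ m =
      1 + Polynomial.X * q := by
    obtain ⟨q, hq⟩ := sub_dvd_pow_sub_pow (1 + Polynomial.X * z) 1 m
    refine ⟨z * q, ?_⟩
    rw [one_pow, add_sub_cancel_left] at hq
    have : (1 + Polynomial.X * z) ^ m = 1 + ((1 + Polynomial.X * z) ^ m - 1) := by ring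
    rw [this, hq, mul_assoc]
  have hinv : (al ι c * xP (zexp u₀)) ^ m * (al ι c' * xP (-(zexp u₀))) ^ m = 1 := by
    rw [← mul_pow]
    have : (al ι c * xP (zexp u₀)) * (al ι c' * xP (-(zexp u₀))) =
        (al ι c * al ι c') * (xP (zexp u₀) * xP (-(zexp u₀))) := by ring
    rw [this, hal1, xinv, one_mul, one_pow]
  obtain ⟨T, hT⟩ : ∃ T : Polynomial (LP ι A), T = q + al ι γ * Polynomial.X ^ N' *
    (al ι c' * xP (-(zexp u₀))) ^ m * chP ω γ N M g := ⟨_, rfl⟩
  have hmain : chP ω γ N M (MvPolynomial.map Polynomial.C h ^ m +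
      MvPolynomial.C Polynomial.X * g) =
      Polynomial.X ^ (m * wt ω u₀) * ((al ι c * xP (zexp u₀)) ^ m * (1 + Polynomial.X * T)) := by
    have e1 : (Polynomial.X : Polynomial (LP ι A)) ^ N = Polynomial.X ^ (m * wt ω u₀) *
        (Polynomial.X * Polynomial.X ^ N') := by
      rw [hN', pow_add, pow_succ, mul_assoc]
    rw [map_add, map_pow, hh2, hg, mul_pow, mul_pow, hq, hT, ← pow_mul, mul_comm (wt ω u₀) m, e1]
    exact alg2 _ _ _ _ _ _ _ _ hinv
  have hμ' : ((m : Polynomial (LP ι A))) ^ 2 * al ι μ = 1 := by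
    rw [← al_nat (A := A), ← al_pow, ← al_mul, hμ, al_one]
  refine ⟨al ι μ * (Polynomial.X * T), ?_, ?_⟩
  · unfold al
    rw [Polynomial.coeff_C_mul, Polynomial.coeff_X_mul_zero, mul_zero]
  · have h1 := congrArg (fun P : Polynomial (LP ι A) => (P : PowerSeries (LP ι A))) hmain
    have h1' : chart ω γ N M (MvPolynomial.map Polynomial.C h ^ m +
        MvPolynomial.C Polynomial.X * g) =
        ((Polynomial.X ^ (m * wt ω u₀) * ((al ι c * xP (zexp u₀)) ^ m *
          (1 + Polynomial.X * T)) : Polynomial (LP ι A)) : PowerSeries (LP ι A)) := by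
      rw [← coe_chP]
      exact h1
    rw [h1']
    have e3 : (al ι c * xP (zexp u₀)) ^ m = al ι (c ^ m) * xP (m • zexp u₀) := by
      rw [mul_pow, xP_pow, al_pow]
    have e4 : (1 + Polynomial.X * T : Polynomial (LP ι A)) = 1 + (m : Polynomial (LP ι A)) ^ 2 *
        (al ι μ * (Polynomial.X * T)) := by
      rw [← mul_assoc, hμ', one_mul]
    have e5 : ((al ι (c ^ m) : Polynomial (LP ι A)) : PowerSeries (LP ι A)) =
        cst (PowerSeries.C (c ^ m)) := by
      rw [cst_C]
      unfold al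
      rw [Polynomial.coe_C]
      rfl
    have e6 : ((m : Polynomial (LP ι A)) : PowerSeries (LP ι A)) = (m : PowerSeries (LP ι A)) := by
      have := map_natCast (Polynomial.coeToPowerSeries.ringHom (R := LP ι A)) m
      rw [Polynomial.coeToPowerSeries.ringHom_apply] at this
      exact this
    have e7 : ((1 + Polynomial.X * T : Polynomial (LP ι A)) : PowerSeries (LP ι A)) =
        1 + (m : PowerSeries (LP ι A)) ^ 2 *
          ((al ι μ * (Polynomial.X * T) : Polynomial (LP ι A)) : PowerSeries (LP ι A)) := by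
      conv_lhs => rw [e4]
      rw [Polynomial.coe_add, Polynomial.coe_one, Polynomial.coe_mul, Polynomial.coe_pow, e6]
    rw [e3, Polynomial.coe_mul, Polynomial.coe_pow, Polynomial.coe_X, Polynomial.coe_mul,
      Polynomial.coe_mul, coe_xP, e5, e7]

end

end Pool.Agent.H887.CI
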