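import Pool.Agent.H887.CI.Count

/-!
# The zeros of the Hasse-Witt determinant of a family at the places of a number field
-/

set_option autoImplicit false

open Finset

namespace Pool.Agent.H887.CI

open Pool.Agent.Q267.AP Pool.Agent.Q267.ST
open NumberField IsDedekindDomain
open Pool.Agent.Q267.OD (charP_res finite_mem)
open Pool.Agent.Q267.DC (hm hm_map det_hm_map card_res)

section

variable {K : Type} [Field K] [NumberField K] {s : ℕ} {n e : Fin s → ℕ}
variable {σ : Type} [Fintype σ]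

lemma map_arr {A B : Type} [CommRing A] [CommRing B] (φ : A →+* B)
    (l : (b : Fin s) → Fin (e b) → Fin (n b + 1) → A) :
    MvPolynomial.map φ (arr l) = arr fun b c i => φ (l b c i) := by
  unfold arr
  rw [map_prod]
  refine prod_congr rfl fun b _ => ?_
  rw [map_prod]
  refine prod_congr rfl fun c _ => ?_
  rw [MvPolynomial.map_rename]
  congr 1
  unfold lf
  rw [map_sum]
  refine sum_congr rfl fun j _ => ?_
  rw [map_mul, MvPolynomial.map_C, MvPolynomial.map_X]

/-- The substitution `t = τ + s T`. -/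
noncomputable def lineHom {R A : Type} [CommRing R] [CommRing A] (ψ : R →+* A) (τ : σ → A) :
    MvPolynomial σ R →+* Polynomial (MvPolynomial σ A) :=
  MvPolynomial.eval₂Hom (Polynomial.C.comp (MvPolynomial.C.comp ψ))
    fun i => Polynomial.C (MvPolynomial.C (τ i)) +
      Polynomial.X * Polynomial.C (MvPolynomial.X i)

omit [Fintype σ] in
lemma lineHom_zero {R A : Type} [CommRing R] [CommRing A] (ψ : R →+* A) (τ : σ → A) :
    (Polynomial.evalRingHom 0).comp (lineHom ψ τ) =
      (MvPolynomial.C : A →+* MvPolynomial σ A).comp (MvPolynomial.eval₂Hom ψ τ) := by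
  apply MvPolynomial.ringHom_ext
  · intro a
    simp [lineHom]
  · intro i
    simp [lineHom]

omit [Fintype σ] in
lemma lineHom_eval {R A k : Type} [CommRing R] [CommRing A] [CommRing k] (ψ : R →+* A)
    (τ : σ → A) (φ : A →+* k) (T : σ → k) (z : k) :
    ((Polynomial.evalRingHom z).comp (Polynomial.mapRingHom (MvPolynomial.eval₂Hom φ T))).comp
      (lineHom ψ τ) =
      MvPolynomial.eval₂Hom (φ.comp ψ) fun i => φ (τ i) + z * T i := by
  apply MvPolynomial.ringHom_ext
  · intro a
    simp [lineHom]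
  · intro i
    simp only [lineHom, RingHom.comp_apply, MvPolynomial.coe_eval₂Hom, MvPolynomial.eval₂_X,
      map_add, map_mul, Polynomial.coe_mapRingHom, Polynomial.map_C, Polynomial.map_X,
      Polynomial.coe_evalRingHom, Polynomial.eval_C, Polynomial.eval_X, MvPolynomial.eval₂_C]

/-- The family over a finitely generated ring. -/
theorem overA' (m : ℕ) (hm12 : m = 1 ∨ m = 2)
    (F : MvPolynomial (Var n) (MvPolynomial σ (𝓞 K))) (hF : MH n (fun b => m * e b) F)
    (l : (b : Fin s) → Fin (e b) → Fin (n b + 1) → AlgebraicClosure K)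
    (hl : ∀ b, ∀ ρ : Fin (n b + 1) → Fin (e b), Function.Injective ρ →
      (Matrix.of fun i j => l b (ρ i) j).det ≠ 0) (τ : σ → K)
    (harr : MvPolynomial.map ((algebraMap K (AlgebraicClosure K)).comp
      (MvPolynomial.eval₂Hom (algebraMap (𝓞 K) K) τ)) F = arr l ^ m) (ε : ℝ) (hε : 0 < ε) :
    ∃ (A : Subalgebra (𝓞 K) (AlgebraicClosure K)) (τA : σ → A) (a : MvPolynomial σ A) (p₀ : ℕ),
      A.FG ∧ (∀ i, (τA i : AlgebraicClosure K) = algebraMap K (AlgebraicClosure K) (τ i)) ∧
      a ≠ 0 ∧ ∀ (p : ℕ) (k : Type) [Field k] [CharP k p] (φ : A →+* k) (T : σ → k),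
      p.Prime → p₀ ≤ p → MvPolynomial.eval₂ φ T a ≠ 0 → ∀ e' : ℕ, e' * m + 1 = p →
      ∀ Z : Finset k, (∀ z ∈ Z, z ^ p = z ∧ (hm e' p (mwexp n e) (MvPolynomial.map
        (MvPolynomial.eval₂Hom (φ.comp (algebraMap (𝓞 K) A)) fun i => φ (τA i) + z * T i)
          F)).det = 0) →
        (Z.card : ℝ) ≤ ε * p := by
  classical
  set S : Finset (AlgebraicClosure K) :=
    ((univ : Finset ((b : Fin s) × (Fin (e b) × Fin (n b + 1)))).image
      fun x => l x.1 x.2.1 x.2.2) ∪
    ((univ : Finset ((b : Fin s) × (Fin (n b + 1) → Fin (e b)))).image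
      fun x => (Matrix.of fun i j => l x.1 (x.2 i) j).det⁻¹) ∪
    {((m : AlgebraicClosure K) ^ 2)⁻¹} ∪
    ((univ : Finset σ).image fun i => algebraMap K (AlgebraicClosure K) (τ i)) with hS
  set A := Algebra.adjoin (𝓞 K) (S : Set (AlgebraicClosure K)) with hA
  have hsub : ∀ x ∈ S, x ∈ A := fun x hx => Algebra.subset_adjoin (mem_coe.mpr hx)
  have hl' : ∀ b i j, l b i j ∈ A := fun b i j => hsub _ (by
    rw [hS]
    refine mem_union_left _ (mem_union_left _ (mem_union_left _
      (mem_image.mpr ⟨⟨b, i, j⟩, mem_univ _, rfl⟩))))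
  have hd' : ∀ (b : Fin s) (ρ : Fin (n b + 1) → Fin (e b)),
      (Matrix.of fun i j => l b (ρ i) j).det⁻¹ ∈ A := fun b ρ =>
    hsub _ (by
      rw [hS]
      exact mem_union_left _ (mem_union_left _ (mem_union_right _
        (mem_image.mpr ⟨⟨b, ρ⟩, mem_univ _, rfl⟩))))
  have hm' : ((m : AlgebraicClosure K) ^ 2)⁻¹ ∈ A := hsub _ (by
    rw [hS]
    exact mem_union_left _ (mem_union_right _ (mem_singleton_self _)))
  have hτ' : ∀ i, algebraMap K (AlgebraicClosure K) (τ i) ∈ A := fun i => hsub _ (by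
    rw [hS]
    exact mem_union_right _ (mem_image.mpr ⟨i, mem_univ _, rfl⟩))
  have hinj : Function.Injective (A.val : A →+* AlgebraicClosure K) := Subtype.val_injective
  have hm0 : (m : AlgebraicClosure K) ^ 2 ≠ 0 := by
    apply pow_ne_zero
    rw [Nat.cast_ne_zero]
    omega
  set lA : (b : Fin s) → Fin (e b) → Fin (n b + 1) → A := fun b i j => ⟨l b i j, hl' b i j⟩
    with hlA
  set τA : σ → A := fun i => ⟨algebraMap K (AlgebraicClosure K) (τ i), hτ' i⟩ with hτA
  have hdet : ∀ (b : Fin s) (ρ : Fin (n b + 1) → Fin (e b)),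
      (A.val : A →+* AlgebraicClosure K)
      (Matrix.of fun i j => lA b (ρ i) j).det = (Matrix.of fun i j => l b (ρ i) j).det := by
    intro b ρ
    rw [RingHom.map_det]
    rfl
  have hunit : ∀ (b : Fin s) (ρ : Fin (n b + 1) → Fin (e b)), Function.Injective ρ →
      IsUnit (Matrix.of fun i j => lA b (ρ i) j).det := by
    intro b ρ hρ
    refine IsUnit.of_mul_eq_one ⟨_, hd' b ρ⟩ ?_
    apply hinj
    rw [map_mul, hdet b ρ, map_one]
    exact mul_inv_cancel₀ (hl b ρ hρ)
  have hμ : (m : A) ^ 2 * ⟨_, hm'⟩ = 1 := by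
    apply hinj
    rw [map_mul, map_pow, map_natCast, map_one]
    exact mul_inv_cancel₀ hm0
  -- the arrangement over `A`
  have harrA : MvPolynomial.map (MvPolynomial.eval₂Hom (algebraMap (𝓞 K) A) τA) F =
      arr lA ^ m := by
    apply MvPolynomial.map_injective _ hinj
    rw [map_pow, map_arr]
    have h1 : (arr fun b c i => (A.val : A →+* AlgebraicClosure K) (lA b c i)) = arr l := rfl
    rw [h1, ← harr, MvPolynomial.map_map]
    congr 2
    apply MvPolynomial.ringHom_ext
    · intro x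
      simp
      rfl
    · intro i
      simp [hτA]
  set f' : MvPolynomial (Var n) (Polynomial (MvPolynomial σ A)) :=
    MvPolynomial.map (lineHom (algebraMap (𝓞 K) A) τA) F with hf'
  have hinjC : Function.Injective (MvPolynomial.C : A →+* MvPolynomial σ A) :=
    MvPolynomial.C_injective _ _
  obtain ⟨p₀, a, ha, h⟩ := conc' m hm12 (A := MvPolynomial σ A)
    (fun b c i => MvPolynomial.C (lA b c i))
    (fun b ρ hρ => by
      have h1 := (hunit b ρ hρ).map (MvPolynomial.C : A →+* MvPolynomial σ A)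
      rw [RingHom.map_det] at h1
      exact h1) (MvPolynomial.C ⟨_, hm'⟩)
    (by
      have h1 := congrArg (MvPolynomial.C : A →+* MvPolynomial σ A) hμ
      rw [map_mul, map_pow, map_natCast, map_one] at h1
      exact h1) f'
    (fun u hu => hF u (MvPolynomial.support_map_subset _ _ hu)) (by
      rw [hf', MvPolynomial.map_map, lineHom_zero, ← MvPolynomial.map_map, harrA, map_pow,
        map_arr]) ε hε
  refine ⟨A, τA, a, p₀, Subalgebra.fg_adjoin_finset S, fun i => rfl, ha, ?_⟩
  intro p k _ _ φ T hpp hp0 hφ e' he Z hZ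
  refine h p k (MvPolynomial.eval₂Hom φ T) hpp hp0 hφ e' he Z fun z hz => ?_
  refine ⟨(hZ z hz).1, ?_⟩
  rw [← det_ev, hf', MvPolynomial.map_map, MvPolynomial.map_map, lineHom_eval]
  exact (hZ z hz).2

open Classical in
/-- **The zeros of the Hasse-Witt determinant modulo a place.** -/
theorem place' (m : ℕ) (hm12 : m = 1 ∨ m = 2)
    (F : MvPolynomial (Var n) (MvPolynomial σ (𝓞 K))) (hF : MH n (fun b => m * e b) F)
    (l : (b : Fin s) → Fin (e b) → Fin (n b + 1) → AlgebraicClosure K)
    (hl : ∀ b, ∀ ρ : Fin (n b + 1) → Fin (e b), Function.Injective ρ →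
      (Matrix.of fun i j => l b (ρ i) j).det ≠ 0) (τ : σ → K)
    (harr : MvPolynomial.map ((algebraMap K (AlgebraicClosure K)).comp
      (MvPolynomial.eval₂Hom (algebraMap (𝓞 K) K) τ)) F = arr l ^ m) (ε : ℝ) (hε : 0 < ε) :
    {v : HeightOneSpectrum (𝓞 K) | (Ideal.absNorm v.asIdeal).Prime ∧
      ¬ ∀ e' : ℕ, e' * m + 1 = Ideal.absNorm v.asIdeal →
      ∀ Z : Finset (σ → v.asIdeal.ResidueField), (∀ t ∈ Z,
        (hm e' (Ideal.absNorm v.asIdeal) (mwexp n e)
        (MvPolynomial.map (MvPolynomial.eval₂Hom (algebraMap (𝓞 K) v.asIdeal.ResidueField) t)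
          F)).det = 0) →
        (Z.card : ℝ) ≤ ε * (Ideal.absNorm v.asIdeal : ℝ) ^ Fintype.card σ}.Finite := by
  obtain ⟨A, τA, a, p₀, hFG, hτ, ha, h⟩ := overA' m hm12 F hF l hl τ harr (ε / 4) (by positivity)
  have hinj : Function.Injective (A.val : A →+* AlgebraicClosure K) := Subtype.val_injective
  have halg : ∀ x : 𝓞 K, ((algebraMap (𝓞 K) A x : A) : AlgebraicClosure K) =
      algebraMap K (AlgebraicClosure K) (algebraMap (𝓞 K) K x) := fun x => rfl
  have h1 : Function.Injective (algebraMap (𝓞 K) A) := by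
    intro x y hxy
    have h2 := congrArg (fun z : A => (z : AlgebraicClosure K)) hxy
    simp only [halg] at h2
    exact (IsFractionRing.injective (𝓞 K) K) ((algebraMap K (AlgebraicClosure K)).injective h2)
  have h2 : Algebra.FiniteType (𝓞 K) A := (Subalgebra.fg_iff_finiteType A).mp hFG
  have h3 : Algebra.IsAlgebraic (𝓞 K) A := by
    have h4 : Algebra.IsAlgebraic (𝓞 K) (AlgebraicClosure K) :=
      (IsFractionRing.comap_isAlgebraic_iff (A := 𝓞 K) (K := K) (C := AlgebraicClosure K)).mpr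
        inferInstance
    refine ⟨fun x => ?_⟩
    exact (isAlgebraic_algHom_iff A.val Subtype.val_injective).mp
      (h4.isAlgebraic (x : AlgebraicClosure K))
  -- a nonzero coefficient
  obtain ⟨α, hα⟩ : ∃ α, MvPolynomial.coeff α a ≠ 0 := MvPolynomial.ne_zero_iff.mp ha
  have hfin := Pool.Agent.Q102.AP.spread (𝓞 K) A h1 h2 h3 _ hα
  -- the denominators of `τ`
  have hden : ∀ i, ∃ x y : 𝓞 K, y ≠ 0 ∧ algebraMap (𝓞 K) A y * τA i = algebraMap (𝓞 K) A x := by
    intro i
    obtain ⟨x, y, hy, hxy⟩ := IsFractionRing.div_surjective (A := 𝓞 K) (τ i)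
    have hy0 : y ≠ 0 := nonZeroDivisors.ne_zero hy
    refine ⟨x, y, hy0, ?_⟩
    apply hinj
    rw [map_mul]
    change ((algebraMap (𝓞 K) A y : A) : AlgebraicClosure K) * (τA i : AlgebraicClosure K) =
      ((algebraMap (𝓞 K) A x : A) : AlgebraicClosure K)
    rw [halg, halg, hτ, ← map_mul, ← hxy]
    congr 1
    have : algebraMap (𝓞 K) K y ≠ 0 := by
      rw [Ne, FaithfulSMul.algebraMap_eq_zero_iff]
      exact hy0
    field_simp
  choose x y hy0 hyA using hden
  have hfiny : (⋃ i, {v : HeightOneSpectrum (𝓞 K) | y i ∈ v.asIdeal}).Finite :=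
    Set.finite_iUnion fun i => finite_mem (K := K) (y i) (hy0 i)
  refine ((hfin.union hfiny).union (Pool.Agent.W352.ChAbs.finite_le (K := K)
    (max p₀ (max 2 ⌈4 * (a.totalDegree : ℝ) / ε⌉₊)))).subset ?_
  rintro v ⟨hv, hv'⟩
  by_contra hno
  simp only [Set.mem_union, Set.mem_ofPred_eq, not_or, not_not, not_le] at hno
  obtain ⟨⟨⟨k, hk, φ, hφ, hker⟩, hyv⟩, hp0⟩ := hno
  simp only [Set.mem_iUnion, not_exists, Set.mem_ofPred_eq] at hyv
  apply hv'
  intro e' he
  set p := Ideal.absNorm v.asIdeal with hp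
  set κ := v.asIdeal.ResidueField with hκ
  intro Z hZ
  have hcharκ := charP_res v hv
  have hchar : CharP k p := by
    rw [CharP.charP_iff_prime_eq_zero hv]
    have h5 : (p : 𝓞 K) ∈ v.asIdeal := Ideal.absNorm_mem v.asIdeal
    rw [← hker, RingHom.mem_ker, map_natCast] at h5
    exact h5
  have hunits : v.asIdeal.primeCompl ≤
      Submonoid.comap (φ.comp (algebraMap (𝓞 K) A)) (IsUnit.submonoid k) := fun z hz => by
    refine IsUnit.mk0 _ fun h0 => hz ?_
    rw [← hker]
    exact h0
  set ι : κ →+* k := Ideal.ResidueField.lift v.asIdeal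
    (φ.comp (algebraMap (𝓞 K) A)) hker.ge hunits with hι
  have hcomp : ι.comp (algebraMap (𝓞 K) κ) = φ.comp (algebraMap (𝓞 K) A) := by
    ext z
    exact Ideal.ResidueField.lift_algebraMap v.asIdeal (φ.comp (algebraMap (𝓞 K) A)) hker.ge hunits z
  have hcn := card_res v
  have hfinite : Finite κ :=
    Nat.finite_of_card_ne_zero (by rw [hcn]; exact hv.ne_zero)
  have : Fintype κ := Fintype.ofFinite _
  rw [Nat.card_eq_fintype_card] at hcn
  have hpow : ∀ t : κ, t ^ p = t := fun t => by
    rw [hp, ← hcn]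
    exact FiniteField.pow_card t
  have h6 : ∀ z : 𝓞 K, φ (algebraMap (𝓞 K) A z) = ι (algebraMap (𝓞 K) κ z) :=
    fun z => (RingHom.congr_fun hcomp z).symm
  -- the point of the arrangement
  set c : σ → κ := fun i => algebraMap (𝓞 K) κ (x i) / algebraMap (𝓞 K) κ (y i) with hc
  have hcφ : ∀ i, φ (τA i) = ι (c i) := by
    intro i
    have h5 := congrArg φ (hyA i)
    rw [map_mul, h6, h6] at h5
    have h7 : ι (algebraMap (𝓞 K) κ (y i)) ≠ 0 := by
      rw [Ne, map_eq_zero, Ideal.algebraMap_residueField_eq_zero]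
      exact hyv i
    rw [hc]
    simp only
    rw [map_div₀, eq_div_iff h7, mul_comm]
    exact h5
  set a' := MvPolynomial.map φ a with ha'
  have ha'0 : a' ≠ 0 := by
    intro h0
    apply hφ
    rw [← MvPolynomial.coeff_map, ← ha', h0, MvPolynomial.coeff_zero]
  set E : Finset (σ → κ) := univ.filter fun T => MvPolynomial.eval (fun i => ι (T i)) a' = 0
    with hE
  have hEc : (E.card : ℝ) * p ≤ a.totalDegree * (p : ℝ) ^ Fintype.card σ := by
    have h7 := sz a' ha'0 ((univ : Finset κ).image ι) ⟨ι 0, mem_image_of_mem _ (mem_univ _)⟩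
      (E.image fun T i => ι (T i)) (by
        intro t ht
        obtain ⟨T, hT, rfl⟩ := mem_image.mp ht
        exact ⟨fun i => mem_image_of_mem _ (mem_univ _), (mem_filter.mp hT).2⟩)
    rw [card_image_of_injective _ (fun T T' h => funext fun i => ι.injective (congrFun h i)),
      card_image_of_injective _ ι.injective, card_univ, hcn] at h7
    have h8 : a'.totalDegree ≤ a.totalDegree :=
      Finset.sup_mono (MvPolynomial.support_map_subset _ _)
    exact_mod_cast h7.trans (Nat.mul_le_mul_right _ h8)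
  have hp0' : max p₀ (max 2 ⌈4 * (a.totalDegree : ℝ) / ε⌉₊) < p := by simpa using hp0
  have hlines := count_lines c Z E (ε / 4 * p) (by positivity) (by
    intro T hT
    rw [← card_image_of_injective _ ι.injective]
    refine h p k φ (fun i => ι (T i)) hv (le_of_lt ((le_max_left _ _).trans_lt hp0')) ?_ e' he _ ?_
    · intro h0
      apply hT
      rw [hE, mem_filter]
      refine ⟨mem_univ _, ?_⟩
      rw [ha', MvPolynomial.eval_map]
      exact h0
    · intro z hz
      obtain ⟨w, hw, rfl⟩ := mem_image.mp hz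
      refine ⟨by rw [← map_pow, hpow], ?_⟩
      have h7 := hZ _ (mem_filter.mp hw).2
      have h8 : MvPolynomial.eval₂Hom (φ.comp (algebraMap (𝓞 K) A))
          (fun i => φ (τA i) + ι w * ι (T i)) = ι.comp (MvPolynomial.eval₂Hom
            (algebraMap (𝓞 K) κ) fun i => c i + w * T i) := by
        apply MvPolynomial.ringHom_ext
        · intro z
          rw [MvPolynomial.coe_eval₂Hom, MvPolynomial.eval₂_C, RingHom.comp_apply,
            RingHom.comp_apply, MvPolynomial.coe_eval₂Hom, MvPolynomial.eval₂_C, h6]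
        · intro i
          rw [MvPolynomial.coe_eval₂Hom, MvPolynomial.eval₂_X, RingHom.comp_apply,
            MvPolynomial.coe_eval₂Hom, MvPolynomial.eval₂_X, hcφ, map_add, map_mul]
      rw [h8, ← MvPolynomial.map_map, det_hm_map, h7, map_zero])
  rw [hcn] at hlines
  -- the conclusion
  have hp2 : (2 : ℝ) ≤ p := by
    have : 2 < p := (le_max_left _ _).trans_lt ((le_max_right _ _).trans_lt hp0')
    exact_mod_cast this.le
  have hp3 : 4 * (a.totalDegree : ℝ) / ε ≤ p := by
    refine (Nat.le_ceil _).trans ?_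
    have : ⌈4 * (a.totalDegree : ℝ) / ε⌉₊ < p :=
      (le_max_right _ _).trans_lt ((le_max_right _ _).trans_lt hp0')
    exact_mod_cast this.le
  rw [div_le_iff₀ hε] at hp3
  set N := Fintype.card σ with hN
  have hpN : (0 : ℝ) < (p : ℝ) ^ N := by positivity
  have h7 : ((p : ℝ) - 1) * Z.card ≤ (ε / 4 * p + a.totalDegree) * (p : ℝ) ^ N := by
    have : (p : ℝ) * E.card ≤ a.totalDegree * (p : ℝ) ^ N := by rw [mul_comm]; exact hEc
    linarith
  have h8 : (ε / 4 * p + a.totalDegree) ≤ ε * ((p : ℝ) - 1) := by nlinarith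
  have h9 : ((p : ℝ) - 1) * Z.card ≤ ((p : ℝ) - 1) * (ε * (p : ℝ) ^ N) := by
    refine h7.trans ?_
    calc (ε / 4 * p + a.totalDegree) * (p : ℝ) ^ N ≤ (ε * ((p : ℝ) - 1)) * (p : ℝ) ^ N :=
          mul_le_mul_of_nonneg_right h8 hpN.le
      _ = _ := by ring
  exact le_of_mul_le_mul_left h9 (by linarith)

end

end Pool.Agent.H887.CI
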