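import Pool.Agent.H887.CI.Inf

/-!
# The sieves for general conditions
-/

set_option autoImplicit false

open Finset

namespace Pool.Agent.H887.CI

open Pool.Agent.Q267.AP Pool.Agent.Q267.ST
open NumberField IsDedekindDomain Filter Topology
open Pool.Agent.W401.Cheb Pool.Agent.W528.Ord
open Pool.Agent.Q267.OD (charP_res finite_mem red allP)
open Pool.Agent.Q267.DC (hm abs_sup)

section

variable {K : Type} [Field K] [NumberField K]

open Classical in
/-- **All scales.** -/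
theorem allscales' {σ : Type} [Fintype σ] [Nonempty σ]
    (O : HeightOneSpectrum (𝓞 K) → (σ → ℕ) → Prop)
    (hper : ∀ v : HeightOneSpectrum (𝓞 K), (Ideal.absNorm v.asIdeal).Prime →
      ∀ t, O v t ↔ O v fun j => t j % Ideal.absNorm v.asIdeal)
    (hfew : ∀ ε : ℝ, 0 < ε → {v : HeightOneSpectrum (𝓞 K) | (Ideal.absNorm v.asIdeal).Prime ∧
      ¬ (((Fintype.piFinset fun _ : σ => range (Ideal.absNorm v.asIdeal)).filter
        fun t => ¬ O v t).card : ℝ) ≤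
          ε * (Ideal.absNorm v.asIdeal : ℝ) ^ Fintype.card σ}.Finite)
    (η : ℝ) (hη : 0 < η) (θ : ℝ) (hθ0 : 0 < θ) (hθ1 : θ < 1) :
    ∃ A : ℝ, ∀ X Q₀ Q₁ : ℕ, 1 ≤ Q₀ →
      ({t : σ → ℕ | (∀ j, 1 ≤ t j ∧ t j ≤ X) ∧ ∃ Q, Q₀ ≤ Q ∧ Q ≤ Q₁ ∧
        (Nat.card {v : HeightOneSpectrum (𝓞 K) // Ideal.absNorm v.asIdeal ≤ Q ∧
          O v t} : ℝ) < (1 - η) * allP K Q}.ncard : ℝ) ≤
        A * ((X : ℝ) ^ Fintype.card σ * (Q₀ : ℝ) ^ (θ - 1) +
          (X : ℝ) ^ (Fintype.card σ - 1) * (Q₁ : ℝ) ^ (1 + θ)) := by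
  obtain ⟨A, hA⟩ := abs_sup K (J := σ) (Γ := Unit)
    (fun _ v t => O v t) (fun _ => True) 1
    one_pos le_rfl (dens_true (K := K)) 1 zero_le_one le_rfl (by
      intro ε hε
      refine ⟨fun v => (Ideal.absNorm v.asIdeal).Prime ∧ v ∉ (hfew ε hε).toFinset, ?_,
        fun v hv => ⟨trivial, hv.1⟩, ?_⟩
      · have h1 : Tendsto (fun N => dens (fun v : HeightOneSpectrum (𝓞 K) =>
            ¬ (Ideal.absNorm v.asIdeal).Prime) N +
              dens (fun v => v ∈ (hfew ε hε).toFinset) N) atTop (𝓝 (0 + 0)) :=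
          (dens_not_prime (K := K)).add (dens_finite _ (Finset.finite_toSet _))
        rw [add_zero] at h1
        refine squeeze_zero (fun N => dens_nonneg _ _) (fun N => ?_) h1
        refine le_trans (dens_mono (Q := fun v => ¬ (Ideal.absNorm v.asIdeal).Prime ∨
          v ∈ (hfew ε hε).toFinset) ?_ N) (dens_or _ _ N)
        rintro v ⟨_, hv⟩
        by_cases h3 : (Ideal.absNorm v.asIdeal).Prime
        · right
          by_contra h4
          exact hv ⟨h3, h4⟩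
        · exact Or.inl h3
      · rintro _ v ⟨hv, hvF⟩
        refine ⟨fun t => hper v hv _, ?_⟩
        have hbad : (((Fintype.piFinset fun _ : σ => range (Ideal.absNorm v.asIdeal)).filter
            fun t => ¬ O v t).card : ℝ) ≤
              ε * (Ideal.absNorm v.asIdeal : ℝ) ^ Fintype.card σ := by
          by_contra hno
          exact hvF ((hfew ε hε).mem_toFinset.mpr ⟨hv, hno⟩)
        refine ⟨(Fintype.piFinset fun _ : σ => range (Ideal.absNorm v.asIdeal)).filter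
            fun t => O v t, ?_, ?_⟩
        · intro a ha
          rw [mem_filter, Fintype.mem_piFinset] at ha
          exact ⟨fun j => mem_range.mp (ha.1 j), ha.2⟩
        · have h2 := card_filter_add_card_filter_not
            (s := Fintype.piFinset fun _ : σ => range (Ideal.absNorm v.asIdeal))
            (fun t => O v t)
          rw [Fintype.card_piFinset, prod_const, card_range, card_univ] at h2
          have hp : (0 : ℝ) < (Ideal.absNorm v.asIdeal : ℝ) ^ Fintype.card σ := by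
            have : (0 : ℝ) < Ideal.absNorm v.asIdeal := by exact_mod_cast hv.pos
            positivity
          rw [le_div_iff₀ hp]
          have h3 : (((Fintype.piFinset fun _ : σ => range (Ideal.absNorm v.asIdeal)).filter
              fun t => O v t).card : ℝ) +
              (((Fintype.piFinset fun _ : σ => range (Ideal.absNorm v.asIdeal)).filter
              fun t => ¬ O v t).card : ℝ) =
                (Ideal.absNorm v.asIdeal : ℝ) ^ Fintype.card σ := by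
            exact_mod_cast h2
          linarith) (η / 2) (by positivity) θ hθ0 hθ1
  refine ⟨A, fun X Q₀ Q₁ hQ₀ => ?_⟩
  obtain ⟨δ, hδ, h⟩ := hA ()
  have h1 := h X Q₀ Q₁ hQ₀
  simp only [true_and] at h1
  refine le_trans ?_ h1
  have hfin : {t : σ → ℕ | (∀ j, 1 ≤ t j ∧ t j ≤ X) ∧ ∃ Q, Q₀ ≤ Q ∧ Q ≤ Q₁ ∧
      η / 2 * allP K Q < |(Nat.card {v : HeightOneSpectrum (𝓞 K) // Ideal.absNorm v.asIdeal ≤ Q ∧
          O v t} : ℝ) - δ Q * allP K Q|}.Finite := by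
    refine (Finset.finite_toSet (Fintype.piFinset fun _ : σ => Finset.Icc 1 X)).subset ?_
    intro t ht
    rw [Finset.mem_coe, Fintype.mem_piFinset]
    exact fun j => Finset.mem_Icc.mpr (ht.1 j)
  refine Nat.cast_le.mpr ?_
  refine Set.ncard_le_ncard ?_ hfin
  rintro t ⟨ht, Q, hq1, hq2, hq3⟩
  refine ⟨ht, Q, hq1, hq2, ?_⟩
  have h2 := hδ Q
  have h3 : (0 : ℝ) ≤ allP K Q := Nat.cast_nonneg _
  have h4 : (1 - η / 2) * (allP K Q : ℝ) ≤ δ Q * allP K Q :=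
    mul_le_mul_of_nonneg_right (by linarith) h3
  rw [abs_sub_comm]
  refine lt_of_lt_of_le ?_ (le_abs_self _)
  nlinarith

open Classical in
/-- **Most scales, with few exceptions.** -/
theorem mostscales' (O : HeightOneSpectrum (𝓞 K) → ℕ → Prop)
    (hper : ∀ v : HeightOneSpectrum (𝓞 K), (Ideal.absNorm v.asIdeal).Prime →
      ∀ t, O v t ↔ O v (t % Ideal.absNorm v.asIdeal))
    (hfew : ∀ ε : ℝ, 0 < ε → {v : HeightOneSpectrum (𝓞 K) | (Ideal.absNorm v.asIdeal).Prime ∧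
      ¬ (((range (Ideal.absNorm v.asIdeal)).filter fun t : ℕ => ¬ O v t).card : ℝ) ≤
          ε * Ideal.absNorm v.asIdeal}.Finite)
    (η δ : ℝ) (hη : 0 < η) (hδ : 0 < δ) :
    ∃ C : ℝ, ∀ X Q₀ Q₁ : ℕ, 1 ≤ Q₀ → (X : ℝ) ^ δ * Q₀ ≤ Q₁ →
      ({t : ℕ | (1 ≤ t ∧ t ≤ X) ∧
        (Nat.card {j : ℕ // (Q₀ ≤ 2 ^ j ∧ 2 ^ j ≤ Q₁) ∧ (1 - η) * allP K (2 ^ j) ≤
          (Nat.card {v : HeightOneSpectrum (𝓞 K) // Ideal.absNorm v.asIdeal ≤ 2 ^ j ∧
            O v t} : ℝ)} : ℝ) <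
        (1 - η) * Nat.card {j : ℕ // Q₀ ≤ 2 ^ j ∧ 2 ^ j ≤ Q₁}}.ncard : ℝ) ≤ C * Q₁ := by
  obtain ⟨C, hC⟩ := ls_main Pool.Agent.Q102.AP.larger scale Pool.Agent.Q102.AP.mert K
    (fun t v => ¬ O v t) (fun t v hv => not_congr (hper v hv t))
    (fun ε hε => (hfew ε hε).subset fun v hv => ⟨hv.1, fun h => hv.2 (le_trans (le_of_eq (by congr))
      h)⟩) η δ hη hδ
  refine ⟨C, fun X Q₀ Q₁ hQ₀ hQ => ?_⟩
  set E := {t : ℕ | (1 ≤ t ∧ t ≤ X) ∧
        (Nat.card {j : ℕ // (Q₀ ≤ 2 ^ j ∧ 2 ^ j ≤ Q₁) ∧ (1 - η) * allP K (2 ^ j) ≤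
          (Nat.card {v : HeightOneSpectrum (𝓞 K) // Ideal.absNorm v.asIdeal ≤ 2 ^ j ∧
            O v t} : ℝ)} : ℝ) <
        (1 - η) * Nat.card {j : ℕ // Q₀ ≤ 2 ^ j ∧ 2 ^ j ≤ Q₁}} with hE
  have hfin : E.Finite := (Finset.finite_toSet (Finset.Icc 1 X)).subset fun t ht => by
    rw [Finset.mem_coe, Finset.mem_Icc]
    exact ht.1
  rw [Set.ncard_eq_toFinset_card _ hfin]
  refine hC X Q₀ Q₁ hQ₀ hQ hfin.toFinset ?_
  intro t ht
  rw [Set.Finite.mem_toFinset] at ht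
  obtain ⟨ht1, ht2⟩ := ht
  refine ⟨ht1.1, ht1.2, ?_⟩
  have hms : ∀ j, j ∈ scales Q₀ Q₁ ↔ Q₀ ≤ 2 ^ j ∧ 2 ^ j ≤ Q₁ := by
    intro j
    unfold scales
    rw [mem_filter, mem_range]
    refine ⟨fun h => h.2, fun h => ⟨?_, h⟩⟩
    have : j < 2 ^ j := Nat.lt_two_pow_self
    omega
  have hcj : ∀ (R : ℕ → Prop), Nat.card {j : ℕ // (Q₀ ≤ 2 ^ j ∧ 2 ^ j ≤ Q₁) ∧ R j} =
      ((scales Q₀ Q₁).filter fun j => R j).card := by
    intro R
    have h4 : {j : ℕ | (Q₀ ≤ 2 ^ j ∧ 2 ^ j ≤ Q₁) ∧ R j}.Finite :=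
      (Finset.finite_toSet (scales Q₀ Q₁)).subset fun j hj => mem_coe.mpr ((hms j).mpr hj.1)
    have h5 : Nat.card {j : ℕ // (Q₀ ≤ 2 ^ j ∧ 2 ^ j ≤ Q₁) ∧ R j} = h4.toFinset.card :=
      Set.ncard_eq_toFinset_card _ h4
    rw [h5]
    congr 1
    ext j
    rw [Set.Finite.mem_toFinset, Finset.mem_filter, hms]
    rfl
  have hcj' : Nat.card {j : ℕ // Q₀ ≤ 2 ^ j ∧ 2 ^ j ≤ Q₁} = (scales Q₀ Q₁).card := by
    have h4 : {j : ℕ | Q₀ ≤ 2 ^ j ∧ 2 ^ j ≤ Q₁}.Finite :=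
      (Finset.finite_toSet (scales Q₀ Q₁)).subset fun j hj => mem_coe.mpr ((hms j).mpr hj)
    have h5 : Nat.card {j : ℕ // Q₀ ≤ 2 ^ j ∧ 2 ^ j ≤ Q₁} = h4.toFinset.card :=
      Set.ncard_eq_toFinset_card _ h4
    rw [h5]
    congr 1
    ext j
    rw [Set.Finite.mem_toFinset, hms]
    rfl
  have hcv : ∀ Q, Nat.card {v : HeightOneSpectrum (𝓞 K) // Ideal.absNorm v.asIdeal ≤ Q ∧
      O v t} = ((pls K Q).filter fun v => O v t).card := by
    intro Q
    have h4 : {v : HeightOneSpectrum (𝓞 K) | Ideal.absNorm v.asIdeal ≤ Q ∧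
        O v t}.Finite :=
      (Pool.Agent.W352.ChAbs.finite_le (K := K) Q).subset fun v hv => hv.1
    have h5 : Nat.card {v : HeightOneSpectrum (𝓞 K) // Ideal.absNorm v.asIdeal ≤ Q ∧
        O v t} = h4.toFinset.card := Set.ncard_eq_toFinset_card _ h4
    rw [h5]
    congr 1
    ext v
    rw [Set.Finite.mem_toFinset, Finset.mem_filter, mem_pls]
    rfl
  rw [hcj, hcj'] at ht2
  have h6 := card_filter_add_card_filter_not (s := scales Q₀ Q₁)
    (fun j => (1 - η) * allP K (2 ^ j) ≤ (Nat.card {v : HeightOneSpectrum (𝓞 K) //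
      Ideal.absNorm v.asIdeal ≤ 2 ^ j ∧ O v t} : ℝ))
  have h7 : (((scales Q₀ Q₁).filter fun j => (1 - η) * allP K (2 ^ j) ≤
      (Nat.card {v : HeightOneSpectrum (𝓞 K) // Ideal.absNorm v.asIdeal ≤ 2 ^ j ∧
        O v t} : ℝ)).card : ℝ) +
      (((scales Q₀ Q₁).filter fun j => ¬ (1 - η) * allP K (2 ^ j) ≤
      (Nat.card {v : HeightOneSpectrum (𝓞 K) // Ideal.absNorm v.asIdeal ≤ 2 ^ j ∧
        O v t} : ℝ)).card : ℝ) = (scales Q₀ Q₁).card := by
    exact_mod_cast h6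
  have h8 : (((scales Q₀ Q₁).filter fun j => ¬ (1 - η) * allP K (2 ^ j) ≤
      (Nat.card {v : HeightOneSpectrum (𝓞 K) // Ideal.absNorm v.asIdeal ≤ 2 ^ j ∧
        O v t} : ℝ)).card : ℝ) ≤ ((scales Q₀ Q₁).filter fun j =>
          η * allP K (2 ^ j) < ((pls K (2 ^ j)).filter fun v =>
            ¬ O v t).card).card := by
    refine Nat.cast_le.mpr (card_le_card fun j hj => ?_)
    rw [mem_filter] at hj ⊢
    refine ⟨hj.1, ?_⟩
    have h9 := hj.2
    rw [hcv] at h9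
    have h10 := card_filter_add_card_filter_not (s := pls K (2 ^ j))
      (fun v => O v t)
    have h11 : (((pls K (2 ^ j)).filter fun v => O v t).card : ℝ) +
        (((pls K (2 ^ j)).filter fun v => ¬ O v t).card : ℝ) =
          allP K (2 ^ j) := by
      rw [allP_eq]
      exact_mod_cast h10
    push Not at h9
    linarith
  refine le_trans ?_ (h8.trans (le_of_eq ?_))
  · linarith
  · congr
    funext j
    congr

end

end Pool.Agent.H887.CI
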