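import Pool.Agent.H887.CI.Const
import Pool.Graph.R_pool_sql_team_seeded_3997aac3.Q267.AP.Main

/-!
# The soft Stepanov theorem for general scalings
-/

set_option autoImplicit false

open Finset

namespace Pool.Agent.H887.CI

open Pool.Agent.Q267.AP Pool.Agent.Q267.ST
open Pool.Agent.Q267.DC (hm hm_map det_hm_map)

lemma star0 : S_Star :=
  Pool.Agent.Q174.AP.star Pool.Agent.Q102.AP.cart frobG Pool.Agent.Q299.ST.cxMul

/-- The matrix of the periods. -/
noncomputable def pm {ι J A : Type} [Fintype ι] [DecidableEq ι] [CommRing A] (ω : ι → ℕ)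
    (w : J → ι →₀ ℕ) (M : J → Matrix ι ι A) (Ψ : J → PowerSeries (LP ι A)) :
    Matrix J J (PowerSeries A) :=
  Matrix.of fun j l => per ω (M j) (Ψ j) (w l)

/-- The leading coefficients of the periods. -/
noncomputable def vt {ι J A : Type} [Fintype ι] [CommRing A] (u₀ : ι →₀ ℕ)
    (w : J → ι →₀ ℕ) (M : J → Matrix ι ι A) : Matrix J J A :=
  Matrix.of fun j l => MvPolynomial.coeff (u₀ - one ι)
    (lin (M j) (MvPolynomial.monomial (w l - one ι) (1 : A)))

section main

variable {ι J : Type} [Fintype ι] [DecidableEq ι] [Fintype J] [DecidableEq J]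

lemma sum_eq_wt (ω : ι → ℕ) (u₀ : ι →₀ ℕ) (h0 : one ι ≤ u₀) (h1 : wt ω (u₀ - one ι) = 0) :
    wt ω u₀ = ∑ i, ω i := by
  unfold wt at h1 ⊢
  rw [sum_eq_zero_iff] at h1
  refine sum_congr rfl fun i _ => ?_
  have h2 := h1 i (mem_univ i)
  have h3 := h0 i
  have e8 : (one ι) i = 1 := rfl
  rw [Finsupp.tsub_apply, e8] at h2
  rw [e8] at h3
  rcases Nat.eq_zero_or_pos (ω i) with h | h
  · rw [h, zero_mul]
  · have h4 : u₀ i - 1 = 0 := by
      rcases Nat.mul_eq_zero.mp h2 with h5 | h5
      · omega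
      · exact h5
    have h5 : u₀ i = 1 := by omega
    rw [h5, mul_one]

omit [Fintype J] [DecidableEq J] in
lemma pm_map {A B : Type} [CommRing A] [CommRing B] (φ : A →+* B) (ω : ι → ℕ) (w : J → ι →₀ ℕ)
    (M : J → Matrix ι ι A) (Ψ : J → PowerSeries (LP ι A)) :
    pm ω w (fun j => (M j).map φ) (fun j => PowerSeries.map (LPm φ) (Ψ j)) =
      (pm ω w M Ψ).map (PowerSeries.map φ) := by
  ext1 j l
  rw [Matrix.map_apply]
  exact per_map φ ω (M j) (Ψ j) (w l)

/-- The Frobenius structure. -/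
lemma det_star' {k : Type} [Field k] (p : ℕ) [Fact p.Prime] [CharP k p]
    (hp : p ≠ 0) (ω : ι → ℕ) (w : J → ι →₀ ℕ) (hw : Function.Injective w)
    (hw1 : ∀ j i, 1 ≤ w j i)
    (m e : ℕ) (he : e * m + 1 = p) (f : MvPolynomial ι (Polynomial k))
    (hsupp : ∀ l, ∀ v ∈ (MvPolynomial.monomial (w l) 1 * f ^ e).support,
      (∃ v' : ι →₀ ℕ, v = p • v') → ∃ i, v = p • w i)
    (M : J → Matrix ι ι k) (γ : k) (N : ℕ) (Ψ G : J → PowerSeries (LP ι k))
    (h1 : ∀ j, Ψ j ^ m * G j = 1)
    (h2 : ∀ j, chart ω γ N (M j) f = PowerSeries.X ^ (m * ∑ i, ω i) * G j) :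
    (pm ω w M Ψ).det = (PowerSeries.C (∏ j, (M j).det ^ (p - 1)) *
      PowerSeries.expand p hp (PowerSeries.map (frobenius k p) (pm ω w M Ψ).det)) *
        (((hm e p w f).det.comp (Polynomial.C γ * Polynomial.X ^ N) : Polynomial k) :
          PowerSeries k) := by
  have h3 : pm ω w M Ψ = Matrix.diagonal (fun j => PowerSeries.C ((M j).det ^ (p - 1))) *
      (((pm ω w M Ψ).map (PowerSeries.map (frobenius k p))).map (PowerSeries.expand p hp) *
        ((hm e p w f).map (Polynomial.compRingHom (Polynomial.C γ * Polynomial.X ^ N))).map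
          (Polynomial.coeToPowerSeries.ringHom (R := k))) := by
    ext1 j l
    rw [Matrix.diagonal_mul, Matrix.mul_apply]
    have h4 := star0 ι J k p hp w hw hw1 m e he f hsupp (M j) ω γ N (Ψ j) (G j) (h1 j) (h2 j) l
    refine h4.trans ?_
    congr 1
    refine sum_congr rfl fun i _ => ?_
    rw [mul_comm]
    rfl
  have h5 := congrArg Matrix.det h3
  rw [Matrix.det_mul, Matrix.det_mul, Matrix.det_diagonal] at h5
  have h6 : (((pm ω w M Ψ).map (PowerSeries.map (frobenius k p))).map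
      (PowerSeries.expand p hp)).det =
      PowerSeries.expand p hp (PowerSeries.map (frobenius k p) (pm ω w M Ψ).det) := by
    rw [RingHom.map_det, AlgHom.map_det]
    rfl
  have h7 : (((hm e p w f).map (Polynomial.compRingHom (Polynomial.C γ * Polynomial.X ^ N))).map
          (Polynomial.coeToPowerSeries.ringHom (R := k))).det =
      (((hm e p w f).det.comp (Polynomial.C γ * Polynomial.X ^ N) : Polynomial k) :
          PowerSeries k) := by
    have h8 := RingHom.map_det (Polynomial.coeToPowerSeries.ringHom (R := k))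
      ((hm e p w f).map (Polynomial.compRingHom (Polynomial.C γ * Polynomial.X ^ N)))
    have h9 := RingHom.map_det (Polynomial.compRingHom (Polynomial.C γ * Polynomial.X ^ N))
      (hm e p w f)
    rw [Polynomial.coeToPowerSeries.ringHom_apply] at h8
    change _ = Matrix.det (((hm e p w f).map
      (Polynomial.compRingHom (Polynomial.C γ * Polynomial.X ^ N))).map
          (Polynomial.coeToPowerSeries.ringHom (R := k))) at h8
    rw [← h8]
    congr 1
    exact h9.symm
  rw [h6, h7, ← mul_assoc] at h5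
  rw [map_prod]
  exact h5

variable {A : Type} [CommRing A] [IsDomain A] [CharZero A]

/-- **The series of the family.** -/
theorem series' (ω : ι → ℕ) (m N : ℕ) (u₀ : ι →₀ ℕ) (hm12 : m = 1 ∨ m = 2)
    (h0 : one ι ≤ u₀) (h1 : wt ω (u₀ - one ι) = 0) (hN : m * (∑ i, ω i) + 1 ≤ N)
    (w : J → ι →₀ ℕ)
    (μ γ : A) (hμ : (m : A) ^ 2 * μ = 1) (c c' : J → A) (hc : ∀ j, c j * c' j = 1)
    (M : J → Matrix ι ι A) (h : MvPolynomial ι A) (g : MvPolynomial ι (Polynomial A))
    (hrc : ∀ j, MvPolynomial.coeff u₀ (lin (M j) h) = c j)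
    (hmin : ∀ j, ∀ u ∈ (lin (M j) h).support, u ≠ u₀ → wt ω u₀ + 1 ≤ wt ω u) :
    ∃ Ψ G : J → PowerSeries (LP ι A), (∀ j, Ψ j ^ m * G j = 1) ∧
      (∀ j, chart ω γ N (M j)
        (MvPolynomial.map Polynomial.C h ^ m + MvPolynomial.C Polynomial.X * g) =
          PowerSeries.X ^ (m * ∑ i, ω i) * G j) ∧
      HasODE (pm ω w M Ψ).det ∧
      PowerSeries.constantCoeff (pm ω w M Ψ).det = (∏ j, c' j) * (vt u₀ w M).det := by
  have hm1 : 1 ≤ m := by omega
  have hws := sum_eq_wt ω u₀ h0 h1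
  have h1' := fun j => norm' ω m N (c j) (c' j) μ γ (M j) h u₀ g (hc j) hμ (hrc j) (hmin j)
    (by rw [hws]; exact hN)
  choose y hy0 hy using h1'
  have h2 : ∀ j, ∃ ψ : PowerSeries (LP ι A), PowerSeries.constantCoeff ψ = 1 ∧
      ψ ^ m * (1 + (m : PowerSeries (LP ι A)) ^ 2 * (y j : PowerSeries (LP ι A))) = 1 := by
    intro j
    refine Pool.Agent.Q225.ST.root (LP ι A) m hm12 _ ?_
    rw [← PowerSeries.coeff_zero_eq_constantCoeff_apply, Polynomial.coeff_coe]
    exact hy0 j
  choose ψ hψ1 hψ2 using h2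
  have hode : ∀ j u, HasODE (cx u (ψ j)) := by
    intro j u
    refine lip ι A m (1 + (m : Polynomial (LP ι A)) ^ 2 * y j) (ψ j) (by omega) ?_ _
    rw [← hψ2 j]
    congr 1
    simp only [← Polynomial.coeToPowerSeries.ringHom_apply, map_add, map_mul, map_pow, map_one,
      map_natCast]
  refine ⟨fun j => cst (PowerSeries.C (c' j)) * xm (-(zexp u₀)) * ψ j,
    fun j => cst (PowerSeries.C (c j ^ m)) * xm (m • zexp u₀) *
            (1 + (m : PowerSeries (LP ι A)) ^ 2 * (y j : PowerSeries (LP ι A))),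
    fun j => ?_, fun j => ?_, ?_, ?_⟩
  · have h3 : (cst (PowerSeries.C (c' j)) : PowerSeries (LP ι A)) ^ m *
        cst (PowerSeries.C (c j ^ m)) = 1 := by
      rw [← map_pow, ← map_mul, ← map_pow, ← map_mul, ← mul_pow, mul_comm (c' j), hc, one_pow,
        map_one, map_one]
    have h4 : (xm (-(zexp u₀)) : PowerSeries (LP ι A)) ^ m * xm (m • zexp u₀) = 1 := by
      rw [xm_pow, ← xm_add, ← xm_zero]
      congr 1
      rw [smul_neg, neg_add_cancel]
    calc _ = ((cst (PowerSeries.C (c' j)) : PowerSeries (LP ι A)) ^ m *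
          cst (PowerSeries.C (c j ^ m))) *
          ((xm (-(zexp u₀)) : PowerSeries (LP ι A)) ^ m * xm (m • zexp u₀)) *
          (ψ j ^ m * (1 + (m : PowerSeries (LP ι A)) ^ 2 * (y j : PowerSeries (LP ι A)))) := by
          ring
      _ = 1 := by rw [h3, h4, hψ2, one_mul, one_mul]
  · rw [← hws]
    exact hy j
  · apply Pool.Agent.Q121.ST.dfToODE
    refine dfin_det Pool.Agent.Q121.ST.dfAdd Pool.Agent.Q121.ST.dfMul Pool.Agent.Q121.ST.dfPoly _
      fun j l => ?_
    exact perD ι A ω (c' j) _ (M j) (ψ j) (w l) (hode j)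
  · have h3 : (pm ω w M fun j => cst (PowerSeries.C (c' j)) *
        xm (-(zexp u₀)) * ψ j).map
          (PowerSeries.constantCoeff (R := A)) = Matrix.diagonal c' * vt u₀ w M := by
      ext j l
      rw [Matrix.map_apply, Matrix.diagonal_mul]
      exact const' ω (c' j) (M j) u₀ h0 h1 (ψ j) (w l) (hψ1 j)
    rw [RingHom.map_det]
    change ((pm ω w M fun j => cst (PowerSeries.C (c' j)) *
        xm (-(zexp u₀)) * ψ j).map
          (PowerSeries.constantCoeff (R := A))).det = _
    rw [h3, Matrix.det_mul, Matrix.det_diagonal]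

/-- **The soft Stepanov theorem for the curves `s = γ S ^ N`.** -/
theorem soft1'
    (ω : ι → ℕ) (m N : ℕ) (u₀ : ι →₀ ℕ) (hm12 : m = 1 ∨ m = 2)
    (h0 : one ι ≤ u₀) (h1 : wt ω (u₀ - one ι) = 0) (hN : m * (∑ i, ω i) + 1 ≤ N)
    (w : J → ι →₀ ℕ) (hw : Function.Injective w) (hw1 : ∀ j i, 1 ≤ w j i)
    (μ γ : A) (hμ : (m : A) ^ 2 * μ = 1) (c c' : J → A) (hc : ∀ j, c j * c' j = 1)
    (M : J → Matrix ι ι A) (hM : ∀ j, IsUnit (M j).det) (h : MvPolynomial ι A)
    (g : MvPolynomial ι (Polynomial A))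
    (hrc : ∀ j, MvPolynomial.coeff u₀ (lin (M j) h) = c j)
    (hmin : ∀ j, ∀ u ∈ (lin (M j) h).support, u ≠ u₀ → wt ω u₀ + 1 ≤ wt ω u)
    (hV : (vt u₀ w M).det ≠ 0) (ε : ℝ) (hε : 0 < ε) (H : ℕ)
    (hH : ∀ v, (MvPolynomial.coeff v (MvPolynomial.map Polynomial.C h ^ m +
      MvPolynomial.C Polynomial.X * g)).natDegree ≤ H) :
    ∃ (p₀ : ℕ) (a : A), a ≠ 0 ∧ ∀ (p : ℕ) (k : Type) [Field k] [CharP k p] (φ : A →+* k),
      p.Prime → p₀ ≤ p → φ a ≠ 0 → ∀ e : ℕ, e * m + 1 = p →
      (∀ l, ∀ v ∈ (MvPolynomial.monomial (w l) 1 *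
        (MvPolynomial.map (Polynomial.mapRingHom φ) (MvPolynomial.map Polynomial.C h ^ m +
          MvPolynomial.C Polynomial.X * g)) ^ e).support,
        (∃ v' : ι →₀ ℕ, v = p • v') → ∃ i, v = p • w i) →
      ∀ T : Finset k, (∀ s ∈ T, s ^ p = s ∧ (hm e p w (MvPolynomial.map
        (Polynomial.mapRingHom φ) (MvPolynomial.map Polynomial.C h ^ m +
          MvPolynomial.C Polynomial.X * g))).det.eval (φ γ * s ^ N) = 0) →
      (T.card : ℝ) ≤ ε * p := by
  classical
  set f := MvPolynomial.map Polynomial.C h ^ m + MvPolynomial.C Polynomial.X * g with hf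
  obtain ⟨Ψ, G, hΨ, hch, hode, hD1⟩ := series' ω m N u₀ hm12 h0 h1 hN w μ γ hμ c c' hc M h g
    hrc hmin
  set D := (pm ω w M Ψ).det with hD
  set V := (vt u₀ w M).det with hVd
  have hm1 : 1 ≤ m := by omega
  have hc'0 : ∀ j, c' j ≠ 0 := fun j h0 => by
    have := hc j
    rw [h0, mul_zero] at this
    exact zero_ne_one this
  have hD0 : D ≠ 0 := by
    intro h0
    rw [h0, map_zero] at hD1
    exact mul_ne_zero (prod_ne_zero_iff.mpr fun j _ => hc'0 j) hV hD1.symm
  obtain ⟨p₀, a, ha, hS⟩ := soft_stepanov A D hD0 hode ε hε (Fintype.card J * H * N)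
  refine ⟨p₀, a * V, mul_ne_zero ha hV, ?_⟩
  intro p k _ _ φ hpp hp0 hφ e he hsupp T hT
  have hfact : Fact p.Prime := ⟨hpp⟩
  have hp : p ≠ 0 := hpp.ne_zero
  rw [map_mul] at hφ
  have hφa : φ a ≠ 0 := left_ne_zero_of_mul hφ
  have hφV : φ V ≠ 0 := right_ne_zero_of_mul hφ
  have hφc : ∀ j, φ (c' j) ≠ 0 := fun j h0 => by
    have := congrArg φ (hc j)
    rw [map_mul, h0, mul_zero, map_one] at this
    exact zero_ne_one this
  have hφM : ∀ j, ((M j).map φ).det ≠ 0 := fun j => by
    have h1 := (hM j).map φ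
    rw [RingHom.map_det] at h1
    exact h1.ne_zero
  set fk := MvPolynomial.map (Polynomial.mapRingHom φ) f with hfk
  have hid := det_star' p hp ω w hw hw1 m e he fk hsupp (fun j => (M j).map φ) (φ γ) N
    (fun j => PowerSeries.map (LPm φ) (Ψ j)) (fun j => PowerSeries.map (LPm φ) (G j))
    (fun j => by rw [← map_pow, ← map_mul, hΨ j, map_one])
    (fun j => by
      rw [hfk, chart_map, hch j, map_mul, map_pow, PowerSeries.map_X])
  rw [pm_map] at hid
  have hDk : ((pm ω w M Ψ).map (PowerSeries.map φ)).det = PowerSeries.map φ D := by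
    rw [hD, RingHom.map_det]
    rfl
  rw [hDk] at hid
  set dk := (hm e p w fk).det with hdk
  set P := dk.comp (Polynomial.C (φ γ) * Polynomial.X ^ N) with hP
  obtain ⟨b, hb⟩ : ∃ b : k, b = ∏ j, ((M j).map φ).det ^ (p - 1) := ⟨_, rfl⟩
  rw [← hb] at hid
  have hb0 : b ≠ 0 := by
    rw [hb]
    exact prod_ne_zero_iff.mpr fun j _ => pow_ne_zero _ (hφM j)
  set u := PowerSeries.C b * PowerSeries.expand p hp
    (PowerSeries.map (frobenius k p) (PowerSeries.map φ D)) with hu
  have hu1 : PowerSeries.constantCoeff u ≠ 0 := by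
    rw [hu, map_mul, PowerSeries.constantCoeff_C, PowerSeries.constantCoeff_expand,
      ← PowerSeries.coeff_zero_eq_constantCoeff_apply, PowerSeries.coeff_map,
      PowerSeries.coeff_map, PowerSeries.coeff_zero_eq_constantCoeff_apply, hD1, frobenius_def]
    refine mul_ne_zero hb0 (pow_ne_zero _ ?_)
    rw [map_mul, map_prod]
    exact mul_ne_zero (prod_ne_zero_iff.mpr fun j _ => hφc j) hφV
  have huu : u * u⁻¹ = 1 := PowerSeries.mul_inv_cancel u hu1
  have hP1 : (P : PowerSeries k) = u⁻¹ * PowerSeries.map φ D := by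
    rw [hid]
    calc (P : PowerSeries k) = (u * u⁻¹) * P := by rw [huu, one_mul]
      _ = _ := by ring
  refine hS p k φ hpp hp0 hφa P u⁻¹ ?_ ?_ hP1 ?_ T ?_
  · -- derivative
    have h2 := deriv_expand p hp (PowerSeries.map (frobenius k p) (PowerSeries.map φ D))
    have h3 : PowerSeries.derivative k (PowerSeries.C b) = 0 := PowerSeries.derivative_C
    have h4 : PowerSeries.derivative k u = 0 := by
      rw [hu, Derivation.leibniz, h3, h2, smul_zero, smul_zero, add_zero]
    rw [PowerSeries.derivative_inv', h4, mul_zero]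
  · rw [PowerSeries.constantCoeff_inv]
    exact inv_ne_zero hu1
  · -- degree
    have h2 : P.natDegree ≤ dk.natDegree * N := by
      rw [hP]
      refine Polynomial.natDegree_comp_le.trans (Nat.mul_le_mul_left _ ?_)
      exact Polynomial.natDegree_C_mul_X_pow_le _ _
    have h3 : ∀ v, (MvPolynomial.coeff v fk).natDegree ≤ H := by
      intro v
      rw [hfk, MvPolynomial.coeff_map, Polynomial.coe_mapRingHom]
      exact (Polynomial.natDegree_map_le).trans (hH v)
    have h4 := natDegree_det_hm h3 e p w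
    have h5 : e ≤ p := by
      have : e ≤ e * m := Nat.le_mul_of_pos_right e (by omega)
      omega
    calc P.natDegree ≤ (Fintype.card J * (e * H)) * N := h2.trans (Nat.mul_le_mul_right _ h4)
      _ ≤ (Fintype.card J * (p * H)) * N :=
        Nat.mul_le_mul_right _ (Nat.mul_le_mul_left _ (Nat.mul_le_mul_right _ h5))
      _ = _ := by ring
  · intro s hs
    obtain ⟨hs0, hs1⟩ := hT s hs
    refine ⟨hs0, ?_⟩
    rw [hP, Polynomial.eval_comp, Polynomial.eval_mul, Polynomial.eval_C, Polynomial.eval_pow,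
      Polynomial.eval_X]
    exact hs1

/-- **The soft Stepanov theorem for families, all values of the parameter.** -/
theorem soft2'
    (ω : ι → ℕ) (m : ℕ) (u₀ : ι →₀ ℕ) (hm12 : m = 1 ∨ m = 2)
    (h0 : one ι ≤ u₀) (h1 : wt ω (u₀ - one ι) = 0)
    (w : J → ι →₀ ℕ) (hw : Function.Injective w) (hw1 : ∀ j i, 1 ≤ w j i)
    (μ : A) (hμ : (m : A) ^ 2 * μ = 1) (c c' : J → A) (hc : ∀ j, c j * c' j = 1)
    (M : J → Matrix ι ι A) (hM : ∀ j, IsUnit (M j).det) (h : MvPolynomial ι A)
    (g : MvPolynomial ι (Polynomial A))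
    (hrc : ∀ j, MvPolynomial.coeff u₀ (lin (M j) h) = c j)
    (hmin : ∀ j, ∀ u ∈ (lin (M j) h).support, u ≠ u₀ → wt ω u₀ + 1 ≤ wt ω u)
    (hV : (vt u₀ w M).det ≠ 0) (ε : ℝ) (hε : 0 < ε) (H : ℕ)
    (hH : ∀ v, (MvPolynomial.coeff v (MvPolynomial.map Polynomial.C h ^ m +
      MvPolynomial.C Polynomial.X * g)).natDegree ≤ H) :
    ∃ (p₀ : ℕ) (a : A), a ≠ 0 ∧ ∀ (p : ℕ) (k : Type) [Field k] [CharP k p] (φ : A →+* k),
      p.Prime → p₀ ≤ p → φ a ≠ 0 → ∀ e : ℕ, e * m + 1 = p →
      (∀ l, ∀ v ∈ (MvPolynomial.monomial (w l) 1 *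
        (MvPolynomial.map (Polynomial.mapRingHom φ) (MvPolynomial.map Polynomial.C h ^ m +
          MvPolynomial.C Polynomial.X * g)) ^ e).support,
        (∃ v' : ι →₀ ℕ, v = p • v') → ∃ i, v = p • w i) →
      ∀ Z : Finset k, (∀ t ∈ Z, t ^ p = t ∧ (hm e p w (MvPolynomial.map
        (Polynomial.mapRingHom φ) (MvPolynomial.map Polynomial.C h ^ m +
          MvPolynomial.C Polynomial.X * g))).det.eval t = 0) →
      (Z.card : ℝ) ≤ ε * p := by
  classical
  set f := MvPolynomial.map Polynomial.C h ^ m + MvPolynomial.C Polynomial.X * g with hf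
  set f' : MvPolynomial ι (Polynomial (Polynomial A)) :=
    MvPolynomial.map Polynomial.C (MvPolynomial.map Polynomial.C h) ^ m +
      MvPolynomial.C Polynomial.X *
        MvPolynomial.map (Polynomial.mapRingHom (Polynomial.C : A →+* Polynomial A)) g with hf'
  have hff : f' = MvPolynomial.map (Polynomial.mapRingHom (Polynomial.C : A →+* Polynomial A)) f := by
    rw [hf, map_add, map_mul, map_pow, MvPolynomial.map_C, Polynomial.coe_mapRingHom,
      Polynomial.map_X, hf', MvPolynomial.map_map, MvPolynomial.map_map]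
    have h0 : (Polynomial.C : Polynomial A →+* _).comp (Polynomial.C : A →+* Polynomial A) =
        (Polynomial.mapRingHom (Polynomial.C : A →+* Polynomial A)).comp Polynomial.C := by
      ext a
      simp
    rw [h0]
  have hH' : ∀ v, (MvPolynomial.coeff v f').natDegree ≤ H := by
    intro v
    rw [hff, MvPolynomial.coeff_map, Polynomial.coe_mapRingHom]
    exact (Polynomial.natDegree_map_le).trans (hH v)
  have hV' : (vt u₀ w (fun j => (M j).map (Polynomial.C : A →+* Polynomial A))).det ≠ 0 := by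
    have h1 : vt u₀ w (fun j => (M j).map (Polynomial.C : A →+* Polynomial A)) =
        (vt u₀ w M).map (Polynomial.C : A →+* Polynomial A) := by
      ext1 j l
      rw [Matrix.map_apply]
      change MvPolynomial.coeff (u₀ - one ι) (lin ((M j).map (Polynomial.C : A →+* Polynomial A))
        (MvPolynomial.monomial (w l - one ι) (1 : Polynomial A))) = Polynomial.C
          (MvPolynomial.coeff (u₀ - one ι) (lin (M j) (MvPolynomial.monomial (w l - one ι) (1 : A))))
      have h2 : MvPolynomial.monomial (w l - one ι) (1 : Polynomial A) =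
          MvPolynomial.map Polynomial.C (MvPolynomial.monomial (w l - one ι) (1 : A)) := by
        rw [MvPolynomial.map_monomial, Polynomial.C_1]
      rw [h2, ← lin_map, MvPolynomial.coeff_map]
    rw [h1]
    have h2 := RingHom.map_det (Polynomial.C : A →+* Polynomial A) (vt u₀ w M)
    have h3 : ((vt u₀ w M).map (Polynomial.C : A →+* Polynomial A)).det =
        Polynomial.C (vt u₀ w M).det := h2.symm
    rw [h3]
    exact Polynomial.C_ne_zero.mpr hV
  have hlin : ∀ j, lin ((M j).map (Polynomial.C : A →+* Polynomial A))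
      (MvPolynomial.map Polynomial.C h) = MvPolynomial.map Polynomial.C (lin (M j) h) :=
    fun j => (lin_map _ _ _).symm
  obtain ⟨p₁, a', ha', hS⟩ := soft1' ω m (m * (∑ i, ω i) + 1) u₀ hm12 h0 h1 le_rfl w hw hw1
    (Polynomial.C μ) (Polynomial.X : Polynomial A)
    (by rw [← Polynomial.C_eq_natCast, ← Polynomial.C_pow, ← Polynomial.C_mul, hμ,
      Polynomial.C_1])
    (fun j => Polynomial.C (c j)) (fun j => Polynomial.C (c' j))
    (fun j => by rw [← Polynomial.C_mul, hc j, Polynomial.C_1])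
    (fun j => (M j).map (Polynomial.C : A →+* Polynomial A))
    (fun j => by
      have h1 := (hM j).map (Polynomial.C : A →+* Polynomial A)
      rw [RingHom.map_det] at h1
      exact h1)
    (MvPolynomial.map Polynomial.C h)
    (MvPolynomial.map (Polynomial.mapRingHom (Polynomial.C : A →+* Polynomial A)) g)
    (fun j => by rw [hlin, MvPolynomial.coeff_map, hrc j])
    (fun j u hu => by
      rw [hlin] at hu
      exact hmin j u (MvPolynomial.support_map_subset _ _ hu))
    hV' (ε / 4) (by positivity) H hH'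
  refine ⟨max (max p₁ 2) (⌈(2 * (2 * (a'.natDegree : ℝ) + 1)) / ε⌉₊), a'.leadingCoeff,
    Polynomial.leadingCoeff_ne_zero.mpr ha', ?_⟩
  intro p k _ _ φ hpp hp0 hφ e he hsupp Z hZ
  have hp1 : p₁ ≤ p := (le_max_left _ _).trans ((le_max_left _ _).trans hp0)
  have hp3 : (2 * (2 * (a'.natDegree : ℝ) + 1)) / ε ≤ p :=
    (Nat.le_ceil _).trans (by exact_mod_cast (le_max_right _ _).trans hp0)
  have hp2 : (2 : ℝ) ≤ p := by exact_mod_cast hpp.two_le
  have hak : a'.map φ ≠ 0 := by
    intro h0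
    have h1 := congrArg (fun q => Polynomial.coeff q a'.natDegree) h0
    simp only [Polynomial.coeff_map, Polynomial.coeff_zero] at h1
    exact hφ h1
  have hBc : (a'.map φ).roots.toFinset.card ≤ a'.natDegree :=
    (Multiset.toFinset_card_le _).trans ((Polynomial.card_roots' _).trans
      Polynomial.natDegree_map_le)
  have hfk : ∀ g₀ : k, MvPolynomial.map (Polynomial.mapRingHom
      (Polynomial.eval₂RingHom φ g₀)) f' = MvPolynomial.map (Polynomial.mapRingHom φ) f := by
    intro g₀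
    rw [hff, MvPolynomial.map_map]
    refine RingHom.congr_fun (congrArg _ ?_) f
    rw [Polynomial.mapRingHom_comp]
    congr 1
    ext a
    simp
  have key := dbl hpp (m * (∑ i, ω i) + 1) a'.natDegree (ε / 4) (by positivity)
    (a'.map φ).roots.toFinset Z hBc (fun t ht => (hZ t ht).1)
    (fun g₀ hg₀ hgB T hT => by
      have hφ' : Polynomial.eval₂RingHom φ g₀ a' ≠ 0 := by
        rw [Polynomial.coe_eval₂RingHom, ← Polynomial.eval_map]
        intro h0
        apply hgB
        rw [Multiset.mem_toFinset, Polynomial.mem_roots hak]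
        exact h0
      refine hS p k (Polynomial.eval₂RingHom φ g₀) hpp hp1 hφ' e he ?_ T ?_
      · change ∀ l, ∀ v ∈ (MvPolynomial.monomial (w l) 1 *
          (MvPolynomial.map (Polynomial.mapRingHom (Polynomial.eval₂RingHom φ g₀)) f') ^ e).support,
          (∃ v' : ι →₀ ℕ, v = p • v') → ∃ i, v = p • w i
        rw [hfk g₀]
        exact hsupp
      · intro s hs
        obtain ⟨hs1, hs2⟩ := hT s hs
        refine ⟨hs1, ?_⟩
        change (hm e p w (MvPolynomial.map (Polynomial.mapRingHom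
          (Polynomial.eval₂RingHom φ g₀)) f')).det.eval _ = 0
        rw [hfk g₀, Polynomial.coe_eval₂RingHom, Polynomial.eval₂_X]
        exact (hZ _ hs2).2)
  have h4 : (2 * (2 * (a'.natDegree : ℝ) + 1)) ≤ p * ε := by
    rwa [div_le_iff₀ hε] at hp3
  have hpos : (0 : ℝ) < (p : ℝ) - 1 := by linarith
  have h5 : ε / 4 * p * p + a'.natDegree * p ≤ (ε * p - 1) * (p - 1) := by
    have hd : (0 : ℝ) ≤ a'.natDegree := Nat.cast_nonneg _
    nlinarith [mul_le_mul_of_nonneg_right h4 (by linarith : (0 : ℝ) ≤ (p : ℝ)),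
      mul_nonneg hε.le (mul_nonneg (by linarith : (0 : ℝ) ≤ (p : ℝ))
        (by linarith : (0 : ℝ) ≤ (p : ℝ) - 2)), mul_nonneg hd (by linarith : (0 : ℝ) ≤ (p : ℝ) - 2)]
  have h6 := le_of_mul_le_mul_right (key.trans h5) hpos
  linarith

end main

end Pool.Agent.H887.CI
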